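import Pool.Agent.SvS.Defs2

/-!
MP_7fa120_al: a large class of subgroups of the symmetric groups. Definitions and overview.

Let `R = oddGen H` be the subgroup generated by the elements of odd prime power order of `H` (the smallest normal subgroup with a
2-group as quotient). The class `Gc ℓ`: on every orbit of `R` with more than `ℓ` points `R` acts as a solvable group. It contains all
solvable groups, and all groups whose orbits have at most `ℓ` points. Theorem (`Main.lean`), with `ℓ = ell n = ⌊n ^ (1 / 256)⌋`: as in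
`Pool.Agent.SvS` for the subgroups of `S_n` in this class; so for some odd prime `r` the proportion of those with order divisible by
`r` has no limit.

Proof, compare `SvS/Defs.lean`. (S) `R` moves at most `n ^ (1/4)` points. (`SupOne`, `SupAll`, `ULem2`, `CntSm`; here `H` is arbitrary.)
(L) `H` is generated by a 2-group `D` normalising an abelian group `U` of odd order and few elements of `R` (`SupAll`, `CntL`).
Otherwise (`Gen`, `BadJ`) `H` has a chief factor `M / N` below `R`, abelian or of small order, and an integer `j` such that there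
are at least `j ^ (k - 2)` maximal subgroups of index `j` not containing `M` but `N`. If `j ^ (k - 2)` is large then `H` is recovered from
any of them and one element (`Rl`, `RlB`, `CntRl`: relative counting). Otherwise: `M / N` not abelian is impossible (`NonSm`); `M / N`
abelian gives many independent factors (`AbC`), and one continues as for solvable groups (`Core`, `StepG`, `ProcG`, `FirstG`, `SplitG`).
Large chief factors which are not abelian are generated by few elements (`ChGen`) and they are few.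
-/

set_option autoImplicit false

namespace Pool.Agent.GcS

open Equiv Pool.Agent.NilS Pool.Agent.BdO Pool.Agent.SvS

/-- On every orbit with more than `ℓ` points the group generated by the elements of odd prime power order acts as a solvable group. -/
def Gc {n : ℕ} (ℓ : ℕ) (H : Subgroup (Perm (Fin n))) : Prop :=
  ∀ Δ : Finset (Fin n), Orb (oddGen H) Δ → ℓ < Δ.card → Group.IsSolvable (res (oddGen H) Δ)

/-- `n ^ (1 / 256)`. -/
noncomputable def ell (n : ℕ) : ℕ := ⌊(n : ℝ) ^ (1 / 256 : ℝ)⌋₊

/-- The number of subgroups of `S_n` in the class. -/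
noncomputable def nG (n : ℕ) : ℕ := Nat.card {H : Subgroup (Perm (Fin n)) // Gc (ell n) H}

/-- The proportion of the subgroups in the class whose order is a multiple of `m`. -/
noncomputable def dens (n m : ℕ) : ℝ :=
  (Nat.card {H : Subgroup (Perm (Fin n)) // Gc (ell n) H ∧ m ∣ Nat.card H} : ℝ) /
    (Nat.card {H : Subgroup (Perm (Fin n)) // Gc (ell n) H} : ℝ)

/-- The number of subgroups in the class with odd part more than `52 !`. -/
noncomputable def nBigG (n : ℕ) : ℕ :=
  Nat.card {H : Subgroup (Perm (Fin n)) // Gc (ell n) H ∧ ¬ Bdd (Nat.factorial 52) H}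

/-- Every simple quotient `A / N` of a subgroup `A` is abelian or has order at most `2 ^ B`. -/
def Sb (B : ℕ) (G : Type) [Group G] : Prop :=
  ∀ (A : Subgroup G) (N : Subgroup A), N.Normal → N ≠ ⊤ → (∀ K : Subgroup A, K.Normal → N ≤ K → K = N ∨ K = ⊤) →
    (∀ a b : A, a * b * a⁻¹ * b⁻¹ ∈ N) ∨ N.index ≤ 2 ^ B

/-- `H` is generated by each of `2 ^ g` subgroups together with `j` elements. -/
def Rl {G : Type} [Group G] (H : Subgroup G) (g j : ℕ) : Prop :=
  2 ^ g ≤ Nat.card {L : Subgroup G // ∃ S : Finset G, S.card ≤ j ∧ L ⊔ Subgroup.closure (S : Set G) = H}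

/-- Maximal subgroups of index `j` containing `Y` and `N` but not `M`. -/
def Mx {G : Type} [Group G] (Y N M : Subgroup G) (j : ℕ) : Type :=
  {L : Subgroup G // IsCoatom L ∧ N ≤ L ∧ Y ≤ L ∧ L ⊔ M = ⊤ ∧ L.index = j}

/-- `M / N` is abelian. -/
def Ab {G : Type} [Group G] (N M : Subgroup G) : Prop := ∀ a ∈ M, ∀ b ∈ M, a * b * a⁻¹ * b⁻¹ ∈ N

/-- The number of additional generators, `b = log_2 |G|`. -/
def EE (b Λ B : ℕ) : ℕ := (b / Λ) * (B + Nat.log 2 b + 2)

/-- The number of generators in case (a). -/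
def jg (b k : ℕ) : ℕ := (b / (k / 2) + 1) ^ 2

/-- The number of steps of the process. -/
def tg (b k : ℕ) : ℕ := b / (k / 2 - 1)

/-- The conditions on the parameters. -/
def Par (b k Λ β g : ℕ) : Prop :=
  1 ≤ Λ ∧ Λ ^ 4 + Λ ^ 2 + Nat.log 2 b + 8 ≤ k ∧ 2 * (β + 2) ^ 2 + 8 ≤ k ∧ g ≤ (k - 2) * β ∧ g ≤ (k / 4) * (k / 4)

/-- The bound of `LargeB` with the factor `ℓ`. -/
noncomputable def LBG (n L ℓ s : ℕ) : ℕ :=
  ∑ t ∈ ((Finset.range (n + 1)) ×ˢ ((Finset.range (n + 1)) ×ˢ (Finset.range (n + 1)))).filter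
    (fun t => s ≤ ℓ * (L * t.1 + t.2.2) ∧ L * t.2.1 ≤ t.2.2 ∧ t.1 + t.2.2 ≤ n),
    n ^ t.1 * n ^ ((Nat.log 2 n + 1) * t.2.1 * (2 * n)) * nTwo (n - t.2.2 + t.2.1 - t.1)

/-- `n ^ (249 / 256)`. -/
noncomputable def kB (n : ℕ) : ℕ := ⌊(n : ℝ) ^ (249 / 256 : ℝ)⌋₊

/-- `n ^ (246 / 256)`. -/
noncomputable def kA (n : ℕ) : ℕ := ⌊(n : ℝ) ^ (246 / 256 : ℝ)⌋₊

/-- `n ^ (3 / 256)`. -/
noncomputable def LG (n : ℕ) : ℕ := ⌊(n : ℝ) ^ (3 / 256 : ℝ)⌋₊

/-- `n ^ (12 / 256)`. -/
noncomputable def La (n : ℕ) : ℕ := ⌊(n : ℝ) ^ (12 / 256 : ℝ)⌋₊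

/-- `n ^ (1 / 8)`. -/
noncomputable def be (n : ℕ) : ℕ := ⌊(n : ℝ) ^ (1 / 8 : ℝ)⌋₊

/-- `log_2 (n !)`. -/
def lf (n : ℕ) : ℕ := Nat.log 2 n.factorial

/-- The bound for the non-abelian simple sections. -/
noncomputable def BB (n : ℕ) : ℕ := Nat.log 2 (ell n).factorial + 1

/-- The exponent of the relative counting. -/
noncomputable def gg (n : ℕ) : ℕ := (kA n - 2) * be n

end Pool.Agent.GcS
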