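import Pool.Agent.GcS.GrowR
import Pool.Agent.GcS.Defs

/-!
MP_7fa120_al, class `Gc`. Real analysis: case (L). Compare `SvS/AnL.lean` (proved there).

Proof. Write `u = 1/256`. Let `n` be large, `L = LG n` (`n ^ (3u) / 2 ≤ L ≤ n ^ (3u)`), `ℓ = ell n ≤ n ^ u`. `EE (lf n) (La n) (BB n) = (lf n / La n) * (BB n + Nat.log 2 (lf n) + 2)` with
`lf n ≤ n (log_2 n + 1)`, `La n ≥ n ^ (12u) / 2`, `BB n ≤ n ^ u (log_2 n + 1) + 2`, so it is at most `n ^ (245u) * C log(n) ^ 2 ≤ n ^ (249u)`; `K = kB n + EE ≤ 2 n ^ (249u)`. Let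
`sg n < s ≤ n`, `(k₁, k₂, s₂)` in the index set of `LBG n L (ℓ + 2) s`, `z = s₂ - k₂ + k₁`. `k₂ ≤ s₂ / L ≤ s₂ / 2`, so `(k₁ + s₂) / 2 ≤ z ≤ n`, and
`s ≤ (ℓ + 2) L (k₁ + s₂)`, so `k₁ + s₂ ≥ sg n / ((ℓ + 2) L)` is large, `z ≥ 2`. By `grow_all`, `nTwo (n - s₂ + k₂ - k₁) = nTwo (n - z) ≤ nTwo n * exp (- z n ^ (254u) / 96)`. The logarithm of
the other factors is at most `(s + s K + s log_2 n + k₁ + (log_2 n + 1) k₂ 2 n) log n`, where
`s (1 + K + log_2 n) ≤ 3 n ^ u * (L k₁ + s₂) * 4 n ^ (249u) ≤ 12 (k₁ + s₂) n ^ (253u)` and `k₂ n ≤ 2 s₂ n ^ (253u)`; with the logarithms everything is at most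
`(k₁ + s₂) n ^ (253.5u) ≤ z n ^ (254u) / 200` for large `n`. So every term is at most `nTwo n * exp (- z n ^ (254u) / 400) ≤ nTwo n * exp (- n ^ (254u) / 200)`, and there are at most
`n (n + 1) ^ 3` terms.
-/

set_option autoImplicit false

namespace Pool.Agent.GcS

open Equiv Pool.Agent.NilS Pool.Agent.SvS Filter Topology

/-- The sizes in terms of `a = n ^ (1 / 512)`. -/
private theorem anLG_size : ∃ n₀ : ℕ, ∀ n : ℕ, n₀ ≤ n → ∃ a : ℝ, 200 ≤ a ∧ Real.log n ≤ a / 100 ∧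
    (Nat.log 2 n : ℝ) + 1 ≤ a / 100 ∧ a ^ 512 = n ∧ (n : ℝ) ^ (127 / 128 : ℝ) = a ^ 508 ∧
    (n : ℝ) ^ (249 / 256 : ℝ) = a ^ 498 ∧ (n : ℝ) ^ (3 / 256 : ℝ) = a ^ 6 ∧
    (n : ℝ) ^ (12 / 256 : ℝ) = a ^ 24 ∧ (n : ℝ) ^ (1 / 256 : ℝ) = a ^ 2 := by
  have h := (isLittleO_log_rpow_atTop (show (0 : ℝ) < 1 / 512 by norm_num)).bound
    (show (0 : ℝ) < Real.log 2 / 200 by positivity)
  have h' := tendsto_natCast_atTop_atTop (R := ℝ) |>.eventually h
  have h2 : ∀ᶠ m : ℕ in atTop, (200 : ℝ) ≤ (m : ℝ) ^ (1 / 512 : ℝ) :=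
    ((tendsto_rpow_atTop (show (0 : ℝ) < 1 / 512 by norm_num)).comp
      (tendsto_natCast_atTop_atTop (R := ℝ))).eventually_ge_atTop 200
  obtain ⟨m₀, hm₀⟩ := eventually_atTop.1 (h'.and h2)
  refine ⟨max m₀ 1, fun n hn => ?_⟩
  obtain ⟨h3, h4⟩ := hm₀ n ((le_max_left _ _).trans hn)
  have hn1 : 1 ≤ n := (le_max_right _ _).trans hn
  have hnR : (1 : ℝ) ≤ n := by exact_mod_cast hn1
  have hn0 : (0 : ℝ) < n := by linarith
  have h5 : Real.log n ≤ Real.log 2 / 200 * (n : ℝ) ^ (1 / 512 : ℝ) := by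
    have := h3
    rw [Real.norm_of_nonneg (Real.log_nonneg hnR), Real.norm_of_nonneg (by positivity)] at this
    exact this
  have hl2 : (0 : ℝ) < Real.log 2 := Real.log_pos (by norm_num)
  have hl3 : Real.log 2 ≤ 1 := by
    have := Real.log_two_lt_d9
    linarith
  have h6 : (Nat.log 2 n : ℝ) ≤ (n : ℝ) ^ (1 / 512 : ℝ) / 200 := by
    have h7 : ((2 : ℝ) ^ (Nat.log 2 n)) ≤ n := by exact_mod_cast Nat.pow_log_le_self 2 (by omega)
    have h8 : (Nat.log 2 n : ℝ) * Real.log 2 ≤ Real.log n := by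
      rw [← Real.log_pow]
      exact Real.log_le_log (by positivity) h7
    have h9 : (Nat.log 2 n : ℝ) * Real.log 2 ≤ (n : ℝ) ^ (1 / 512 : ℝ) / 200 * Real.log 2 := by
      refine h8.trans (h5.trans (le_of_eq ?_))
      ring
    exact le_of_mul_le_mul_right h9 hl2
  refine ⟨(n : ℝ) ^ (1 / 512 : ℝ), h4, ?_, by linarith, ?_, ?_, ?_, ?_, ?_, ?_⟩
  · refine h5.trans ?_
    have : Real.log 2 / 200 ≤ 1 / 200 := by linarith
    nlinarith
  all_goals
    rw [← Real.rpow_natCast, ← Real.rpow_mul hn0.le]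
    norm_num

/-- The additional generators. -/
private theorem anLG_K (n : ℕ) (a : ℝ) (hn1 : 1 ≤ n) (ha : 200 ≤ a) (hl : (Nat.log 2 n : ℝ) + 1 ≤ a / 100)
    (hN : a ^ 512 = n) (h249 : (n : ℝ) ^ (249 / 256 : ℝ) = a ^ 498)
    (h12 : (n : ℝ) ^ (12 / 256 : ℝ) = a ^ 24) (h1' : (n : ℝ) ^ (1 / 256 : ℝ) = a ^ 2) :
    ((kB n + EE (lf n) (La n) (BB n) : ℕ) : ℝ) ≤ 2 * a ^ 498 := by
  have ha1 : (1 : ℝ) ≤ a := by linarith
  have ha0 : (0 : ℝ) < a := by linarith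
  set l := Nat.log 2 n with hlE
  have hn2 : n ≤ 2 ^ (l + 1) := (Nat.lt_pow_succ_log_self (by norm_num) n).le
  have hln : l + 1 ≤ n := by
    have h : 2 ^ l ≤ n := Nat.pow_log_le_self 2 (show n ≠ 0 by omega)
    have h2 : l < 2 ^ l := Nat.lt_two_pow_self
    omega
  -- `lf n`
  have hlf : lf n ≤ n * (l + 1) := by
    unfold lf
    have h1 : n.factorial ≤ 2 ^ (n * (l + 1)) := by
      calc n.factorial ≤ n ^ n := Nat.factorial_le_pow n
        _ ≤ (2 ^ (l + 1)) ^ n := Nat.pow_le_pow_left hn2 n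
        _ = 2 ^ (n * (l + 1)) := by rw [← pow_mul, Nat.mul_comm]
    calc Nat.log 2 n.factorial ≤ Nat.log 2 (2 ^ (n * (l + 1))) := Nat.log_mono_right h1
      _ = n * (l + 1) := Nat.log_pow (by norm_num) _
  have hllf : Nat.log 2 (lf n) ≤ 2 * (l + 1) := by
    have h1 : lf n ≤ 2 ^ (2 * (l + 1)) := by
      calc lf n ≤ n * (l + 1) := hlf
        _ ≤ n * n := Nat.mul_le_mul_left _ hln
        _ ≤ 2 ^ (l + 1) * 2 ^ (l + 1) := Nat.mul_le_mul hn2 hn2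
        _ = 2 ^ (2 * (l + 1)) := by rw [← pow_add]; congr 1; ring
    calc Nat.log 2 (lf n) ≤ Nat.log 2 (2 ^ (2 * (l + 1))) := Nat.log_mono_right h1
      _ = 2 * (l + 1) := Nat.log_pow (by norm_num) _
  have hell : (ell n : ℝ) ≤ a ^ 2 := by
    unfold ell
    rw [h1']
    exact Nat.floor_le (by positivity)
  have helln : ell n ≤ n := by
    have h1 : (ell n : ℝ) ≤ n := by
      rw [← hN]
      exact hell.trans (pow_le_pow_right₀ ha1 (by norm_num))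
    exact_mod_cast h1
  have hBB : BB n ≤ ell n * (l + 1) + 1 := by
    unfold BB
    have h1 : (ell n).factorial ≤ 2 ^ (ell n * (l + 1)) := by
      calc (ell n).factorial ≤ (ell n) ^ (ell n) := Nat.factorial_le_pow _
        _ ≤ (2 ^ (l + 1)) ^ (ell n) := Nat.pow_le_pow_left (helln.trans hn2) _
        _ = 2 ^ (ell n * (l + 1)) := by rw [← pow_mul, Nat.mul_comm]
    have h2 : Nat.log 2 (ell n).factorial ≤ ell n * (l + 1) := by
      calc Nat.log 2 (ell n).factorial ≤ Nat.log 2 (2 ^ (ell n * (l + 1))) := Nat.log_mono_right h1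
        _ = ell n * (l + 1) := Nat.log_pow (by norm_num) _
    omega
  -- reals
  have hLa : a ^ 24 ≤ 2 * (La n : ℝ) := by
    have h1 : a ^ 24 < (La n : ℝ) + 1 := by
      unfold La
      rw [h12]
      exact Nat.lt_floor_add_one _
    have h2 : (200 : ℝ) ≤ a ^ 24 := by
      calc (200 : ℝ) ≤ a ^ 1 := by rw [pow_one]; exact ha
        _ ≤ a ^ 24 := pow_le_pow_right₀ ha1 (by norm_num)
    linarith
  have hLa0 : (0 : ℝ) < La n := by
    have : (0 : ℝ) < a ^ 24 := by positivity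
    linarith
  have hkB : (kB n : ℝ) ≤ a ^ 498 := by
    unfold kB
    rw [h249]
    exact Nat.floor_le (by positivity)
  have hq : ((lf n / La n : ℕ) : ℝ) ≤ 2 * a ^ 489 := by
    have h1 : ((lf n / La n : ℕ) : ℝ) ≤ (lf n : ℝ) / (La n : ℝ) := Nat.cast_div_le
    refine h1.trans ?_
    rw [div_le_iff₀ hLa0]
    have h2 : (lf n : ℝ) ≤ n * ((l : ℝ) + 1) := by exact_mod_cast hlf
    have h3 : (n : ℝ) * ((l : ℝ) + 1) ≤ a ^ 512 * a := by
      rw [hN]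
      refine mul_le_mul_of_nonneg_left ?_ (by positivity)
      linarith
    have h4 : a ^ 489 * a ^ 24 ≤ a ^ 489 * (2 * (La n : ℝ)) :=
      mul_le_mul_of_nonneg_left hLa (by positivity)
    calc (lf n : ℝ) ≤ a ^ 512 * a := h2.trans h3
      _ = a ^ 489 * a ^ 24 := by ring
      _ ≤ a ^ 489 * (2 * (La n : ℝ)) := h4
      _ = 2 * a ^ 489 * (La n : ℝ) := by ring
  have hr : ((BB n + Nat.log 2 (lf n) + 2 : ℕ) : ℝ) ≤ a ^ 3 := by
    have h1 : BB n + Nat.log 2 (lf n) + 2 ≤ ell n * (l + 1) + 1 + 2 * (l + 1) + 2 := by omega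
    have h2 : ((BB n + Nat.log 2 (lf n) + 2 : ℕ) : ℝ) ≤
        (ell n : ℝ) * ((l : ℝ) + 1) + 1 + 2 * ((l : ℝ) + 1) + 2 := by exact_mod_cast h1
    have h3 : (ell n : ℝ) * ((l : ℝ) + 1) ≤ a ^ 2 * (a / 100) :=
      mul_le_mul hell hl (by positivity) (by positivity)
    have h4 : a ≤ a ^ 3 := by
      calc a = a ^ 1 := (pow_one a).symm
        _ ≤ a ^ 3 := pow_le_pow_right₀ ha1 (by norm_num)
    have h5 : a ^ 2 * (a / 100) = a ^ 3 / 100 := by ring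
    linarith
  have hEE : ((EE (lf n) (La n) (BB n) : ℕ) : ℝ) ≤ a ^ 498 := by
    unfold EE
    rw [Nat.cast_mul]
    have h1 : (2 : ℝ) ≤ a ^ 6 := by
      calc (2 : ℝ) ≤ a ^ 1 := by rw [pow_one]; linarith
        _ ≤ a ^ 6 := pow_le_pow_right₀ ha1 (by norm_num)
    calc ((lf n / La n : ℕ) : ℝ) * ((BB n + Nat.log 2 (lf n) + 2 : ℕ) : ℝ) ≤ (2 * a ^ 489) * a ^ 3 :=
          mul_le_mul hq hr (by positivity) (by positivity)
      _ = 2 * a ^ 492 := by ring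
      _ ≤ a ^ 6 * a ^ 492 := mul_le_mul_of_nonneg_right h1 (by positivity)
      _ = a ^ 498 := by ring
  rw [Nat.cast_add]
  linarith

/-- The estimate of the exponent. -/
private theorem anLG_real (a l s K L k₁ k₂ s₂ z N e : ℝ) (ha : 200 ≤ a) (hl : l + 1 ≤ a / 100) (hl0 : 0 ≤ l)
    (hN : N = a ^ 512) (hK : K ≤ 2 * a ^ 498) (hK0 : 0 ≤ K) (hL : L ≤ a ^ 6) (hL0 : a ^ 6 ≤ 2 * L)
    (hk1 : 0 ≤ k₁) (hk2 : 0 ≤ k₂) (hs2 : 0 ≤ s₂) (hz : k₁ + s₂ ≤ 2 * z) (hz2 : 2 ≤ z) (he : e ≤ 2 * a ^ 2)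
    (h1 : s ≤ e * (L * k₁ + s₂)) (h2 : L * k₂ ≤ s₂) :
    (s + s * K + s * l + (k₁ + (l + 1) * k₂ * (2 * N)) + 9) * (a / 100) ≤ z * a ^ 508 / 96 := by
  have ha1 : (1 : ℝ) ≤ a := by linarith
  have ha0 : (0 : ℝ) < a := by linarith
  have hp6 : (1 : ℝ) ≤ a ^ 6 := one_le_pow₀ ha1
  have hp498 : a ≤ a ^ 498 := by
    calc a = a ^ 1 := (pow_one a).symm
      _ ≤ a ^ 498 := pow_le_pow_right₀ ha1 (by norm_num)
  have hp506 : a ≤ a ^ 506 := by
    calc a = a ^ 1 := (pow_one a).symm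
      _ ≤ a ^ 506 := pow_le_pow_right₀ ha1 (by norm_num)
  set w := k₁ + s₂ with hw
  have hw0 : 0 ≤ w := by positivity
  have hL1 : 0 ≤ L := by linarith
  -- the part with `s`
  have e1 : L * k₁ + s₂ ≤ a ^ 6 * w := by
    have i1 : L * k₁ ≤ a ^ 6 * k₁ := mul_le_mul_of_nonneg_right hL hk1
    have i2 : 1 * s₂ ≤ a ^ 6 * s₂ := mul_le_mul_of_nonneg_right hp6 hs2
    rw [hw]
    linarith
  have e2 : s ≤ 2 * (a ^ 8 * w) := by
    calc s ≤ e * (L * k₁ + s₂) := h1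
      _ ≤ (2 * a ^ 2) * (a ^ 6 * w) := mul_le_mul he e1 (by positivity) (by positivity)
      _ = 2 * (a ^ 8 * w) := by ring
  have e3 : 1 + K + l ≤ 3 * a ^ 498 := by linarith
  have e4 : s * (1 + K + l) ≤ 6 * a ^ 506 * w := by
    calc s * (1 + K + l) ≤ (2 * (a ^ 8 * w)) * (3 * a ^ 498) :=
          mul_le_mul e2 e3 (by positivity) (by positivity)
      _ = 6 * a ^ 506 * w := by ring
  -- the part with `k₂`
  have e5 : a ^ 6 * k₂ ≤ 2 * s₂ := by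
    have : a ^ 6 * k₂ ≤ 2 * L * k₂ := mul_le_mul_of_nonneg_right hL0 hk2
    linarith
  have e6 : (l + 1) * k₂ * (2 * N) ≤ (a / 100) * (4 * a ^ 506 * w) := by
    have i1 : k₂ * (2 * N) ≤ 4 * a ^ 506 * w := by
      rw [hN]
      calc k₂ * (2 * a ^ 512) = 2 * a ^ 506 * (a ^ 6 * k₂) := by ring
        _ ≤ 2 * a ^ 506 * (2 * s₂) := mul_le_mul_of_nonneg_left e5 (by positivity)
        _ = 4 * a ^ 506 * s₂ := by ring
        _ ≤ 4 * a ^ 506 * w := mul_le_mul_of_nonneg_left (by linarith) (by positivity)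
    calc (l + 1) * k₂ * (2 * N) = (l + 1) * (k₂ * (2 * N)) := by ring
      _ ≤ (a / 100) * (4 * a ^ 506 * w) := by
        refine mul_le_mul hl i1 ?_ (by positivity)
        rw [hN]
        positivity
  have e7 : k₁ + 9 ≤ a ^ 506 * (w + 9) := by
    have i1 : (1 : ℝ) ≤ a ^ 506 := by linarith
    have i2 : 1 * (w + 9) ≤ a ^ 506 * (w + 9) := mul_le_mul_of_nonneg_right i1 (by positivity)
    linarith
  have e8 : s + s * K + s * l + (k₁ + (l + 1) * k₂ * (2 * N)) + 9 ≤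
      6 * a ^ 506 * w + (a / 100) * (4 * a ^ 506 * w) + a ^ 506 * (w + 9) := by
    have : s + s * K + s * l = s * (1 + K + l) := by ring
    linarith
  -- `w ≤ 2 z`, `9 ≤ 5 z`
  have e9 : 6 * a ^ 506 * w + (a / 100) * (4 * a ^ 506 * w) + a ^ 506 * (w + 9) ≤
      (19 + 8 * (a / 100)) * (a ^ 506 * z) := by
    have hA : 0 ≤ a ^ 506 := by positivity
    have i1 : a ^ 506 * w ≤ a ^ 506 * (2 * z) := mul_le_mul_of_nonneg_left hz hA
    have i2 : a ^ 506 * 9 ≤ a ^ 506 * (5 * z) := mul_le_mul_of_nonneg_left (by linarith) hA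
    have i3 : (a / 100) * (4 * (a ^ 506 * w)) ≤ (a / 100) * (4 * (a ^ 506 * (2 * z))) :=
      mul_le_mul_of_nonneg_left (by linarith) (by positivity)
    have j1 : 6 * a ^ 506 * w + (a / 100) * (4 * a ^ 506 * w) + a ^ 506 * (w + 9) =
        7 * (a ^ 506 * w) + (a / 100) * (4 * (a ^ 506 * w)) + a ^ 506 * 9 := by ring
    have j2 : (19 + 8 * (a / 100)) * (a ^ 506 * z) =
        7 * (a ^ 506 * (2 * z)) + (a / 100) * (4 * (a ^ 506 * (2 * z))) + a ^ 506 * (5 * z) := by ring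
    rw [j1, j2]
    linarith
  have e10 : (19 + 8 * (a / 100)) * (a / 100) ≤ a ^ 2 / 96 := by nlinarith
  have hzA : 0 ≤ a ^ 506 * z := by positivity
  calc (s + s * K + s * l + (k₁ + (l + 1) * k₂ * (2 * N)) + 9) * (a / 100)
      ≤ ((19 + 8 * (a / 100)) * (a ^ 506 * z)) * (a / 100) :=
        mul_le_mul_of_nonneg_right (e8.trans e9) (by positivity)
    _ = ((19 + 8 * (a / 100)) * (a / 100)) * (a ^ 506 * z) := by ring
    _ ≤ (a ^ 2 / 96) * (a ^ 506 * z) := mul_le_mul_of_nonneg_right e10 hzA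
    _ = z * a ^ 508 / 96 := by ring

/-- Every term is small. -/
private theorem anLG_term : ∃ n₀ : ℕ, ∀ n : ℕ, n₀ ≤ n → ∀ s k₁ k₂ s₂ : ℕ, sg n < s →
    s ≤ (ell n + 2) * (LG n * k₁ + s₂) → LG n * k₂ ≤ s₂ → k₁ + s₂ ≤ n →
    n ^ s * n ^ (s * (kB n + EE (lf n) (La n) (BB n))) * n ^ (s * Nat.log 2 n) *
      (n ^ k₁ * n ^ ((Nat.log 2 n + 1) * k₂ * (2 * n)) * nTwo (n - s₂ + k₂ - k₁)) * n ^ 9 ≤ nTwo n := by
  obtain ⟨n₁, hn₁⟩ := anLG_size
  obtain ⟨n₂, hn₂⟩ := grow_all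
  refine ⟨max n₁ (max n₂ 1), fun n hn s k₁ k₂ s₂ hs h1 h2 h3 => ?_⟩
  obtain ⟨a, ha, hlog, hl, hN, h127, h249, h3', h12, h1'⟩ := hn₁ n ((le_max_left _ _).trans hn)
  have hn2 : n₂ ≤ n := (le_max_left _ _).trans ((le_max_right _ _).trans hn)
  have hn1 : 1 ≤ n := (le_max_right _ _).trans ((le_max_right _ _).trans hn)
  have hnR : (1 : ℝ) ≤ n := by exact_mod_cast hn1
  have hn0 : (0 : ℝ) < n := by linarith
  have ha1 : (1 : ℝ) ≤ a := by linarith
  have hK := anLG_K n a hn1 ha hl hN h249 h12 h1'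
  set K := kB n + EE (lf n) (La n) (BB n) with hKdef
  -- the size of `ℓ + 2`
  have hell : ((ell n + 2 : ℕ) : ℝ) ≤ 2 * a ^ 2 := by
    have i1 : (ell n : ℝ) ≤ a ^ 2 := by
      unfold ell
      rw [h1']
      exact Nat.floor_le (by positivity)
    have i2 : (2 : ℝ) ≤ a ^ 2 := by
      calc (2 : ℝ) ≤ a ^ 1 := by rw [pow_one]; linarith
        _ ≤ a ^ 2 := pow_le_pow_right₀ ha1 (by norm_num)
    push_cast
    linarith
  set e := ell n + 2 with hedef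
  -- the size of `L`
  have hL : (LG n : ℝ) ≤ a ^ 6 := by
    unfold LG
    rw [h3']
    exact Nat.floor_le (by positivity)
  have hp6 : (200 : ℝ) ≤ a ^ 6 := by
    calc (200 : ℝ) ≤ a ^ 1 := by rw [pow_one]; exact ha
      _ ≤ a ^ 6 := pow_le_pow_right₀ ha1 (by norm_num)
  have hL0 : a ^ 6 ≤ 2 * (LG n : ℝ) := by
    have : a ^ 6 < (LG n : ℝ) + 1 := by
      unfold LG
      rw [h3']
      exact Nat.lt_floor_add_one _
    linarith
  have hL2 : 2 ≤ LG n := by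
    have : (2 : ℝ) ≤ LG n := by linarith
    exact_mod_cast this
  -- `sg n` is at least `2 (ℓ + 2) L`
  have hsg : 2 * (e * LG n) ≤ sg n := by
    unfold sg
    rw [Nat.le_sqrt, Nat.le_sqrt]
    have : ((2 * (e * LG n) * (2 * (e * LG n)) * (2 * (e * LG n) * (2 * (e * LG n))) : ℕ) : ℝ) ≤ (n : ℝ) := by
      have j1 : ((2 * (e * LG n) : ℕ) : ℝ) ≤ 4 * a ^ 8 := by
        push_cast
        have : (e : ℝ) * (LG n : ℝ) ≤ (2 * a ^ 2) * a ^ 6 := mul_le_mul hell hL (by positivity) (by positivity)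
        calc 2 * ((e : ℝ) * (LG n : ℝ)) ≤ 2 * ((2 * a ^ 2) * a ^ 6) := by linarith
          _ = 4 * a ^ 8 := by ring
      have i1 : ((2 * (e * LG n) : ℕ) : ℝ) ^ 4 ≤ (4 * a ^ 8) ^ 4 := pow_le_pow_left₀ (by positivity) j1 4
      have i2 : (256 : ℝ) ≤ a ^ 480 := by
        calc (256 : ℝ) ≤ (200 : ℝ) ^ 2 := by norm_num
          _ ≤ a ^ 2 := pow_le_pow_left₀ (by norm_num) ha 2
          _ ≤ a ^ 480 := pow_le_pow_right₀ ha1 (by norm_num)
      calc ((2 * (e * LG n) * (2 * (e * LG n)) * (2 * (e * LG n) * (2 * (e * LG n))) : ℕ) : ℝ)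
          = ((2 * (e * LG n) : ℕ) : ℝ) ^ 4 := by push_cast; ring
        _ ≤ (4 * a ^ 8) ^ 4 := i1
        _ = 256 * a ^ 32 := by ring
        _ ≤ a ^ 480 * a ^ 32 := mul_le_mul_of_nonneg_right i2 (by positivity)
        _ = a ^ 512 := by ring
        _ = n := hN
    exact_mod_cast this
  -- `z`
  have hk2s : 2 * k₂ ≤ s₂ := (Nat.mul_le_mul_right k₂ hL2).trans h2
  obtain ⟨z, hz⟩ : ∃ z, z = s₂ - k₂ + k₁ := ⟨_, rfl⟩
  have hzw : k₁ + s₂ ≤ 2 * z := by omega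
  have hzn : z ≤ n := by omega
  have hw3 : 3 ≤ k₁ + s₂ := by
    by_contra hcon
    have i1 : k₁ + s₂ ≤ 2 := by omega
    have i2 : LG n * k₁ + s₂ ≤ LG n * (k₁ + s₂) := by
      have : 1 * s₂ ≤ LG n * s₂ := Nat.mul_le_mul_right _ (by omega)
      rw [Nat.mul_add]
      omega
    have i3 : LG n * (k₁ + s₂) ≤ LG n * 2 := Nat.mul_le_mul_left _ i1
    have i4 : e * (LG n * k₁ + s₂) ≤ e * (LG n * 2) := Nat.mul_le_mul_left _ (i2.trans i3)
    have i5 : e * (LG n * 2) = 2 * (e * LG n) := by ring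
    omega
  have hz2 : 2 ≤ z := by omega
  have hsub : n - s₂ + k₂ - k₁ = n - z := by omega
  have hgrow := hn₂ n hn2 z hz2 hzn
  rw [h127] at hgrow
  -- the exponent
  set E := s + s * K + s * Nat.log 2 n + (k₁ + (Nat.log 2 n + 1) * k₂ * (2 * n)) + 9 with hE
  have hEr : (E : ℝ) * (a / 100) ≤ z * a ^ 508 / 96 := by
    have := anLG_real a (Nat.log 2 n) s K (LG n) k₁ k₂ s₂ z n e ha hl (by positivity) hN.symm hK
      (by positivity) hL hL0 (by positivity) (by positivity) (by positivity)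
      (by exact_mod_cast hzw) (by exact_mod_cast hz2) hell (by exact_mod_cast h1)
      (by exact_mod_cast h2)
    rw [hE]
    push_cast
    exact this
  have hpow : (n : ℝ) ^ E ≤ Real.exp (z * a ^ 508 / 96) := by
    have i1 : (n : ℝ) ^ E = Real.exp (E * Real.log n) := by
      rw [Real.exp_nat_mul, Real.exp_log hn0]
    rw [i1]
    refine Real.exp_le_exp.2 ?_
    exact (mul_le_mul_of_nonneg_left hlog (by positivity)).trans hEr
  have hmain : (nTwo (n - z) : ℝ) * (n : ℝ) ^ E ≤ nTwo n :=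
    (mul_le_mul_of_nonneg_left hpow (by positivity)).trans hgrow
  have hnat : nTwo (n - z) * n ^ E ≤ nTwo n := by exact_mod_cast hmain
  rw [hsub]
  refine le_trans (le_of_eq ?_) hnat
  rw [hE, pow_add, pow_add, pow_add, pow_add, pow_add]
  ring

theorem an_LG : Tendsto (fun n : ℕ => ((∑ s ∈ Finset.Ioc (sg n) n,
    n ^ s * n ^ (s * (kB n + EE (lf n) (La n) (BB n))) * n ^ (s * Nat.log 2 n) * LBG n (LG n) (ell n + 2) s : ℕ) : ℝ) /
    nTwo n) atTop (𝓝 0) := by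
  obtain ⟨n₀, hn₀⟩ := anLG_term
  have hup : Tendsto (fun n : ℕ => (1 : ℝ) / (n : ℝ)) atTop (𝓝 0) :=
    tendsto_one_div_atTop_nhds_zero_nat
  refine tendsto_of_tendsto_of_tendsto_of_le_of_le' tendsto_const_nhds hup
    (Filter.Eventually.of_forall fun n => by positivity) ?_
  filter_upwards [eventually_ge_atTop (max n₀ 2)] with n hn
  have hn1 : n₀ ≤ n := (le_max_left _ _).trans hn
  have hn2 : 2 ≤ n := (le_max_right _ _).trans hn
  -- the bound for the sum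
  have hbound : (∑ s ∈ Finset.Ioc (sg n) n, n ^ s * n ^ (s * (kB n + EE (lf n) (La n) (BB n))) *
      n ^ (s * Nat.log 2 n) * LBG n (LG n) (ell n + 2) s) * n ^ 9 ≤ n ^ 8 * nTwo n := by
    have h1 : ∀ s ∈ Finset.Ioc (sg n) n, n ^ s * n ^ (s * (kB n + EE (lf n) (La n) (BB n))) *
        n ^ (s * Nat.log 2 n) * LBG n (LG n) (ell n + 2) s * n ^ 9 ≤ (n + 1) ^ 3 * nTwo n := by
      intro s hs
      obtain ⟨hs1, hs2⟩ := Finset.mem_Ioc.1 hs
      unfold LBG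
      rw [Finset.mul_sum, Finset.sum_mul]
      refine (Finset.sum_le_card_nsmul _ _ (nTwo n) ?_).trans ?_
      · intro t ht
        obtain ⟨-, h2, h3, h4⟩ := Finset.mem_filter.1 ht
        exact hn₀ n hn1 s t.1 t.2.1 t.2.2 hs1 h2 h3 h4
      · rw [smul_eq_mul]
        refine Nat.mul_le_mul_right _ ?_
        refine (Finset.card_filter_le _ _).trans ?_
        rw [Finset.card_product, Finset.card_product, Finset.card_range]
        exact le_of_eq (by ring)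
    rw [Finset.sum_mul]
    refine (Finset.sum_le_card_nsmul _ _ _ h1).trans ?_
    rw [smul_eq_mul, ← mul_assoc]
    refine Nat.mul_le_mul_right _ ?_
    have h2 : (Finset.Ioc (sg n) n).card ≤ n := by
      rw [Nat.card_Ioc]
      omega
    have h3 : n + 1 ≤ n ^ 2 := by nlinarith
    calc (Finset.Ioc (sg n) n).card * (n + 1) ^ 3 ≤ n * (n ^ 2) ^ 3 :=
          Nat.mul_le_mul h2 (Nat.pow_le_pow_left h3 3)
      _ = n ^ 7 := by ring
      _ ≤ n ^ 8 := Nat.pow_le_pow_right (by omega) (by norm_num)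
  set S := ∑ s ∈ Finset.Ioc (sg n) n, n ^ s * n ^ (s * (kB n + EE (lf n) (La n) (BB n))) *
    n ^ (s * Nat.log 2 n) * LBG n (LG n) (ell n + 2) s with hS
  have hS1 : S * n ≤ nTwo n := by
    have h1 : n ^ 8 * (S * n) ≤ n ^ 8 * nTwo n := by
      calc n ^ 8 * (S * n) = S * n ^ 9 := by ring
        _ ≤ n ^ 8 * nTwo n := hbound
    exact Nat.le_of_mul_le_mul_left h1 (by positivity)
  have hT : (0 : ℝ) ≤ nTwo n := by positivity
  have hnR : (0 : ℝ) < n := by exact_mod_cast (by omega : 0 < n)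
  have hS2 : (S : ℝ) * n ≤ nTwo n := by exact_mod_cast hS1
  refine div_le_of_le_mul₀ hT (by positivity) ?_
  rw [div_mul_eq_mul_div, one_mul, le_div_iff₀ hnR]
  exact hS2

end Pool.Agent.GcS
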