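import Pool.Agent.GcS.Defs

/-!
MP_7fa120_al, class `Gc`. The parameters satisfy `Par` for large `n`.

Proof. `lf n = Nat.log 2 (n !) ≤ n (log_2 n + 1)`. For large `n`: `kA n ≥ n ^ (246/256) / 2`, `La n ≤ n ^ (12/256)`, so `La ^ 4 + La ^ 2 + Nat.log 2 (lf n) + 8 ≤ 3 n ^ (48/256) ≤ kA n`;
`be n ≤ n ^ (32/256)`, `2 (be + 2) ^ 2 + 8 ≤ 20 n ^ (64/256) ≤ kA n`; `gg n = (kA n - 2) * be n ≤ n ^ (278/256) ≤ n ^ (492/256) / 400 ≤ (kA n / 4) * (kA n / 4)`.
-/

set_option autoImplicit false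

namespace Pool.Agent.GcS

open Pool.Agent.SvS Filter Topology

private theorem pa_pow (n j : ℕ) (a : ℝ) (ha : a = j / 256) :
    (n : ℝ) ^ a = ((n : ℝ) ^ (1 / 256 : ℝ)) ^ j := by
  rw [← Real.rpow_natCast, ← Real.rpow_mul (Nat.cast_nonneg _), ha]
  congr 1
  ring

private theorem pa_lf (n : ℕ) : lf n ≤ n * n := by
  unfold lf
  have h1 : n.factorial ≤ 2 ^ (n * n) := by
    refine (Nat.factorial_le_pow n).trans ?_
    rw [pow_mul]
    exact Nat.pow_le_pow_left Nat.lt_two_pow_self.le n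
  exact (Nat.log_mono_right h1).trans (le_of_eq (Nat.log_pow (by norm_num) _))

private theorem pa_log {n : ℕ} (hn : 1 ≤ n) {x : ℝ} (hx : x = (n : ℝ) ^ (1 / 256 : ℝ))
    (hx2 : 2 ≤ x) : ((Nat.log 2 (lf n) : ℕ) : ℝ) ≤ x ^ 48 := by
  have hn0 : (0 : ℝ) < n := by exact_mod_cast hn
  set L := Nat.log 2 (n * n) with hL
  have h1 : Nat.log 2 (lf n) ≤ L := Nat.log_mono_right (pa_lf n)
  have h2 : 2 ^ L ≤ n * n := Nat.pow_log_le_self 2 (by positivity)
  have h3 : (2 : ℝ) ^ L ≤ (n : ℝ) * n := by exact_mod_cast h2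
  have h4 : (L : ℝ) * Real.log 2 ≤ 2 * Real.log n := by
    have h5 := Real.log_le_log (by positivity) h3
    rw [Real.log_pow, Real.log_mul hn0.ne' hn0.ne'] at h5
    linarith
  have h6 : Real.log x = 1 / 256 * Real.log n := by
    rw [hx, Real.log_rpow hn0]
  have h7 : Real.log x ≤ x := (Real.log_le_sub_one_of_pos (by linarith)).trans (by linarith)
  have h8 : (L : ℝ) * (1 / 2) ≤ 512 * x := by
    have h9 : (1 / 2 : ℝ) ≤ Real.log 2 := by
      have := Real.log_two_gt_d9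
      linarith
    have h10 : (L : ℝ) * (1 / 2) ≤ (L : ℝ) * Real.log 2 :=
      mul_le_mul_of_nonneg_left h9 (Nat.cast_nonneg _)
    linarith
  have h11 : (1024 : ℝ) * x ≤ x ^ 48 := by
    have h12 : (2 : ℝ) ^ 10 ≤ x ^ 10 := pow_le_pow_left₀ (by norm_num) hx2 10
    calc (1024 : ℝ) * x ≤ x ^ 10 * x := by
          refine mul_le_mul_of_nonneg_right ?_ (by linarith)
          linarith
      _ = x ^ 11 := by ring
      _ ≤ x ^ 48 := pow_le_pow_right₀ (by linarith) (by norm_num)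
  have h13 : ((Nat.log 2 (lf n) : ℕ) : ℝ) ≤ (L : ℝ) := by exact_mod_cast h1
  linarith

private theorem pa_sq {k β : ℕ} (h : 64 * β ≤ k) (hk : 4 ≤ k) :
    (k - 2) * β ≤ (k / 4) * (k / 4) := by
  set m := k / 4 with hm
  have h1 : 1 ≤ m := by omega
  have h2 : k ≤ 4 * m + 3 := by omega
  have h3 : (k - 2) * (64 * β) ≤ (4 * m + 1) * (4 * m + 3) :=
    Nat.mul_le_mul (by omega) (h.trans h2)
  nlinarith

theorem par_ev : ∀ᶠ n : ℕ in atTop, Par (lf n) (kA n) (La n) (be n) (gg n) ∧ kA n ≤ kB n ∧ 1 ≤ LG n ∧ 1 ≤ ell n ∧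
    sg n ≤ n ∧ 1 ≤ kB n / 2 := by
  have h0 : ∀ᶠ n : ℕ in atTop, (2 : ℝ) ≤ (n : ℝ) ^ (1 / 256 : ℝ) :=
    ((tendsto_rpow_atTop (by norm_num : (0 : ℝ) < 1 / 256)).comp
      tendsto_natCast_atTop_atTop).eventually (eventually_ge_atTop 2)
  filter_upwards [h0, eventually_ge_atTop 1] with n hn2 hn
  obtain ⟨x, hx⟩ : ∃ x, x = (n : ℝ) ^ (1 / 256 : ℝ) := ⟨_, rfl⟩
  rw [← hx] at hn2
  have hx1 : (1 : ℝ) ≤ x := by linarith
  have hp : ∀ j : ℕ, (1 : ℝ) ≤ x ^ j := fun j => one_le_pow₀ hx1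
  have hmul : ∀ i j : ℕ, (2 : ℝ) ^ i * x ^ j ≤ x ^ (i + j) := fun i j => by
    rw [pow_add]
    exact mul_le_mul_of_nonneg_right (pow_le_pow_left₀ (by norm_num) hn2 i) (by linarith [hp j])
  have hup : ∀ i j : ℕ, i ≤ j → x ^ i ≤ x ^ j := fun i j h => pow_le_pow_right₀ hx1 h
  have ekA : kA n = ⌊x ^ 246⌋₊ := by
    unfold kA
    rw [pa_pow n 246 _ (by norm_num), ← hx]
  have ekB : kB n = ⌊x ^ 249⌋₊ := by
    unfold kB
    rw [pa_pow n 249 _ (by norm_num), ← hx]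
  have eLa : La n = ⌊x ^ 12⌋₊ := by
    unfold La
    rw [pa_pow n 12 _ (by norm_num), ← hx]
  have ebe : be n = ⌊x ^ 32⌋₊ := by
    unfold be
    rw [pa_pow n 32 _ (by norm_num), ← hx]
  have eLG : LG n = ⌊x ^ 3⌋₊ := by
    unfold LG
    rw [pa_pow n 3 _ (by norm_num), ← hx]
  have eell : ell n = ⌊x⌋₊ := by
    unfold ell
    rw [← hx]
  have hLa : (La n : ℝ) ≤ x ^ 12 := by
    rw [eLa]
    exact Nat.floor_le (by linarith [hp 12])
  have hbe : (be n : ℝ) ≤ x ^ 32 := by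
    rw [ebe]
    exact Nat.floor_le (by linarith [hp 32])
  have hlog := pa_log hn hx hn2
  have h64 : 64 * be n ≤ kA n := by
    rw [ekA]
    apply Nat.le_floor
    push_cast
    have h1 := hmul 6 32
    have h2 := hup 38 246 (by norm_num)
    norm_num at h1
    linarith
  have hkA4 : 4 ≤ kA n := by
    rw [ekA]
    apply Nat.le_floor
    have h1 := hmul 2 0
    have h2 := hup 2 246 (by norm_num)
    norm_num at h1
    push_cast
    linarith
  refine ⟨⟨?_, ?_, ?_, le_rfl, pa_sq h64 hkA4⟩, ?_, ?_, ?_, ?_, ?_⟩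
  · rw [eLa]
    exact Nat.le_floor (by exact_mod_cast hp 12)
  · rw [ekA]
    apply Nat.le_floor
    push_cast
    have h1 : (La n : ℝ) ^ 4 ≤ x ^ 48 := by
      calc (La n : ℝ) ^ 4 ≤ (x ^ 12) ^ 4 := pow_le_pow_left₀ (Nat.cast_nonneg _) hLa 4
        _ = x ^ 48 := by ring
    have h2 : (La n : ℝ) ^ 2 ≤ x ^ 48 := by
      calc (La n : ℝ) ^ 2 ≤ (x ^ 12) ^ 2 := pow_le_pow_left₀ (Nat.cast_nonneg _) hLa 2
        _ = x ^ 24 := by ring
        _ ≤ x ^ 48 := hup 24 48 (by norm_num)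
    have h3 := hmul 3 0
    have h4 := hup 3 48 (by norm_num)
    have h5 := hmul 2 48
    have h6 := hup 50 246 (by norm_num)
    norm_num at h3 h5
    linarith
  · rw [ekA]
    apply Nat.le_floor
    push_cast
    have h1 : (be n : ℝ) + 2 ≤ 2 * x ^ 32 := by
      have h2 := hmul 1 0
      have h3 := hup 1 32 (by norm_num)
      norm_num at h2 h3
      linarith
    have h2 : ((be n : ℝ) + 2) ^ 2 ≤ 4 * x ^ 64 := by
      calc ((be n : ℝ) + 2) ^ 2 ≤ (2 * x ^ 32) ^ 2 := pow_le_pow_left₀ (by positivity) h1 2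
        _ = 4 * x ^ 64 := by ring
    have h3 := hmul 4 64
    have h4 := hup 68 246 (by norm_num)
    have h5 := hp 64
    norm_num at h3
    linarith
  · rw [ekA, ekB]
    exact Nat.floor_le_floor (hup 246 249 (by norm_num))
  · rw [eLG]
    exact Nat.le_floor (by exact_mod_cast hp 3)
  · rw [eell]
    exact Nat.le_floor (by exact_mod_cast hx1)
  · unfold sg
    exact (Nat.sqrt_le_self _).trans (Nat.sqrt_le_self _)
  · have h1 : 2 ≤ kB n := by
      rw [ekB]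
      apply Nat.le_floor
      have h2 := hup 1 249 (by norm_num)
      rw [pow_one] at h2
      push_cast
      linarith
    omega

end Pool.Agent.GcS
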