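import Pool.Agent.GcS.Defs

/-!
MP_7fa120_al, class `Gc`. Real analysis: the relative counting. Compare `SvS/AnM.lean` (proved there).

Proof. Write `u = 1/256`. Let `n` be large, `b = lf n = Nat.log 2 (n !) ≤ n (log_2 n + 1)`, `k = kA n` (`n ^ (246u) / 2 ≤ k ≤ n ^ (246u)`). `jg b k = (b / (k / 2) + 1) ^ 2` is at most
`(C n ^ (10u) (log_2 n + 1)) ^ 2` and `tg b k + 1 = b / (k / 2 - 1) + 1 ≤ n ^ (11u)`, so the logarithm of the numerator is at most `n ^ (277u)`, and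
`gg n = (k - 2) * be n ≥ n ^ (246u) / 4 * n ^ (32u) / 2 = n ^ (278u) / 8`.
-/

set_option autoImplicit false

namespace Pool.Agent.GcS

open Pool.Agent.SvS Filter Topology

private theorem anRG_ev_log (a : ℝ) (ha : 0 < a) :
    ∀ᶠ n : ℕ in atTop, Real.log (n : ℝ) ≤ (n : ℝ) ^ a := by
  have h1 := (isLittleO_log_rpow_atTop ha).bound (c := 1) one_pos
  have h2 := tendsto_natCast_atTop_atTop (R := ℝ) |>.eventually h1
  filter_upwards [h2] with n hn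
  rw [one_mul, Real.norm_eq_abs, Real.norm_eq_abs] at hn
  calc Real.log n ≤ |Real.log n| := le_abs_self _
    _ ≤ |(n : ℝ) ^ a| := hn
    _ = (n : ℝ) ^ a := abs_of_nonneg (by positivity)

private theorem anRG_ev_pow (a C : ℝ) (ha : 0 < a) :
    ∀ᶠ n : ℕ in atTop, C ≤ (n : ℝ) ^ a :=
  ((tendsto_rpow_atTop ha).comp tendsto_natCast_atTop_atTop).eventually_ge_atTop C

private theorem anRG_hlog2 : (1 : ℝ) / 2 ≤ Real.log 2 := by
  have := Real.log_two_gt_d9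
  linarith

/-- `log_2 (n !) ≤ 2 n log n` -/
private theorem anRG_b {n : ℕ} (hn : 1 ≤ n) :
    ((lf n : ℕ) : ℝ) ≤ 2 * ((n : ℝ) * Real.log n) := by
  have hn0 : (0 : ℝ) < n := by exact_mod_cast hn
  unfold lf
  have h1 : 2 ^ (Nat.log 2 n.factorial) ≤ n ^ n :=
    (Nat.pow_log_le_self 2 (Nat.factorial_ne_zero n)).trans (Nat.factorial_le_pow n)
  have h2 : (2 : ℝ) ^ (Nat.log 2 n.factorial) ≤ (n : ℝ) ^ n := by exact_mod_cast h1
  have h3 := Real.log_le_log (by positivity) h2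
  rw [Real.log_pow, Real.log_pow] at h3
  have h4 : (0 : ℝ) ≤ (Nat.log 2 n.factorial : ℕ) := Nat.cast_nonneg _
  nlinarith [anRG_hlog2]

private theorem anRG_div {b m : ℕ} {B c t : ℝ} (hb : (b : ℝ) ≤ B) (hm : c ≤ m) (hc : 0 < c)
    (h : B ≤ t * c) (ht : 0 ≤ t) : ((b / m : ℕ) : ℝ) ≤ t := by
  have hm0 : (0 : ℝ) < m := lt_of_lt_of_le hc hm
  have h1 : ((b / m : ℕ) : ℝ) ≤ (b : ℝ) / m := Nat.cast_div_le
  refine h1.trans ?_
  rw [div_le_iff₀ hm0]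
  nlinarith [mul_le_mul_of_nonneg_left hm ht]

private theorem anRG_main {n : ℕ} (hn : 1 ≤ n) {t : ℝ} (ht : 8 ≤ t) (htn : t ^ 1024 = n)
    (hlog : Real.log n ≤ t) (hk : (kA n : ℝ) > t ^ 984 - 1) (hbe : (be n : ℝ) > t ^ 128 - 1) :
    (n.factorial : ℝ) ^ (jg (lf n) (kA n) + tg (lf n) (kA n) + 1) / 2 ^ gg n ≤
      Real.exp (-(n : ℝ)) := by
  have hn0 : (0 : ℝ) < n := by exact_mod_cast hn
  have hn1 : (1 : ℝ) ≤ n := by exact_mod_cast hn
  have ht1 : (1 : ℝ) ≤ t := by linarith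
  have ht0 : (0 : ℝ) < t := by linarith
  have hlog0 : 0 ≤ Real.log n := Real.log_nonneg hn1
  have hT8 : (8 : ℝ) ≤ t ^ 984 := ht.trans (le_self_pow₀ ht1 (by norm_num))
  have hS8 : (8 : ℝ) ≤ t ^ 128 := ht.trans (le_self_pow₀ ht1 (by norm_num))
  have hnl : (n : ℝ) * Real.log n ≤ t ^ 1025 := by
    rw [← htn] at *
    calc t ^ 1024 * Real.log (t ^ 1024) ≤ t ^ 1024 * t :=
          mul_le_mul_of_nonneg_left hlog (by positivity)
      _ = t ^ 1025 := (pow_succ t 1024).symm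
  have hb : (lf n : ℝ) ≤ 2 * t ^ 1025 := (anRG_b hn).trans (by linarith)
  have e1 : t ^ 1025 = t ^ 41 * t ^ 984 := by rw [← pow_add]
  have hk2 : t ^ 984 / 4 ≤ ((kA n / 2 - 1 : ℕ) : ℝ) := by
    have h1 : (kA n : ℝ) ≤ 2 * ((kA n / 2 - 1 : ℕ) : ℝ) + 3 := by
      have : kA n ≤ 2 * (kA n / 2 - 1) + 3 := by omega
      exact_mod_cast this
    linarith
  have hk1 : t ^ 984 / 4 ≤ ((kA n / 2 : ℕ) : ℝ) := by
    have h1 : ((kA n / 2 - 1 : ℕ) : ℝ) ≤ ((kA n / 2 : ℕ) : ℝ) := by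
      exact_mod_cast Nat.sub_le _ _
    linarith
  have hk3 : t ^ 984 / 2 ≤ ((kA n - 2 : ℕ) : ℝ) := by
    have h1 : (kA n : ℝ) ≤ ((kA n - 2 : ℕ) : ℝ) + 2 := by
      have : kA n ≤ (kA n - 2) + 2 := by omega
      exact_mod_cast this
    linarith
  have hbe2 : t ^ 128 / 2 ≤ (be n : ℝ) := by linarith
  have hc0 : (0 : ℝ) < t ^ 984 / 4 := by positivity
  have hBc : 2 * t ^ 1025 ≤ (8 * t ^ 41) * (t ^ 984 / 4) := by
    rw [e1]
    linarith
  have h41 : (1 : ℝ) ≤ t ^ 41 := one_le_pow₀ ht1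
  have h4182 : t ^ 41 ≤ t ^ 82 := pow_le_pow_right₀ ht1 (by norm_num)
  have hd1 : ((lf n / (kA n / 2) : ℕ) : ℝ) ≤ 8 * t ^ 41 := anRG_div hb hk1 hc0 hBc (by positivity)
  have hd2 : ((lf n / (kA n / 2 - 1) : ℕ) : ℝ) ≤ 8 * t ^ 41 :=
    anRG_div hb hk2 hc0 hBc (by positivity)
  have hja : (jg (lf n) (kA n) : ℝ) ≤ 81 * t ^ 82 := by
    unfold jg
    push_cast
    have h1 : (0 : ℝ) ≤ ((lf n / (kA n / 2) : ℕ) : ℝ) + 1 := by positivity
    have h2 : ((lf n / (kA n / 2) : ℕ) : ℝ) + 1 ≤ 9 * t ^ 41 := by linarith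
    calc (((lf n / (kA n / 2) : ℕ) : ℝ) + 1) ^ 2 ≤ (9 * t ^ 41) ^ 2 := pow_le_pow_left₀ h1 h2 2
      _ = 81 * t ^ 82 := by rw [mul_pow, ← pow_mul]; norm_num
  have hta : (tg (lf n) (kA n) : ℝ) + 1 ≤ 9 * t ^ 82 := by
    unfold tg
    linarith
  have hE1' : ((jg (lf n) (kA n) + tg (lf n) (kA n) + 1 : ℕ) : ℝ) ≤ 90 * t ^ 82 := by
    push_cast
    linarith
  generalize jg (lf n) (kA n) + tg (lf n) (kA n) + 1 = E1 at hE1' ⊢
  have hE2 : t ^ 1112 / 4 ≤ ((gg n : ℕ) : ℝ) := by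
    have h8 : ((gg n : ℕ) : ℝ) = ((kA n - 2 : ℕ) : ℝ) * (be n : ℝ) := by
      unfold gg
      rw [Nat.cast_mul]
    rw [h8]
    calc t ^ 1112 / 4 = t ^ 984 / 2 * (t ^ 128 / 2) := by
          rw [div_mul_div_comm, ← pow_add]
          norm_num
      _ ≤ ((kA n - 2 : ℕ) : ℝ) * (be n : ℝ) :=
          mul_le_mul hk3 hbe2 (by positivity) (Nat.cast_nonneg _)
  generalize gg n = E at hE2 ⊢
  have hmain : (E1 : ℝ) * ((n : ℝ) * Real.log n) + n ≤ E * Real.log 2 := by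
    have h1 : (E1 : ℝ) * ((n : ℝ) * Real.log n) ≤ 90 * t ^ 82 * t ^ 1025 :=
      mul_le_mul hE1' hnl (by positivity) (by positivity)
    have h2 : (n : ℝ) ≤ t ^ 1107 := by
      rw [← htn]
      exact pow_le_pow_right₀ ht1 (by norm_num)
    have h3 : t ^ 1112 / 4 * (1 / 2) ≤ (E : ℝ) * Real.log 2 :=
      mul_le_mul hE2 anRG_hlog2 (by norm_num) (Nat.cast_nonneg _)
    have h4 : (728 : ℝ) ≤ t ^ 5 := by
      calc (728 : ℝ) ≤ 8 ^ 5 := by norm_num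
        _ ≤ t ^ 5 := pow_le_pow_left₀ (by norm_num) ht 5
    have h5 : t ^ 1107 * 728 ≤ t ^ 1107 * t ^ 5 := mul_le_mul_of_nonneg_left h4 (by positivity)
    have h6 : t ^ 1107 * t ^ 5 = t ^ 1112 := by rw [← pow_add]
    have h7 : 90 * t ^ 82 * t ^ 1025 = 90 * t ^ 1107 := by rw [mul_assoc, ← pow_add]
    rw [h7] at h1
    rw [h6] at h5
    linarith
  have hfac : (n.factorial : ℝ) ^ E1 ≤ Real.exp ((E1 : ℝ) * ((n : ℝ) * Real.log n)) := by
    have h5 : (n.factorial : ℝ) ≤ (n : ℝ) ^ n := by exact_mod_cast Nat.factorial_le_pow n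
    have h6 : (n : ℝ) ^ n = Real.exp ((n : ℝ) * Real.log n) := by
      rw [← Real.rpow_natCast, Real.rpow_def_of_pos hn0]
      congr 1
      ring
    calc (n.factorial : ℝ) ^ E1 ≤ (Real.exp ((n : ℝ) * Real.log n)) ^ E1 :=
          pow_le_pow_left₀ (by positivity) (h5.trans h6.le) _
      _ = _ := by
        rw [← Real.exp_nat_mul]
  have h2E : (2 : ℝ) ^ E = Real.exp (E * Real.log 2) := by
    rw [mul_comm, ← Real.rpow_def_of_pos two_pos, Real.rpow_natCast]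
  rw [h2E, div_le_iff₀ (Real.exp_pos _), ← Real.exp_add]
  refine hfac.trans (Real.exp_le_exp.2 ?_)
  linarith

theorem an_RG : Tendsto (fun n : ℕ => (n.factorial : ℝ) ^ (jg (lf n) (kA n) + tg (lf n) (kA n) + 1) / 2 ^ gg n) atTop
    (𝓝 0) := by
  have hexp : Tendsto (fun n : ℕ => Real.exp (-(n : ℝ))) atTop (nhds 0) :=
    Real.tendsto_exp_neg_atTop_nhds_zero.comp tendsto_natCast_atTop_atTop
  refine squeeze_zero' (Eventually.of_forall fun n => by positivity) ?_ hexp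
  filter_upwards [anRG_ev_log (1 / 1024) (by norm_num), anRG_ev_pow (1 / 1024) 8 (by norm_num),
    eventually_ge_atTop 1] with n h1 h2 h4
  have hn0 : (0 : ℝ) < n := by exact_mod_cast h4
  refine anRG_main h4 h2 ?_ h1 ?_ ?_
  · rw [← Real.rpow_natCast, ← Real.rpow_mul hn0.le]
    norm_num
  · have h5 : ((n : ℝ) ^ (1 / 1024 : ℝ)) ^ 984 = (n : ℝ) ^ (246 / 256 : ℝ) := by
      rw [← Real.rpow_natCast, ← Real.rpow_mul hn0.le]
      norm_num
    rw [h5]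
    have := Nat.lt_floor_add_one ((n : ℝ) ^ (246 / 256 : ℝ))
    unfold kA
    linarith
  · have h5 : ((n : ℝ) ^ (1 / 1024 : ℝ)) ^ 128 = (n : ℝ) ^ (1 / 8 : ℝ) := by
      rw [← Real.rpow_natCast, ← Real.rpow_mul hn0.le]
      norm_num
    rw [h5]
    have := Nat.lt_floor_add_one ((n : ℝ) ^ (1 / 8 : ℝ))
    unfold be
    linarith

end Pool.Agent.GcS
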