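import Pool.Agent.SvS.CntL
import Pool.Agent.GcS.Defs

/-!
MP_7fa120_al, class `Gc`. The groups generated by `D` and few elements of `oddGen H`.

This is `Pool.Agent.SvS.cnt_L` (`SvS/CntL.lean`, proved there; copy it) with the factor `ℓ` instead of `2` in `(mv (oddGen H)).card ≤ ℓ * (mv U).card` and in `LBG`.
-/

set_option autoImplicit false

namespace Pool.Agent.GcS

open Equiv Pool.Agent.NilS Pool.Agent.BdO Pool.Agent.SvS

/-- The number of sets with `s` elements. -/
private theorem set_count (n s : ℕ) : Nat.card {B : Finset (Fin n) // B.card = s} ≤ n ^ s := by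
  have h1 : Nat.card {B : Finset (Fin n) // B.card = s} ≤ Nat.card (Fin s → Fin n) := by
    refine Nat.card_le_card_of_injective
      (fun B : {B : Finset (Fin n) // B.card = s} => fun i : Fin s => B.1.orderEmbOfFin B.2 i) ?_
    intro B₁ B₂ h
    apply Subtype.ext
    have h2 : Set.range (B₁.1.orderEmbOfFin B₁.2) = Set.range (B₂.1.orderEmbOfFin B₂.2) := by
      have h3 : (fun i : Fin s => B₁.1.orderEmbOfFin B₁.2 i) = fun i : Fin s => B₂.1.orderEmbOfFin B₂.2 i := h
      exact congrArg Set.range h3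
    rw [Finset.range_orderEmbOfFin, Finset.range_orderEmbOfFin] at h2
    exact Finset.coe_injective h2
  refine h1.trans (le_of_eq ?_)
  rw [Nat.card_fun, Nat.card_eq_fintype_card, Nat.card_eq_fintype_card, Fintype.card_fin, Fintype.card_fin]

/-- For a sigma type the cardinality is at most the number of base points times a bound for the fibres. -/
private theorem card_sigma_le {α : Type} [Finite α] (β : α → Type) [∀ a, Finite (β a)] (m c : ℕ)
    (h1 : Nat.card α ≤ m) (h2 : ∀ a, Nat.card (β a) ≤ c) : Nat.card (Σ a, β a) ≤ m * c := by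
  have : Fintype α := Fintype.ofFinite α
  rw [Nat.card_sigma]
  calc ∑ a, Nat.card (β a) ≤ ∑ _a : α, c := Finset.sum_le_sum fun a _ => h2 a
    _ = Nat.card α * c := by rw [Finset.sum_const, smul_eq_mul, Finset.card_univ, Nat.card_eq_fintype_card]
    _ ≤ m * c := Nat.mul_le_mul_right c h1

/-- The number of permutations moving only points of `B`. -/
private theorem perm_count {n : ℕ} (B : Finset (Fin n)) :
    Nat.card {σ : Perm (Fin n) // ∀ x, ¬ x ∈ B → σ x = x} = B.card.factorial := by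
  classical
  rw [← Nat.card_congr (Equiv.Perm.subtypeEquivSubtypePerm (fun x : Fin n => x ∈ B)),
    Nat.card_eq_fintype_card, Fintype.card_perm, Fintype.card_coe]

/-- At most `k` elements of a subgroup generate the same subgroup as the values of some map on `Fin k`. -/
private theorem code_fin {G : Type} [Group G] (R : Subgroup G) (S : Finset G) (hR : ∀ x ∈ S, x ∈ R) {k : ℕ}
    (hk : S.card ≤ k) : ∃ f : Fin k → G, (∀ i, f i ∈ R) ∧
      Subgroup.closure (Set.range f) = Subgroup.closure (S : Set G) := by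
  classical
  refine ⟨fun i => if h : (i : ℕ) < S.card then (S.equivFin.symm ⟨i, h⟩ : G) else 1, ?_, ?_⟩
  · intro i
    by_cases h : (i : ℕ) < S.card
    · simp only [dif_pos h]
      exact hR _ (S.equivFin.symm ⟨i, h⟩).2
    · simp only [dif_neg h]
      exact one_mem _
  · apply le_antisymm
    · rw [Subgroup.closure_le]
      rintro _ ⟨i, rfl⟩
      by_cases h : (i : ℕ) < S.card
      · simp only [dif_pos h]
        exact Subgroup.subset_closure (S.equivFin.symm ⟨i, h⟩).2
      · simp only [dif_neg h]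
        exact one_mem _
    · rw [Subgroup.closure_le]
      intro s hs
      refine Subgroup.subset_closure ⟨⟨S.equivFin ⟨s, hs⟩, lt_of_lt_of_le (S.equivFin ⟨s, hs⟩).2 hk⟩, ?_⟩
      have h : ((S.equivFin ⟨s, hs⟩ : Fin S.card) : ℕ) < S.card := (S.equivFin ⟨s, hs⟩).2
      simp only [dif_pos h]
      rw [Fin.eta, Equiv.symm_apply_apply]

/-- For given `U` the number of the 2-groups is at most a term of the sum. -/
private theorem large_LB {n : ℕ} (U : Subgroup (Perm (Fin n))) (hU : Full U) {L ℓ s : ℕ} (hL : 1 ≤ L)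
    (hs : s ≤ ℓ * (mv U).card) :
    Nat.card {D : Subgroup (Perm (Fin n)) // Two D ∧ Nz D U} ≤ LBG n L ℓ s := by
  obtain ⟨k₁, k₂, s₂, h1, h2, h3, h4⟩ := large U hU L
  refine h4.trans ?_
  unfold LBG
  have h5 : k₂ ≤ s₂ := le_trans (by nlinarith) h2
  refine Finset.single_le_sum (f := fun t : ℕ × ℕ × ℕ =>
    n ^ t.1 * n ^ ((Nat.log 2 n + 1) * t.2.1 * (2 * n)) * nTwo (n - t.2.2 + t.2.1 - t.1))
    (fun _ _ => Nat.zero_le _) (a := (k₁, k₂, s₂)) ?_
  rw [Finset.mem_filter, Finset.mem_product, Finset.mem_product, Finset.mem_range, Finset.mem_range,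
    Finset.mem_range]
  refine ⟨⟨?_, ?_, ?_⟩, ?_, h2, h3⟩
  · show k₁ < n + 1
    omega
  · show k₂ < n + 1
    omega
  · show s₂ < n + 1
    omega
  · show s ≤ ℓ * (L * k₁ + s₂)
    exact hs.trans (Nat.mul_le_mul_left ℓ h1)

private theorem cntL_one {n : ℕ} (s k L ℓ : ℕ) (hL : 1 ≤ L) (hsn : s ≤ n) :
    Nat.card {H : Subgroup (Perm (Fin n)) // (mv (oddGen H)).card = s ∧
      ∃ (U D : Subgroup (Perm (Fin n))) (S : Finset (Perm (Fin n))), Full U ∧ Two D ∧ Nz D U ∧ mv U ⊆ mv (oddGen H) ∧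
        (mv (oddGen H)).card ≤ ℓ * (mv U).card ∧ (∀ x ∈ S, x ∈ oddGen H) ∧ S.card ≤ k ∧
        D ⊔ Subgroup.closure (S : Set (Perm (Fin n))) = H} ≤
      n ^ s * n ^ (s * k) * n ^ (s * Nat.log 2 n) * LBG n L ℓ s := by
  classical
  let UB : Finset (Fin n) → Type := fun B => {U : Subgroup (Perm (Fin n)) // (Full U ∧ mv U ⊆ B) ∧ s ≤ ℓ * (mv U).card}
  let FB : Finset (Fin n) → Type := fun B => Fin k → {σ : Perm (Fin n) // ∀ x, ¬ x ∈ B → σ x = x}
  let DC : (B : Finset (Fin n)) → UB B → Type := fun B U => {D : Subgroup (Perm (Fin n)) // Two D ∧ Nz D U.1}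
  let T : Type := Σ B : {B : Finset (Fin n) // B.card = s}, Σ _f : FB B.1, Σ U : UB B.1, DC B.1 U
  have hfin1 : ∀ B, Finite (UB B) := fun B => inferInstanceAs (Finite {U : Subgroup (Perm (Fin n)) // _})
  have hfin2 : ∀ B, Finite (FB B) := fun B =>
    inferInstanceAs (Finite (Fin k → {σ : Perm (Fin n) // ∀ x, ¬ x ∈ B → σ x = x}))
  have hfin3 : ∀ B U, Finite (DC B U) := fun B U => inferInstanceAs (Finite {U : Subgroup (Perm (Fin n)) // _})
  have hfinT : Finite T := by
    have : ∀ B : {B : Finset (Fin n) // B.card = s}, Finite (Σ _f : FB B.1, Σ U : UB B.1, DC B.1 U) := by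
      intro B
      have := hfin1 B.1
      have := hfin2 B.1
      have := hfin3 B.1
      infer_instance
    infer_instance
  have hT : Nat.card T ≤ n ^ s * (n ^ (s * k) * (n ^ (s * Nat.log 2 n) * LBG n L ℓ s)) := by
    refine @card_sigma_le _ _ _ ?_ _ _ (set_count n s) ?_
    · intro B
      have := hfin1 B.1
      have := hfin2 B.1
      have := hfin3 B.1
      infer_instance
    · rintro ⟨B, hB⟩
      have i1 := hfin1 B
      have i2 := hfin2 B
      have i3 := hfin3 B
      refine card_sigma_le _ _ _ ?_ ?_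
      · show Nat.card (Fin k → {σ : Perm (Fin n) // ∀ x, ¬ x ∈ B → σ x = x}) ≤ n ^ (s * k)
        rw [Nat.card_fun, perm_count, hB, Nat.card_eq_fintype_card, Fintype.card_fin, pow_mul]
        exact Nat.pow_le_pow_left ((Nat.factorial_le_pow s).trans (Nat.pow_le_pow_left hsn s)) k
      · intro _
        refine card_sigma_le _ _ _ ?_ ?_
        · refine le_trans ?_ (u_count B s hB.le hsn)
          refine Nat.card_le_card_of_injective (fun U : UB B =>
            (⟨U.1, U.2.1⟩ : {U : Subgroup (Perm (Fin n)) // Full U ∧ mv U ⊆ B})) ?_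
          intro U₁ U₂ h
          exact Subtype.ext (congrArg (fun U : {U : Subgroup (Perm (Fin n)) // Full U ∧ mv U ⊆ B} => U.1) h)
        · rintro ⟨U, ⟨hU, -⟩, hs⟩
          exact large_LB U hU hL hs
  have hch : ∀ H : {H : Subgroup (Perm (Fin n)) // (mv (oddGen H)).card = s ∧
      ∃ (U D : Subgroup (Perm (Fin n))) (S : Finset (Perm (Fin n))), Full U ∧ Two D ∧ Nz D U ∧ mv U ⊆ mv (oddGen H) ∧
        (mv (oddGen H)).card ≤ ℓ * (mv U).card ∧ (∀ x ∈ S, x ∈ oddGen H) ∧ S.card ≤ k ∧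
        D ⊔ Subgroup.closure (S : Set (Perm (Fin n))) = H},
      ∃ t : T, t.2.2.2.1 ⊔ Subgroup.closure (Set.range fun i => (t.2.1 i : Perm (Fin n))) = H.1 := by
    rintro ⟨H, hmv, U, D, S, hU, hD, hDU, hUB, hsU, hSR, hSk, hH⟩
    obtain ⟨f, hfR, hf⟩ := code_fin (oddGen H) S hSR hSk
    have hmove : ∀ i, ∀ x, ¬ x ∈ mv (oddGen H) → f i x = x := by
      intro i x hx
      by_contra hne
      exact hx (mem_mv.mpr ⟨f i, hfR i, hne⟩)
    refine ⟨⟨⟨mv (oddGen H), hmv⟩, fun i => ⟨f i, hmove i⟩, ⟨U, ⟨hU, hUB⟩, ?_⟩, ⟨D, hD, hDU⟩⟩, ?_⟩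
    · rw [← hmv]
      exact hsU
    · show D ⊔ Subgroup.closure (Set.range f) = H
      rw [hf]
      exact hH
  choose F hF using hch
  have hinj : Function.Injective F := by
    intro H₁ H₂ h
    apply Subtype.ext
    rw [← hF H₁, ← hF H₂, h]
  calc _ ≤ Nat.card T := Nat.card_le_card_of_injective F hinj
    _ ≤ n ^ s * (n ^ (s * k) * (n ^ (s * Nat.log 2 n) * LBG n L ℓ s)) := hT
    _ = n ^ s * n ^ (s * k) * n ^ (s * Nat.log 2 n) * LBG n L ℓ s := by ring

theorem cnt_LG {n : ℕ} (s₀ k L ℓ : ℕ) (hL : 1 ≤ L) :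
    Nat.card {H : Subgroup (Perm (Fin n)) // s₀ < (mv (oddGen H)).card ∧
      ∃ (U D : Subgroup (Perm (Fin n))) (S : Finset (Perm (Fin n))), Full U ∧ Two D ∧ Nz D U ∧ mv U ⊆ mv (oddGen H) ∧
        (mv (oddGen H)).card ≤ ℓ * (mv U).card ∧ (∀ x ∈ S, x ∈ oddGen H) ∧ S.card ≤ k ∧
        D ⊔ Subgroup.closure (S : Set (Perm (Fin n))) = H} ≤
      ∑ s ∈ Finset.Ioc s₀ n, n ^ s * n ^ (s * k) * n ^ (s * Nat.log 2 n) * LBG n L ℓ s := by
  classical
  rw [Nat.card_eq_fintype_card, Fintype.card_subtype,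
    Finset.card_eq_sum_card_fiberwise (f := fun H : Subgroup (Perm (Fin n)) => (mv (oddGen H)).card)
      (t := Finset.Ioc s₀ n)]
  · refine Finset.sum_le_sum fun s hs => ?_
    rw [Finset.mem_Ioc] at hs
    refine le_trans ?_ (cntL_one s k L ℓ hL hs.2)
    rw [Nat.card_eq_fintype_card, Fintype.card_subtype]
    refine Finset.card_le_card fun H hH => ?_
    rw [Finset.mem_filter, Finset.mem_filter] at hH
    rw [Finset.mem_filter]
    exact ⟨hH.1.1, hH.2, hH.1.2.2⟩
  · intro H hH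
    have h1 := hH
    rw [Finset.mem_coe, Finset.mem_filter] at h1
    rw [Finset.mem_coe, Finset.mem_Ioc]
    refine ⟨h1.2.1, ?_⟩
    have h2 := Finset.card_le_univ (mv (oddGen H))
    rwa [Fintype.card_fin] at h2

end Pool.Agent.GcS
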