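import Pool.Agent.GcS.Defs
import Pool.Agent.AbS.HatA

/-!
MP_7fa120_al, class `Gc`. An abelian group with the same moved points, whose orbits are contained in the orbits of `Q`.

This is `Pool.Agent.SvS.exists_U` (`SvS/ULem.lean`, proved there; copy it with its private lemmas) with the additional statement about the
orbits: an element of `wg Q` maps every point `x` to `q x` for some `q ∈ Q`, and the same holds for `AbS.hat (wg Q)`.
-/

set_option autoImplicit false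

namespace Pool.Agent.GcS

open Equiv Pool.Agent.NilS Pool.Agent.BdO Pool.Agent.SvS

private theorem mem_orb {Ω : Type} {H : Subgroup (Perm Ω)} {x y : Ω} :
    y ∈ MulAction.orbit H x ↔ ∃ k ∈ H, k x = y := by
  constructor
  · rintro ⟨⟨k, hk⟩, rfl⟩
    exact ⟨k, hk, rfl⟩
  · rintro ⟨k, hk, rfl⟩
    exact ⟨⟨k, hk⟩, rfl⟩

private theorem orb_hat {Ω : Type} {H : Subgroup (Perm Ω)} {x y : Ω} :
    y ∈ MulAction.orbit (AbS.hat H) x ↔ y ∈ MulAction.orbit H x := by
  rw [mem_orb, mem_orb]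
  constructor
  · rintro ⟨k, hk, rfl⟩
    obtain ⟨l, hl, h⟩ := hk x
    exact ⟨l, hl, (h x (MulAction.mem_orbit_self x)).symm⟩
  · rintro ⟨k, hk, rfl⟩
    exact ⟨k, AbS.le_hat H hk, rfl⟩

private theorem hat_hat {Ω : Type} (H : Subgroup (Perm Ω)) : AbS.hat (AbS.hat H) = AbS.hat H := by
  apply le_antisymm _ (AbS.le_hat _)
  intro σ hσ x
  obtain ⟨k, hk, h⟩ := hσ x
  obtain ⟨l, hl, h'⟩ := hk x
  refine ⟨l, hl, fun y hy => ?_⟩
  rw [h y (orb_hat.2 hy), h' y hy]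

/-- The derived series. -/
private def ser {n : ℕ} (Q : Subgroup (Perm (Fin n))) : ℕ → Subgroup (Perm (Fin n))
  | 0 => Q
  | i + 1 => ⁅ser Q i, ser Q i⁆

private theorem ser_eq {n : ℕ} (Q : Subgroup (Perm (Fin n))) (i : ℕ) :
    ser Q i = (derivedSeries Q i).map Q.subtype := by
  induction i with
  | zero => rw [ser, derivedSeries_zero, ← MonoidHom.range_eq_map, Subgroup.range_subtype]
  | succ i ih => rw [ser, ih, derivedSeries_succ, Subgroup.map_commutator]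

private theorem ser_le {n : ℕ} (Q : Subgroup (Perm (Fin n))) (i : ℕ) : ser Q i ≤ Q := by
  induction i with
  | zero => exact le_rfl
  | succ i ih =>
    rw [ser, Subgroup.commutator_le]
    intro a ha b hb
    exact Q.mul_mem (Q.mul_mem (Q.mul_mem (ih ha) (ih hb)) (Q.inv_mem (ih ha))) (Q.inv_mem (ih hb))

private theorem ser_nz {n : ℕ} {Q D : Subgroup (Perm (Fin n))} (h : Nz D Q) (i : ℕ) : Nz D (ser Q i) := by
  induction i with
  | zero => exact h
  | succ i ih =>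
    intro l hl o ho
    rw [ser] at ho ⊢
    have h1 : (ser Q i).map (MulAut.conj l).toMonoidHom ≤ ser Q i := by
      rintro _ ⟨x, hx, rfl⟩
      exact ih l hl x hx
    have h2 : (⁅ser Q i, ser Q i⁆ : Subgroup (Perm (Fin n))).map (MulAut.conj l).toMonoidHom ≤
        ⁅ser Q i, ser Q i⁆ := by
      rw [Subgroup.map_commutator]
      exact Subgroup.commutator_mono h1 h1
    exact h2 (Subgroup.mem_map_of_mem _ ho)

/-- The first term of the derived series which fixes `x`. -/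
private noncomputable def lv {n : ℕ} (Q : Subgroup (Perm (Fin n))) (x : Fin n) : ℕ :=
  sInf {j | ∀ q ∈ ser Q j, q x = x}

private theorem lv_spec {n : ℕ} {Q : Subgroup (Perm (Fin n))} (hb : ∃ k, ser Q k = ⊥) (x : Fin n) :
    ∀ q ∈ ser Q (lv Q x), q x = x := by
  have h : ({j | ∀ q ∈ ser Q j, q x = x} : Set ℕ).Nonempty := by
    obtain ⟨k, hk⟩ := hb
    refine ⟨k, fun q hq => ?_⟩
    rw [hk, Subgroup.mem_bot] at hq
    rw [hq]
    rfl
  exact Nat.sInf_mem h

private theorem lv_min {n : ℕ} {Q : Subgroup (Perm (Fin n))} {x : Fin n} {j : ℕ} (hj : j < lv Q x) :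
    ∃ q ∈ ser Q j, q x ≠ x := by
  by_contra hcon
  push Not at hcon
  exact Nat.notMem_of_lt_sInf hj hcon

private theorem lv_conj {n : ℕ} {Q D : Subgroup (Perm (Fin n))} (h : Nz D Q) {d : Perm (Fin n)} (hd : d ∈ D)
    (x : Fin n) : lv Q (d x) = lv Q x := by
  unfold lv
  congr 1
  ext j
  constructor
  · intro h1 q hq
    have h2 := h1 (d * q * d⁻¹) (ser_nz h j d hd q hq)
    simpa using h2
  · intro h1 q hq
    have h2 := h1 (d⁻¹ * q * d) (by
      have := ser_nz h j d⁻¹ (D.inv_mem hd) q hq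
      rwa [inv_inv] at this)
    have h3 : d⁻¹ (q (d x)) = x := h2
    rw [Perm.inv_eq_iff_eq] at h3
    exact h3

private theorem nz_self {n : ℕ} (Q : Subgroup (Perm (Fin n))) : Nz Q Q := fun _ hl _ ho =>
  Q.mul_mem (Q.mul_mem hl ho) (Q.inv_mem hl)

/-- The permutations which act on the points of level `i` like an element of `ser Q (i - 1)`. -/
private def wg {n : ℕ} (Q : Subgroup (Perm (Fin n))) : Subgroup (Perm (Fin n)) where
  carrier := {σ | ∀ i, ∃ q ∈ ser Q (i - 1), ∀ x, lv Q x = i → σ x = q x}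
  mul_mem' := by
    intro σ τ hσ hτ i
    obtain ⟨q, hq, h1⟩ := hσ i
    obtain ⟨r, hr, h2⟩ := hτ i
    refine ⟨q * r, mul_mem hq hr, fun x hx => ?_⟩
    rw [Perm.mul_apply, Perm.mul_apply, h2 x hx]
    exact h1 _ (by rw [lv_conj (nz_self Q) (ser_le Q _ hr), hx])
  one_mem' := fun i => ⟨1, one_mem _, fun _ _ => rfl⟩
  inv_mem' := by
    intro σ hσ i
    obtain ⟨q, hq, h1⟩ := hσ i
    refine ⟨q⁻¹, inv_mem hq, fun x hx => ?_⟩
    rw [Perm.inv_eq_iff_eq, h1 _ (by rw [lv_conj (nz_self Q) (ser_le Q _ (inv_mem hq)), hx])]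
    simp

private theorem mem_wg {n : ℕ} {Q : Subgroup (Perm (Fin n))} {σ : Perm (Fin n)} :
    σ ∈ wg Q ↔ ∀ i, ∃ q ∈ ser Q (i - 1), ∀ x, lv Q x = i → σ x = q x := Iff.rfl

private theorem wg_comm {n : ℕ} {Q : Subgroup (Perm (Fin n))} (hb : ∃ k, ser Q k = ⊥) :
    ∀ a ∈ wg Q, ∀ b ∈ wg Q, a * b = b * a := by
  intro a ha b hb'
  ext x
  obtain ⟨q, hq, h1⟩ := ha (lv Q x)
  obtain ⟨r, hr, h2⟩ := hb' (lv Q x)
  have e1 : lv Q (r x) = lv Q x := lv_conj (nz_self Q) (ser_le Q _ hr) x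
  have e2 : lv Q (q x) = lv Q x := lv_conj (nz_self Q) (ser_le Q _ hq) x
  rw [Perm.mul_apply, Perm.mul_apply, h2 x rfl, h1 x rfl, h1 _ e1, h2 _ e2]
  have h3 := lv_spec hb x
  rcases Nat.eq_zero_or_pos (lv Q x) with h0 | h0
  · rw [h0] at h3 hq hr
    rw [h3 r hr, h3 q hq, h3 r hr]
  · have h4 : lv Q x = (lv Q x - 1) + 1 := by omega
    have h5 : q⁻¹ * r⁻¹ * q * r ∈ ser Q (lv Q x) := by
      rw [h4, ser]
      have := Subgroup.commutator_mem_commutator (inv_mem hq) (inv_mem hr)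
      rw [commutatorElement_def, inv_inv, inv_inv] at this
      exact this
    have h7 : (q⁻¹ * r⁻¹ * q * r) x = x := h3 _ h5
    have h8 : (r * q) ((q⁻¹ * r⁻¹ * q * r) x) = (r * q) x := by rw [h7]
    have h9 : (r * q) ((q⁻¹ * r⁻¹ * q * r) x) = (q * r) x := by
      rw [← Perm.mul_apply]
      congr 1
      group
    rw [h9] at h8
    exact congrArg Fin.val h8

private theorem wg_pow {n : ℕ} {Q : Subgroup (Perm (Fin n))} {σ q : Perm (Fin n)} {i : ℕ}
    (hq : q ∈ ser Q (i - 1)) (h : ∀ x, lv Q x = i → σ x = q x) (k : ℕ) :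
    ∀ x, lv Q x = i → (σ ^ k) x = (q ^ k) x := by
  induction k with
  | zero => intro x _; rfl
  | succ k ih =>
    intro x hx
    rw [pow_succ, pow_succ, Perm.mul_apply, Perm.mul_apply, h x hx]
    exact ih _ (by rw [lv_conj (nz_self Q) (ser_le Q _ hq), hx])

private theorem wg_odd {n : ℕ} {Q : Subgroup (Perm (Fin n))} (ho : Odd (Nat.card Q)) :
    Odd (Nat.card (wg Q)) := by
  rw [← Nat.not_even_iff_odd, even_iff_two_dvd]
  intro h2
  have : Fact (Nat.Prime 2) := ⟨Nat.prime_two⟩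
  obtain ⟨⟨σ, hσ⟩, hord⟩ := exists_prime_orderOf_dvd_card' 2 h2
  have hs : orderOf σ = 2 := by
    rw [← hord]
    exact (Subgroup.orderOf_mk σ hσ).symm
  have he : σ ^ Nat.card Q = 1 := by
    ext x
    obtain ⟨q, hq, h1⟩ := hσ (lv Q x)
    rw [wg_pow hq h1 _ x rfl]
    have h3 : (⟨q, ser_le Q _ hq⟩ : Q) ^ Nat.card Q = 1 := pow_card_eq_one'
    have h4 : q ^ Nat.card Q = 1 := by
      have := congrArg Subtype.val h3
      rwa [Subgroup.coe_pow] at this
    rw [h4]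
  have h5 : 2 ∣ Nat.card Q := by
    rw [← hs]
    exact orderOf_dvd_of_pow_eq_one he
  rw [← Nat.not_even_iff_odd, even_iff_two_dvd] at ho
  exact ho h5

private theorem wg_nz {n : ℕ} {Q D : Subgroup (Perm (Fin n))} (h : Nz D Q) : Nz D (wg Q) := by
  intro d hd σ hσ i
  obtain ⟨q, hq, h1⟩ := hσ i
  refine ⟨d * q * d⁻¹, ser_nz h _ d hd q hq, fun x hx => ?_⟩
  rw [Perm.mul_apply, Perm.mul_apply, Perm.mul_apply, Perm.mul_apply,
    h1 (d⁻¹ x) (by rw [lv_conj h (D.inv_mem hd), hx])]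

private theorem hat_nz {n : ℕ} {W D : Subgroup (Perm (Fin n))} (h : Nz D W) : Nz D (AbS.hat W) := by
  intro d hd σ hσ x
  obtain ⟨k, hk, h1⟩ := hσ (d⁻¹ x)
  refine ⟨d * k * d⁻¹, h d hd k hk, fun y hy => ?_⟩
  obtain ⟨w, hw, rfl⟩ := mem_orb.1 hy
  rw [Perm.mul_apply, Perm.mul_apply, Perm.mul_apply, Perm.mul_apply]
  congr 1
  apply h1
  rw [mem_orb]
  refine ⟨d⁻¹ * w * d, ?_, ?_⟩
  · have := h d⁻¹ (D.inv_mem hd) w hw
    rwa [inv_inv] at this
  · simp [Perm.mul_apply]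

private theorem mv_hat {n : ℕ} (W : Subgroup (Perm (Fin n))) : mv (AbS.hat W) = mv W := by
  ext x
  rw [mem_mv, mem_mv]
  constructor
  · rintro ⟨σ, hσ, hx⟩
    obtain ⟨k, hk, h1⟩ := hσ x
    exact ⟨k, hk, by rwa [← h1 x (MulAction.mem_orbit_self x)]⟩
  · rintro ⟨k, hk, hx⟩
    exact ⟨k, AbS.le_hat W hk, hx⟩

private theorem mv_wg {n : ℕ} {Q : Subgroup (Perm (Fin n))} (hb : ∃ k, ser Q k = ⊥) :
    mv (wg Q) = mv Q := by
  classical
  ext x
  rw [mem_mv, mem_mv]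
  constructor
  · rintro ⟨σ, hσ, hx⟩
    obtain ⟨q, hq, h1⟩ := hσ (lv Q x)
    exact ⟨q, ser_le Q _ hq, by rwa [← h1 x rfl]⟩
  · rintro ⟨q0, hq0, hx0⟩
    have hpos : 0 < lv Q x := by
      by_contra hcon
      have h0 : lv Q x = 0 := by omega
      have h1 := lv_spec hb x
      rw [h0] at h1
      exact hx0 (h1 q0 hq0)
    obtain ⟨q, hq, hqx⟩ := lv_min (Q := Q) (x := x) (j := lv Q x - 1) (by omega)
    have hinv : ∀ y, lv Q (q y) = lv Q x ↔ lv Q y = lv Q x := by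
      intro y
      rw [lv_conj (nz_self Q) (ser_le Q _ hq)]
    refine ⟨Perm.ofSubtype (q.subtypePerm (p := fun y => lv Q y = lv Q x) hinv), ?_, ?_⟩
    · intro i
      by_cases hi : i = lv Q x
      · refine ⟨q, by rw [hi]; exact hq, fun y hy => ?_⟩
        rw [Perm.ofSubtype_apply_of_mem (p := fun y => lv Q y = lv Q x) _ (hy.trans hi)]
        rfl
      · refine ⟨1, one_mem _, fun y hy => ?_⟩
        rw [Perm.ofSubtype_apply_of_not_mem]
        · rfl
        · intro hc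
          exact hi (hy.symm.trans hc)
    · rw [Perm.ofSubtype_apply_of_mem (p := fun y => lv Q y = lv Q x) _ rfl]
      exact hqx

theorem exists_U2 {n : ℕ} (Q D : Subgroup (Perm (Fin n))) (hs : Group.IsSolvable Q) (ho : Odd (Nat.card Q)) (hD : Nz D Q) :
    ∃ U : Subgroup (Perm (Fin n)), Full U ∧ Nz D U ∧ mv U = mv Q ∧ ∀ u ∈ U, ∀ x, ∃ q ∈ Q, u x = q x := by
  have hb : ∃ k, ser Q k = ⊥ := by
    obtain ⟨k, hk⟩ := hs.solvable
    exact ⟨k, by rw [ser_eq, hk, Subgroup.map_bot]⟩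
  refine ⟨AbS.hat (wg Q), ⟨AbS.hat_comm (wg_comm hb), ?_, hat_hat _⟩, hat_nz (wg_nz hD),
    (mv_hat _).trans (mv_wg hb), ?_⟩
  · rw [← Nat.not_even_iff_odd, even_iff_two_dvd]
    intro h2
    have h3 := AbS.hat_prime Nat.prime_two h2
    have h4 := wg_odd ho
    rw [← Nat.not_even_iff_odd, even_iff_two_dvd] at h4
    exact h4 h3
  · intro u hu x
    obtain ⟨k, hk, h1⟩ := hu x
    obtain ⟨q, hq, h2⟩ := hk (lv Q x)
    exact ⟨q, ser_le Q _ hq, (h1 x (MulAction.mem_orbit_self x)).trans (h2 x rfl)⟩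

end Pool.Agent.GcS
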