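import Pool.Agent.GcS.SupOne
import Pool.Agent.GcS.SupAll
import Pool.Agent.GcS.ULem2
import Pool.Agent.SvS.CntSm

/-!
MP_7fa120_al, class `Gc`. All groups such that `oddGen H` moves few points.

Proof (compare `Pool.Agent.SvS.cnt_small`, proved in `SvS/CntSm.lean`; copy it). Let `H` be in the set, `R = oddGen H`. `R` is not trivial (otherwise `H` is a 2-group). If
`mv R` is an orbit of `R` take `Q`, `D` from `sup_one`, otherwise from `sup_all`; `U` from `exists_U2`. `U ≠ ⊥` (`mv U = mv Q` is not empty). Let `B ⊇ mv R` with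
`B.card = s`. `H = R ⊔ D` is determined by `(B, R, U, D)`: at most `n ^ s * nSub s * nSub s` triples `(B, R, U)`, and for given `U`, by `norm_k` with
`k = k(U)`: if `k ≥ 2` at most `n ^ k * nTwo (n - k)` groups `D`. Let `k = 1`: `mv U = mv Q` is an orbit of `U`, so it is contained in an orbit of `Q` and
of `R` (by `exists_U2`). If there were two orbits of `R` with more than one point, each would contain a point of `mv Q` by `sup_all`, a contradiction; so `mv R` is an orbit of
`R` and `(mv R).card ≤ 2 * (mv Q).card` by `sup_one`. If `(mv U).card ≤ 26` then `(mv R).card ≤ 52`, `|R| ≤ 52 !`, and as `H / R` is a 2-group the odd part of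
`|H|` is at most `52 !`: `Bdd (52 !) H`, a contradiction. So `(mv U).card ≥ 27` and `SvS.single` gives at most `nSub s * nTwo (n - 3)` groups `D`.
-/

set_option autoImplicit false

namespace Pool.Agent.GcS

open Equiv Pool.Agent.NilS Pool.Agent.BdO Pool.Agent.SvS

/-- The permutations fixing all points outside `S` are a copy of the symmetric group on `|S|` points. -/
private theorem exists_hom (n : ℕ) (S : Finset (Fin n)) : ∃ φ : Perm (Fin S.card) →* Perm (Fin n),
    Function.Injective φ ∧ ∀ σ : Perm (Fin n), (∀ x, x ∉ S → σ x = x) → ∃ τ, φ τ = σ := by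
  classical
  let e : Fin S.card ≃ {x // x ∈ S} := (S.equivFin).symm
  refine ⟨(Perm.ofSubtype (p := fun x => x ∈ S)).comp e.permCongrHom.toMonoidHom, ?_, ?_⟩
  · exact (Perm.ofSubtype_injective (p := fun x => x ∈ S)).comp e.permCongrHom.injective
  · intro σ hσ
    have h1 : ∀ x, σ x ∈ S ↔ x ∈ S := by
      intro x
      constructor
      · intro hx
        by_contra h
        rw [hσ x h] at hx
        exact h hx
      · intro hx
        by_contra h
        have h2 := hσ (σ x) h
        have h3 : σ x = x := σ.injective h2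
        rw [h3] at h
        exact h hx
    obtain ⟨τ, hτ⟩ := e.permCongrHom.surjective (σ.subtypePerm h1)
    refine ⟨τ, ?_⟩
    have h2 : Perm.ofSubtype (σ.subtypePerm h1) = σ :=
      Perm.ofSubtype_subtypePerm h1 (fun x hx => by
        by_contra h
        exact hx (hσ x h))
    change Perm.ofSubtype (e.permCongrHom τ) = σ
    rw [hτ, h2]

/-- Counting subgroups which move only points of `S`. -/
private theorem sub_support (n : ℕ) (S : Finset (Fin n)) :
    Nat.card {U : Subgroup (Perm (Fin n)) // ∀ u ∈ U, ∀ x, x ∉ S → u x = x} ≤ nSub S.card := by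
  obtain ⟨φ, hφ, hs⟩ := exists_hom n S
  have hmap : ∀ U : Subgroup (Perm (Fin n)), (∀ u ∈ U, ∀ x, x ∉ S → u x = x) → (U.comap φ).map φ = U := by
    intro U hU
    apply le_antisymm
    · exact Subgroup.map_comap_le _ _
    · intro u hu
      obtain ⟨τ, hτ⟩ := hs u (hU u hu)
      exact ⟨τ, by simpa [hτ] using hu, hτ⟩
  unfold nSub
  refine Nat.card_le_card_of_injective
    (fun U : {U : Subgroup (Perm (Fin n)) // ∀ u ∈ U, ∀ x, x ∉ S → u x = x} => U.1.comap φ) ?_
  intro U₁ U₂ h
  have h1 : U₁.1.comap φ = U₂.1.comap φ := h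
  apply Subtype.ext
  rw [← hmap U₁.1 U₁.2, ← hmap U₂.1 U₂.2, h1]

/-- The number of sets with `s` elements. -/
private theorem set_count (n s : ℕ) : Nat.card {B : Finset (Fin n) // B.card = s} ≤ n ^ s := by
  have h1 : Nat.card {B : Finset (Fin n) // B.card = s} ≤ Nat.card (Fin s → Fin n) := by
    refine Nat.card_le_card_of_injective
      (fun B : {B : Finset (Fin n) // B.card = s} => fun i : Fin s => B.1.orderEmbOfFin B.2 i) ?_
    intro B₁ B₂ h
    apply Subtype.ext
    have h2 : Set.range (B₁.1.orderEmbOfFin B₁.2) = Set.range (B₂.1.orderEmbOfFin B₂.2) := by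
      have h3 : (fun i : Fin s => B₁.1.orderEmbOfFin B₁.2 i) = fun i : Fin s => B₂.1.orderEmbOfFin B₂.2 i := h
      exact congrArg Set.range h3
    rw [Finset.range_orderEmbOfFin, Finset.range_orderEmbOfFin] at h2
    exact Finset.coe_injective h2
  refine h1.trans (le_of_eq ?_)
  rw [Nat.card_fun, Nat.card_eq_fintype_card, Nat.card_eq_fintype_card, Fintype.card_fin, Fintype.card_fin]

/-- For a sigma type the cardinality is at most the number of base points times a bound for the fibres. -/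
private theorem card_sigma_le {α : Type} [Finite α] (β : α → Type) [∀ a, Finite (β a)] (m c : ℕ)
    (h1 : Nat.card α ≤ m) (h2 : ∀ a, Nat.card (β a) ≤ c) : Nat.card (Σ a, β a) ≤ m * c := by
  have : Fintype α := Fintype.ofFinite α
  rw [Nat.card_sigma]
  calc ∑ a, Nat.card (β a) ≤ ∑ _a : α, c := Finset.sum_le_sum fun a _ => h2 a
    _ = Nat.card α * c := by rw [Finset.sum_const, smul_eq_mul, Finset.card_univ, Nat.card_eq_fintype_card]
    _ ≤ m * c := Nat.mul_le_mul_right c h1

/-- A group has order at most the factorial of the number of the moved points. -/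
private theorem card_le_fact {n : ℕ} (Q : Subgroup (Perm (Fin n))) :
    Nat.card Q ≤ (mv Q).card.factorial := by
  classical
  have h2 : Nat.card {σ : Perm (Fin n) // ∀ x, ¬ x ∈ mv Q → σ x = x} = (mv Q).card.factorial := by
    rw [← Nat.card_congr (Equiv.Perm.subtypeEquivSubtypePerm (fun x : Fin n => x ∈ mv Q)),
      Nat.card_eq_fintype_card, Fintype.card_perm, Fintype.card_coe]
  rw [← h2]
  refine Nat.card_le_card_of_injective
    (fun q : Q => (⟨q.1, fun x hx => ?_⟩ : {σ : Perm (Fin n) // ∀ x, ¬ x ∈ mv Q → σ x = x})) ?_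
  · by_contra hne
    exact hx (mem_mv.mpr ⟨q.1, q.2, hne⟩)
  · intro a b h
    have h3 : a.1 = b.1 := congrArg
      (fun σ : {σ : Perm (Fin n) // ∀ x, ¬ x ∈ mv Q → σ x = x} => σ.1) h
    exact Subtype.ext h3

private theorem two_or {m : ℕ} (hm : m ≠ 0) (h : ∀ p : ℕ, p.Prime → p ∣ m → p = 2) : ∃ k : ℕ, m = 2 ^ k :=
  ⟨_, Nat.eq_prime_pow_of_unique_prime_dvd hm fun {d} hd hdm => h d hd hdm⟩

private theorem quot_two {G : Type} [Group G] [Finite G] (N : Subgroup G) [N.Normal]
    (hN : ∀ g : G, Opp g → g ∈ N) : ∃ k : ℕ, Nat.card (G ⧸ N) = 2 ^ k := by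
  refine two_or Nat.card_pos.ne' fun p hp hdvd => ?_
  by_contra hp2
  have : Fact p.Prime := ⟨hp⟩
  obtain ⟨x, hx⟩ := exists_prime_orderOf_dvd_card' p hdvd
  obtain ⟨g, rfl⟩ := QuotientGroup.mk_surjective x
  obtain ⟨a, m, hm, hgm⟩ := Nat.exists_eq_pow_mul_and_not_dvd (isOfFinOrder_of_finite g).orderOf_pos.ne' p
    hp.ne_one
  have hm0 : m ≠ 0 := by
    rintro rfl
    exact hm (dvd_zero p)
  have h1 : orderOf (g ^ m) = p ^ a := by
    rw [orderOf_pow_of_dvd hm0 (by rw [hgm]; exact dvd_mul_left m _), hgm,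
      Nat.mul_div_cancel _ (Nat.pos_of_ne_zero hm0)]
  have h2 : g ^ m ∈ N := hN _ ⟨p, a, hp, hp2, h1⟩
  have h3 : ((g : G ⧸ N)) ^ m = 1 := by
    rw [← QuotientGroup.mk_pow]
    exact (QuotientGroup.eq_one_iff _).mpr h2
  rw [← orderOf_dvd_iff_pow_eq_one, hx] at h3
  exact hm h3

/-- The index of `oddGen H` is a power of two. -/
private theorem idx_two {n : ℕ} (H : Subgroup (Perm (Fin n))) :
    ∃ k : ℕ, Nat.card H = Nat.card (oddGen H) * 2 ^ k := by
  set N := oddGen (⊤ : Subgroup H) with hNdef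
  have hN : ∀ g : H, Opp g → g ∈ N := fun g hg => Subgroup.subset_closure ⟨Subgroup.mem_top g, hg⟩
  have hnorm : N.Normal := by
    constructor
    intro n hn g
    have h1 : N ≤ N.comap (MulAut.conj g).toMonoidHom := by
      rw [hNdef]
      unfold oddGen
      rw [Subgroup.closure_le]
      rintro x ⟨-, r, j, hr, hr2, hx⟩
      rw [SetLike.mem_coe, Subgroup.mem_comap]
      refine Subgroup.subset_closure ⟨Subgroup.mem_top _, r, j, hr, hr2, ?_⟩
      rw [← hx]
      exact MulEquiv.orderOf_eq (MulAut.conj g) x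
    have h2 := h1 hn
    rw [Subgroup.mem_comap] at h2
    exact h2
  have hgen : oddGen H = N.map H.subtype := by
    rw [hNdef]
    unfold oddGen
    rw [MonoidHom.map_closure]
    congr 1
    ext g
    constructor
    · rintro ⟨hg, r, j, hr, hr2, ho⟩
      exact ⟨⟨g, hg⟩, ⟨Subgroup.mem_top _, r, j, hr, hr2, by rw [Subgroup.orderOf_mk]; exact ho⟩, rfl⟩
    · rintro ⟨g', ⟨-, r, j, hr, hr2, ho⟩, rfl⟩
      exact ⟨g'.2, r, j, hr, hr2, by rw [← ho]; exact Subgroup.orderOf_coe g'⟩
  obtain ⟨k, hk⟩ := quot_two N hN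
  refine ⟨k, ?_⟩
  have h1 : Nat.card (oddGen H) = Nat.card N := by
    rw [hgen, Subgroup.card_map_of_injective (Subgroup.subtype_injective H)]
  rw [h1, Subgroup.card_eq_card_quotient_mul_card_subgroup N, hk, mul_comm]

/-- If the odd part is large then `oddGen H` moves at least 53 points. -/
private theorem many_mv {n : ℕ} (H : Subgroup (Perm (Fin n))) (h : ¬ Bdd (Nat.factorial 52) H) :
    53 ≤ (mv (oddGen H)).card := by
  by_contra hlt
  apply h
  obtain ⟨k, hk⟩ := idx_two H
  obtain ⟨b, m, hm, hbm⟩ := Nat.exists_eq_two_pow_mul_odd (n := Nat.card (oddGen H)) Nat.card_pos.ne'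
  refine ⟨b + k, m, ?_, hm, ?_⟩
  · rw [hk, hbm, pow_add]
    ring
  · have h1 : m ≤ Nat.card (oddGen H) := by
      rw [hbm]
      exact Nat.le_mul_of_pos_left m (by positivity)
    exact h1.trans ((card_le_fact _).trans (Nat.factorial_le (by omega)))

/-- The orbit of a point. -/
private theorem exists_orb {n : ℕ} (R : Subgroup (Perm (Fin n))) (x : Fin n) :
    ∃ Δ : Finset (Fin n), Orb R Δ ∧ ∀ y, y ∈ Δ ↔ ∃ g ∈ R, g x = y := by
  classical
  refine ⟨Finset.univ.filter (fun y => ∃ g ∈ R, g x = y), ⟨?_, ⟨x, ?_⟩, ?_⟩, ?_⟩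
  · intro h hh y hy
    rw [Finset.mem_filter] at hy ⊢
    obtain ⟨-, g, hg, rfl⟩ := hy
    exact ⟨Finset.mem_univ _, h * g, R.mul_mem hh hg, rfl⟩
  · rw [Finset.mem_filter]
    exact ⟨Finset.mem_univ _, 1, R.one_mem, rfl⟩
  · intro y hy z hz
    rw [Finset.mem_filter] at hy hz
    obtain ⟨-, g, hg, rfl⟩ := hy
    obtain ⟨-, k, hk, rfl⟩ := hz
    refine ⟨k * g⁻¹, R.mul_mem hk (R.inv_mem hg), ?_⟩
    simp
  · intro y
    rw [Finset.mem_filter]
    simp

/-- The group `U` and the 2-group `D`. -/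
private theorem exists_UD {n : ℕ} (H : Subgroup (Perm (Fin n))) (h : ¬ Bdd (Nat.factorial 52) H) :
    ∃ U D : Subgroup (Perm (Fin n)), Full U ∧ U ≠ ⊥ ∧ (Orb U (mv U) → 27 ≤ (mv U).card) ∧
      (∀ x ∈ mv U, x ∈ mv (oddGen H)) ∧ Two D ∧ Nz D U ∧ oddGen H ⊔ D = H := by
  classical
  have h53 := many_mv H h
  have hbot : ∀ U : Subgroup (Perm (Fin n)), (mv U).Nonempty → U ≠ ⊥ := by
    rintro U ⟨x, hx⟩ rfl
    obtain ⟨q, hq, hqx⟩ := mem_mv.mp hx
    rw [Subgroup.mem_bot] at hq
    subst hq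
    exact hqx rfl
  by_cases hO : Orb (oddGen H) (mv (oddGen H))
  · obtain ⟨Q, D, hQR, hQo, hQs, hD2, hDQ, hRD, hmv⟩ := sup_one H hO
    obtain ⟨U, hUf, hDU, hUQ, -⟩ := exists_U2 Q D hQs hQo hDQ
    have h27 : 27 ≤ (mv U).card := by
      rw [hUQ]
      omega
    refine ⟨U, D, hUf, hbot U ?_, fun _ => h27, ?_, hD2, hDU, hRD⟩
    · rw [← Finset.card_pos]
      omega
    · intro x hx
      rw [hUQ] at hx
      obtain ⟨q, hq, hqx⟩ := mem_mv.mp hx
      exact mem_mv.mpr ⟨q, hQR hq, hqx⟩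
  · obtain ⟨Q, D, hQR, hQo, hQs, hD2, hDQ, hRD, hall⟩ := sup_all H
    obtain ⟨U, hUf, hDU, hUQ, hU4⟩ := exists_U2 Q D hQs hQo hDQ
    have hsub : ∀ x ∈ mv U, x ∈ mv (oddGen H) := by
      intro x hx
      rw [hUQ] at hx
      obtain ⟨q, hq, hqx⟩ := mem_mv.mp hx
      exact mem_mv.mpr ⟨q, hQR hq, hqx⟩
    -- every point moved by `oddGen H` is mapped to a point moved by `U`
    have hpt : ∀ x ∈ mv (oddGen H), ∃ g ∈ oddGen H, g x ∈ mv U := by
      intro x hx
      obtain ⟨Δ, hΔ, hΔm⟩ := exists_orb (oddGen H) x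
      obtain ⟨r, hr, hrx⟩ := mem_mv.mp hx
      have h2 : 2 ≤ Δ.card := by
        have h3 : ({x, r x} : Finset (Fin n)) ⊆ Δ := by
          intro y hy
          rw [Finset.mem_insert, Finset.mem_singleton] at hy
          rcases hy with rfl | rfl
          · exact (hΔm _).2 ⟨1, (oddGen H).one_mem, rfl⟩
          · exact (hΔm _).2 ⟨r, hr, rfl⟩
        have h4 := Finset.card_le_card h3
        rwa [Finset.card_pair (fun e => hrx e.symm)] at h4
      obtain ⟨⟨y, hy, hyQ⟩, -⟩ := hall Δ hΔ h2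
      obtain ⟨g, hg, hgy⟩ := (hΔm y).1 hy
      refine ⟨g, hg, ?_⟩
      rw [hgy, hUQ]
      exact hyQ
    have hne : (mv U).Nonempty := by
      have h1 : (mv (oddGen H)).Nonempty := by
        rw [← Finset.card_pos]
        omega
      obtain ⟨x, hx⟩ := h1
      obtain ⟨g, -, hg⟩ := hpt x hx
      exact ⟨_, hg⟩
    refine ⟨U, D, hUf, hbot U hne, ?_, hsub, hD2, hDU, hRD⟩
    intro hOU
    exfalso
    apply hO
    obtain ⟨y₀, hy₀⟩ := hne
    -- `oddGen H` is transitive on the points it moves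
    have htr : ∀ x ∈ mv (oddGen H), ∃ g ∈ oddGen H, g x = y₀ := by
      intro x hx
      obtain ⟨g, hg, hgx⟩ := hpt x hx
      obtain ⟨u, hu, huy⟩ := hOU.2.2 _ hgx y₀ hy₀
      obtain ⟨q, hq, hqx⟩ := hU4 u hu (g x)
      refine ⟨q * g, (oddGen H).mul_mem (hQR hq) hg, ?_⟩
      rw [Perm.mul_apply, ← hqx, huy]
    refine ⟨?_, ⟨y₀, hsub _ hy₀⟩, ?_⟩
    · intro k hk x hx
      obtain ⟨g, hg, hgx⟩ := mem_mv.mp hx
      refine mem_mv.mpr ⟨k * g * k⁻¹, (oddGen H).mul_mem ((oddGen H).mul_mem hk hg) ((oddGen H).inv_mem hk), ?_⟩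
      intro he
      apply hgx
      have he2 : k (g x) = k x := by simpa using he
      exact k.injective he2
    · intro x hx z hz
      obtain ⟨g, hg, hgx⟩ := htr x hx
      obtain ⟨k, hk, hkz⟩ := htr z hz
      refine ⟨k⁻¹ * g, (oddGen H).mul_mem ((oddGen H).inv_mem hk) hg, ?_⟩
      rw [Perm.mul_apply, hgx, ← hkz]
      simp

theorem cnt_smallG {n : ℕ} (s : ℕ) (hs : s ≤ n) :
    Nat.card {H : Subgroup (Perm (Fin n)) // ¬ Bdd (Nat.factorial 52) H ∧ (mv (oddGen H)).card ≤ s} ≤
      n ^ s * nSub s ^ 2 * (∑ k ∈ Finset.Icc 2 n, n ^ k * nTwo (n - k) + nSub s * nTwo (n - 3)) := by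
  classical
  obtain ⟨c, hc⟩ : ∃ c, c = ∑ k ∈ Finset.Icc 2 n, n ^ k * nTwo (n - k) + nSub s * nTwo (n - 3) := ⟨_, rfl⟩
  rw [← hc]
  -- the data
  let SB : Finset (Fin n) → Type := fun B => {U : Subgroup (Perm (Fin n)) // ∀ u ∈ U, ∀ x, x ∉ B → u x = x}
  let CB : Finset (Fin n) → Type := fun B => {U : Subgroup (Perm (Fin n)) //
    (Full U ∧ U ≠ ⊥ ∧ (Orb U (mv U) → 27 ≤ (mv U).card)) ∧ ∀ u ∈ U, ∀ x, x ∉ B → u x = x}
  let DC : (B : Finset (Fin n)) → CB B → Type := fun B C => {D : Subgroup (Perm (Fin n)) // Two D ∧ Nz D C.1}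
  let T : Type := Σ B : {B : Finset (Fin n) // B.card = s}, Σ _R : SB B.1, Σ C : CB B.1, DC B.1 C
  have hfin1 : ∀ B, Finite (SB B) := fun B => inferInstanceAs (Finite {U : Subgroup (Perm (Fin n)) // _})
  have hfin2 : ∀ B, Finite (CB B) := fun B => inferInstanceAs (Finite {U : Subgroup (Perm (Fin n)) // _})
  have hfin3 : ∀ B C, Finite (DC B C) := fun B C => inferInstanceAs (Finite {U : Subgroup (Perm (Fin n)) // _})
  have hfinT : Finite T := by
    have : ∀ B : {B : Finset (Fin n) // B.card = s}, Finite (Σ _R : SB B.1, Σ C : CB B.1, DC B.1 C) := by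
      intro B
      have := hfin1 B.1
      have := hfin2 B.1
      have := hfin3 B.1
      infer_instance
    infer_instance
  have hT : Nat.card T ≤ n ^ s * (nSub s * (nSub s * c)) := by
    refine @card_sigma_le _ _ _ ?_ _ _ (set_count n s) ?_
    · intro B
      have := hfin1 B.1
      have := hfin2 B.1
      have := hfin3 B.1
      infer_instance
    · rintro ⟨B, hB⟩
      have i1 := hfin1 B
      have i2 := hfin2 B
      have i3 := hfin3 B
      have hsub : Nat.card (SB B) ≤ nSub s := by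
        have h1 := sub_support n B
        rw [hB] at h1
        exact h1
      refine card_sigma_le _ _ _ hsub ?_
      · intro _
        refine card_sigma_le _ _ _ ?_ ?_
        · refine le_trans ?_ hsub
          refine Nat.card_le_card_of_injective (fun C : CB B => (⟨C.1, C.2.2⟩ : SB B)) ?_
          intro C₁ C₂ h
          exact Subtype.ext (congrArg (fun U : SB B => U.1) h)
        · rintro ⟨U, ⟨⟨hab, ho, hh⟩, hne, h27⟩, hU3⟩
          have hmvn : (mv U).card ≤ n := by
            have := Finset.card_le_univ (mv U)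
            rwa [Fintype.card_fin] at this
          have hmvs : (mv U).card ≤ s := by
            rw [← hB]
            refine Finset.card_le_card fun x hx => ?_
            obtain ⟨q, hq, hqx⟩ := mem_mv.mp hx
            by_contra hxB
            exact hqx (hU3 q hq x hxB)
          obtain ⟨k, hk1, hk3, hk4, hk5⟩ := norm_k U ho hne
          show Nat.card {D : Subgroup (Perm (Fin n)) // Two D ∧ Nz D U} ≤ c
          rcases Nat.lt_or_ge k 2 with hk | hk
          · have hk1' : k = 1 := by omega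
            have h1 := single U hab ho (hk4 hk1') (h27 (hk4 hk1'))
            refine h1.trans ?_
            rw [hc]
            exact (Nat.mul_le_mul_right _ (nSub_mono hmvs)).trans (Nat.le_add_left _ _)
          · refine hk5.trans ?_
            rw [hc]
            refine le_trans ?_ (Nat.le_add_right _ _)
            exact Finset.single_le_sum (f := fun k => n ^ k * nTwo (n - k)) (fun i _ => Nat.zero_le _)
              (Finset.mem_Icc.2 ⟨hk, by omega⟩)
  -- the choice of the data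
  have hch : ∀ H : {H : Subgroup (Perm (Fin n)) // ¬ Bdd (Nat.factorial 52) H ∧
      (mv (oddGen H)).card ≤ s}, ∃ t : T, t.2.1.1 ⊔ t.2.2.2.1 = H.1 := by
    rintro ⟨H, hbdd, hmv⟩
    obtain ⟨B, hBB, -, hBs⟩ := Finset.exists_subsuperset_card_eq (Finset.subset_univ (mv (oddGen H))) hmv
      (by rw [Finset.card_univ, Fintype.card_fin]; exact hs)
    have hmove' : ∀ g ∈ oddGen H, ∀ x, x ∉ B → g x = x := by
      intro g hg x hx
      by_contra hne
      exact hx (hBB (mem_mv.mpr ⟨g, hg, hne⟩))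
    obtain ⟨U, D, hUf, hUne, h27, hUR, hD2, hDU, hRD⟩ := exists_UD H hbdd
    have hUB : ∀ u ∈ U, ∀ x, x ∉ B → u x = x := by
      intro u hu x hx
      by_contra hne
      exact hx (hBB (hUR x (mem_mv.mpr ⟨u, hu, hne⟩)))
    exact ⟨⟨⟨B, hBs⟩, ⟨oddGen H, hmove'⟩, ⟨U, ⟨hUf, hUne, h27⟩, hUB⟩, ⟨D, hD2, hDU⟩⟩, hRD⟩
  choose F hF using hch
  have hinj : Function.Injective F := by
    intro H₁ H₂ h
    apply Subtype.ext
    rw [← hF H₁, ← hF H₂, h]
  calc _ ≤ Nat.card T := Nat.card_le_card_of_injective F hinj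
    _ ≤ n ^ s * (nSub s * (nSub s * c)) := hT
    _ = n ^ s * nSub s ^ 2 * c := by ring

end Pool.Agent.GcS
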