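import Pool.Agent.GcS.Defs

/-!
MP_7fa120_al, class `Gc`. A chief factor which is not abelian is a direct power of a simple group.

Proof. Let `M' = M / N` (a group, as `N` is normal), on which `G` acts by conjugation; the only normal subgroups of `M'` invariant under `G` are `1` and `M'`, and `M'` is not
abelian. Let `T` be a minimal normal subgroup of `M'`. The images `T^g`, `g ∈ G`, are minimal normal subgroups of `M'`, and their join is invariant, so
it is `M'`. Choose a maximal list `T_1, …, T_r` of such images which is independent (`T_(i+1) ⊓ (T_1 ⊔ … ⊔ T_i) = ⊥` for all `i`); let `P` be the join. If some `T^g` is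
not contained in `P` then `T^g ⊓ P = ⊥` by minimality and the list can be extended. So `P = M'`, the internal direct product of the `T_i` (they commute, being
normal with trivial intersection). A normal subgroup of `T_1` is normal in `M'`, so `T_1` is simple; it is not abelian because all `T_i` are
isomorphic to it and `M'` is not abelian. So `M' ≅ T_1 ^ r`. Finally `2 ^ r ≤ |M'| ≤ |G|`.
-/

set_option autoImplicit false

namespace Pool.Agent.GcS

open Pool.Agent.SvS

private def Iv {G : Type} [Group G] (M S : Subgroup G) : Prop := ∀ m ∈ M, ∀ s ∈ S, m * s * m⁻¹ ∈ S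

private def cj {G : Type} [Group G] (g : G) (S : Subgroup G) : Subgroup G :=
  S.map (MulAut.conj g).toMonoidHom

private theorem mem_cj {G : Type} [Group G] {g x : G} {S : Subgroup G} :
    x ∈ cj g S ↔ g⁻¹ * x * g ∈ S := by
  unfold cj
  rw [Subgroup.mem_map]
  constructor
  · rintro ⟨s, hs, rfl⟩
    have h : g⁻¹ * ((MulAut.conj g).toMonoidHom s) * g = s := by
      change g⁻¹ * (g * s * g⁻¹) * g = s
      group
    rwa [h]
  · intro h
    refine ⟨_, h, ?_⟩
    change g * (g⁻¹ * x * g) * g⁻¹ = x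
    group

/-- a minimal nontrivial subgroup of `M` invariant under `M` -/
private structure MN {G : Type} [Group G] (M S : Subgroup G) : Prop where
  le : S ≤ M
  ne : S ≠ ⊥
  inv : Iv M S
  min : ∀ S' : Subgroup G, S' ≤ S → Iv M S' → S' = ⊥ ∨ S' = S

private theorem iv_cj {G : Type} [Group G] {M S : Subgroup G} (hM : M.Normal) (h : Iv M S) (g : G) :
    Iv M (cj g S) := by
  intro m hm s hs
  rw [mem_cj] at hs ⊢
  have h1 : g⁻¹ * m * g ∈ M := by
    have := hM.conj_mem m hm g⁻¹
    rwa [inv_inv] at this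
  have h2 := h _ h1 _ hs
  have h3 : g⁻¹ * m * g * (g⁻¹ * s * g) * (g⁻¹ * m * g)⁻¹ = g⁻¹ * (m * s * m⁻¹) * g := by group
  rwa [h3] at h2

private theorem cj_cj {G : Type} [Group G] (g : G) (S : Subgroup G) : cj g (cj g⁻¹ S) = S := by
  ext x
  rw [mem_cj, mem_cj]
  have h : g⁻¹⁻¹ * (g⁻¹ * x * g) * g⁻¹ = x := by group
  rw [h]

private theorem cj_bot {G : Type} [Group G] (g : G) : cj g (⊥ : Subgroup G) = ⊥ := by
  unfold cj
  exact Subgroup.map_bot _

private theorem cj_mono {G : Type} [Group G] {g : G} {S S' : Subgroup G} (h : S ≤ S') :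
    cj g S ≤ cj g S' := Subgroup.map_mono h

private theorem mn_cj {G : Type} [Group G] {M S : Subgroup G} (hM : M.Normal) (h : MN M S) (g : G) :
    MN M (cj g S) := by
  have hback : cj g⁻¹ (cj g S) = S := by
    have := cj_cj g⁻¹ S
    rwa [inv_inv] at this
  refine ⟨?_, ?_, iv_cj hM h.inv g, ?_⟩
  · intro x hx
    rw [mem_cj] at hx
    have h1 := hM.conj_mem _ (h.le hx) g
    have h2 : g * (g⁻¹ * x * g) * g⁻¹ = x := by group
    rwa [h2] at h1
  · intro h1
    apply h.ne
    rw [← hback, h1, cj_bot]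
  · intro S' hS' hiv
    have h1 : cj g⁻¹ S' ≤ S := by
      rw [← hback]
      exact cj_mono hS'
    rcases h.min _ h1 (iv_cj hM hiv g⁻¹) with h2 | h2
    · left
      rw [← cj_cj g S', h2, cj_bot]
    · right
      rw [← cj_cj g S', h2]

private theorem exists_mn {G : Type} [Group G] [Finite G] {M : Subgroup G} (hne : M ≠ ⊥) :
    ∃ S : Subgroup G, MN M S := by
  classical
  have hex : ∃ n : ℕ, ∃ S : Subgroup G, S ≤ M ∧ S ≠ ⊥ ∧ Iv M S ∧ Nat.card S = n :=
    ⟨_, M, le_rfl, hne, fun m hm s hs => M.mul_mem (M.mul_mem hm hs) (M.inv_mem hm), rfl⟩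
  obtain ⟨S, h1, h2, h3, h4⟩ := Nat.find_spec hex
  refine ⟨S, h1, h2, h3, fun S' hS' hiv => ?_⟩
  by_cases hb : S' = ⊥
  · exact Or.inl hb
  · right
    have h5 : Nat.find hex ≤ Nat.card S' := Nat.find_min' hex ⟨S', hS'.trans h1, hb, hiv, rfl⟩
    exact Subgroup.eq_of_le_of_card_ge hS' (by rw [h4]; exact h5)

private theorem comm_of {G : Type} [Group G] {M A B : Subgroup G} (hA : Iv M A) (hB : Iv M B)
    (hAM : A ≤ M) (hBM : B ≤ M) (h : A ⊓ B = ⊥) : ∀ a ∈ A, ∀ b ∈ B, a * b = b * a := by
  intro a ha b hb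
  have h1 : a * b * a⁻¹ * b⁻¹ ∈ A ⊓ B := by
    refine ⟨?_, B.mul_mem (hB a (hAM ha) b hb) (B.inv_mem hb)⟩
    have h2 := A.mul_mem ha (hA b (hBM hb) _ (A.inv_mem ha))
    have h3 : a * (b * a⁻¹ * b⁻¹) = a * b * a⁻¹ * b⁻¹ := by group
    rwa [h3] at h2
  rw [h, Subgroup.mem_bot] at h1
  calc a * b = (a * b * a⁻¹ * b⁻¹) * (b * a) := by group
    _ = b * a := by rw [h1, one_mul]

private noncomputable def consE (T : Type) [Group T] (i : ℕ) : ((Fin i → T) × T) ≃* (Fin (i + 1) → T) where
  toFun p := Fin.cons p.2 p.1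
  invFun f := (Fin.tail f, f 0)
  left_inv p := by
    refine Prod.ext ?_ ?_
    · funext j
      rfl
    · rfl
  right_inv f := Fin.cons_self_tail f
  map_mul' p q := by
    funext j
    refine Fin.cases ?_ (fun k => ?_) j
    · rfl
    · rfl

private theorem min_dec {G : Type} [Group G] [Finite G] {M : Subgroup G} (hM : M.Normal)
    (hne : M ≠ ⊥) (hmin : ∀ T : Subgroup G, T.Normal → T ≤ M → T = ⊥ ∨ T = M)
    (hna : ¬ ∀ a ∈ M, ∀ b ∈ M, a * b = b * a) :
    ∃ (S : Subgroup G) (r : ℕ), IsSimpleGroup S ∧ (∃ a b : S, a * b ≠ b * a) ∧ 1 ≤ r ∧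
      Nonempty (M ≃* (Fin r → S)) := by
  classical
  obtain ⟨S, hS⟩ := exists_mn hne
  -- `M` is generated by the conjugates of `S`
  have hgen : ∀ W : Subgroup G, (∀ g, cj g S ≤ W) → M ≤ W := by
    intro W hW
    have h1 : Subgroup.normalClosure (S : Set G) = M := by
      rcases hmin _ Subgroup.normalClosure_normal (Subgroup.normalClosure_le_normal hS.le) with h | h
      · exfalso
        apply hS.ne
        rw [eq_bot_iff, ← h]
        exact Subgroup.subset_normalClosure
      · exact h
    rw [← h1]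
    unfold Subgroup.normalClosure
    rw [Subgroup.closure_le]
    intro x hx
    obtain ⟨a, ha, hax⟩ := Group.mem_conjugatesOfSet_iff.1 hx
    obtain ⟨c, rfl⟩ := isConj_iff.1 hax
    refine hW c ?_
    rw [mem_cj]
    have h2 : c⁻¹ * (c * a * c⁻¹) * c = a := by group
    rw [h2]
    exact ha
  -- a maximal power of `S`
  have hex : ∃ n : ℕ, ∃ P : Subgroup G, P ≤ M ∧ Iv M P ∧ (∃ i : ℕ, Nonempty (P ≃* (Fin i → S))) ∧
      Nat.card G - Nat.card P = n := by
    refine ⟨_, ⊥, bot_le, ?_, ⟨0, ⟨?_⟩⟩, rfl⟩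
    · intro m _ s hs
      rw [Subgroup.mem_bot] at hs ⊢
      rw [hs]
      group
    · have : Unique (⊥ : Subgroup G) := inferInstance
      exact MulEquiv.ofUnique
  obtain ⟨P, hP1, hP2, ⟨i, ⟨e⟩⟩, hP4⟩ := Nat.find_spec hex
  have hmax : ∀ P' : Subgroup G, P' ≤ M → Iv M P' → (∃ i : ℕ, Nonempty (P' ≃* (Fin i → S))) →
      Nat.card P' ≤ Nat.card P := by
    intro P' h1 h2 h3
    have h4 : Nat.find hex ≤ Nat.card G - Nat.card P' := Nat.find_min' hex ⟨P', h1, h2, h3, rfl⟩
    have h5 : Nat.card P' ≤ Nat.card G := Subgroup.card_le_card_group P'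
    have h6 : Nat.card P ≤ Nat.card G := Subgroup.card_le_card_group P
    omega
  have hPM : P = M := by
    by_contra hcon
    have h1 : ∃ g, ¬ cj g S ≤ P := by
      by_contra h
      push Not at h
      exact hcon (le_antisymm hP1 (hgen P h))
    obtain ⟨g, hg⟩ := h1
    obtain ⟨A, hA⟩ : ∃ A : Subgroup G, A = cj g S := ⟨_, rfl⟩
    have hAmn : MN M A := by
      rw [hA]
      exact mn_cj hM hS g
    have hinter : P ⊓ A = ⊥ := by
      rcases hAmn.min (P ⊓ A) inf_le_right (fun m hm s hs => ⟨hP2 m hm s hs.1, hAmn.inv m hm s hs.2⟩)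
        with h | h
      · exact h
      · exfalso
        apply hg
        rw [← hA, ← h]
        exact inf_le_left
    have hcomm := comm_of hP2 hAmn.inv hP1 hAmn.le hinter
    have hcomm' : ∀ (m : P) (n : A), Commute (P.subtype m) (A.subtype n) := fun m n =>
      hcomm m.1 m.2 n.1 n.2
    have hinj : Function.Injective (P.subtype.noncommCoprod A.subtype hcomm') := by
      rw [MonoidHom.noncommCoprod_injective]
      refine ⟨Subtype.val_injective, Subtype.val_injective, ?_⟩
      rw [Subgroup.range_subtype, Subgroup.range_subtype, disjoint_iff]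
      exact hinter
    have hrange : (P.subtype.noncommCoprod A.subtype hcomm').range = P ⊔ A := by
      rw [MonoidHom.noncommCoprod_range, Subgroup.range_subtype, Subgroup.range_subtype]
    have e1 : (P × A) ≃* ((P ⊔ A : Subgroup G)) :=
      (MonoidHom.ofInjective hinj).trans (MulEquiv.subgroupCongr hrange)
    have e2 : S ≃* A := (Subgroup.equivMapOfInjective S (MulAut.conj g).toMonoidHom
      (MulAut.conj g).injective).trans (MulEquiv.subgroupCongr hA.symm)
    have e3 : ((P ⊔ A : Subgroup G)) ≃* (Fin (i + 1) → S) :=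
      (e1.symm.trans (MulEquiv.prodCongr e e2.symm)).trans (consE S i)
    have h2 := hmax (P ⊔ A) (sup_le hP1 hAmn.le) (by
      intro m hm s hs
      have h3 : (P ⊔ A).map (MulAut.conj m).toMonoidHom ≤ P ⊔ A := by
        rw [Subgroup.map_sup]
        refine sup_le_sup ?_ ?_
        · rintro x ⟨y, hy, rfl⟩
          exact hP2 m hm y hy
        · rintro x ⟨y, hy, rfl⟩
          exact hAmn.inv m hm y hy
      exact h3 ⟨s, hs, rfl⟩) ⟨i + 1, ⟨e3⟩⟩
    have h3 : P = P ⊔ A := Subgroup.eq_of_le_of_card_ge le_sup_left h2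
    apply hg
    rw [← hA, h3]
    exact le_sup_right
  subst hPM
  refine ⟨S, i, ?_, ?_, ?_, ⟨e⟩⟩
  · have hnt : Nontrivial S := (Subgroup.nontrivial_iff_ne_bot S).2 hS.ne
    refine ⟨fun K hK => ?_⟩
    obtain ⟨K', hK'⟩ : ∃ K' : Subgroup G, K' = K.map S.subtype := ⟨_, rfl⟩
    have hle : K' ≤ S := by
      rw [hK']
      exact Subgroup.map_subtype_le K
    have hiv : Iv P K' := by
      have h1 : P ≤ Subgroup.normalizer (K' : Set G) := by
        refine hgen _ fun g => ?_
        intro x hx
        refine Subgroup.mem_normalizer_fintype fun y hy => ?_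
        have hy' : y ∈ K' := hy
        by_cases hgS : cj g S = S
        · rw [hgS] at hx
          rw [hK'] at hy' ⊢
          obtain ⟨z, hz, rfl⟩ := hy'
          exact ⟨⟨x, hx⟩ * z * ⟨x, hx⟩⁻¹, hK.conj_mem z hz ⟨x, hx⟩, rfl⟩
        · have hmn := mn_cj hM hS g
          have h2 : cj g S ⊓ S = ⊥ := by
            rcases hS.min (cj g S ⊓ S) inf_le_right
              (fun m hm s hs => ⟨hmn.inv m hm s hs.1, hS.inv m hm s hs.2⟩) with h | h
            · exact h
            · rcases hmn.min (cj g S ⊓ S) inf_le_left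
                (fun m hm s hs => ⟨hmn.inv m hm s hs.1, hS.inv m hm s hs.2⟩) with h' | h'
              · exact h'
              · exact absurd (h'.symm.trans h) hgS
          have h3 := comm_of hmn.inv hS.inv hmn.le hS.le h2 x hx y (hle hy')
          rw [h3]
          have h4 : y * x * x⁻¹ = y := by group
          rw [h4]
          exact hy
      intro m hm s hs
      exact (Subgroup.mem_normalizer_iff.1 (h1 hm) s).1 hs
    rcases hS.min K' hle hiv with h | h
    · left
      rw [hK'] at h
      exact (Subgroup.map_eq_bot_iff_of_injective K Subtype.val_injective).1 h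
    · right
      rw [eq_top_iff]
      intro z _
      have h1 : (z : G) ∈ K' := by
        rw [h]
        exact z.2
      rw [hK'] at h1
      obtain ⟨w, hw, hwz⟩ := h1
      have h2 : w = z := Subtype.ext hwz
      rwa [h2] at hw
  · by_contra hcon
    push Not at hcon
    apply hna
    intro a ha b hb
    have h1 : (⟨a, ha⟩ : P) * ⟨b, hb⟩ = ⟨b, hb⟩ * ⟨a, ha⟩ := by
      apply e.injective
      rw [map_mul, map_mul]
      funext j
      exact hcon _ _
    exact congrArg Subtype.val h1
  · by_contra hcon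
    have h0 : i = 0 := by omega
    subst h0
    apply hne
    rw [Subgroup.eq_bot_iff_forall]
    intro x hx
    have h1 : (⟨x, hx⟩ : P) = 1 := by
      apply e.injective
      funext j
      exact j.elim0
    exact congrArg Subtype.val h1

theorem ch_dec {G : Type} [Group G] [Finite G] {N M : Subgroup G} (h : Chief N M) (hna : ¬ Ab N M) :
    ∃ (T : Type) (_ : Group T) (_ : Finite T) (r : ℕ) (f : M →* (Fin r → T)), Function.Surjective f ∧
      (∀ x : M, f x = 1 ↔ (x : G) ∈ N) ∧ IsSimpleGroup T ∧ (∃ a b : T, a * b ≠ b * a) ∧ 1 ≤ r ∧ 2 ^ r ≤ Nat.card G := by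
  obtain ⟨hN, hM, hlt, hmin⟩ := h
  have hker : ∀ x : G, (QuotientGroup.mk' N) x = 1 ↔ x ∈ N := fun x => QuotientGroup.eq_one_iff x
  have hsurj : Function.Surjective (QuotientGroup.mk' N) := QuotientGroup.mk'_surjective N
  have hkerN : (QuotientGroup.mk' N).ker = N := QuotientGroup.ker_mk' N
  obtain ⟨π, hπ⟩ : ∃ π : G →* G ⧸ N, π = QuotientGroup.mk' N := ⟨_, rfl⟩
  rw [← hπ] at hker hsurj hkerN
  have hM' : (M.map π).Normal := hM.map π hsurj
  have hne : M.map π ≠ ⊥ := by
    intro h
    have h1 : M ≤ N := by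
      intro x hx
      rw [← hker x, ← Subgroup.mem_bot, ← h]
      exact ⟨x, hx, rfl⟩
    exact absurd h1 (not_le_of_gt hlt)
  have hmin' : ∀ T : Subgroup (G ⧸ N), T.Normal → T ≤ M.map π → T = ⊥ ∨ T = M.map π := by
    intro T hT hle
    have h1 : (T.comap π).Normal := hT.comap π
    have h2 : N ≤ T.comap π := by
      intro x hx
      rw [Subgroup.mem_comap, (hker x).2 hx]
      exact T.one_mem
    have h3 : T.comap π ≤ M := by
      intro x hx
      obtain ⟨m, hm, hmx⟩ := hle hx
      have h4 : m⁻¹ * x ∈ N := by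
        rw [← hker, map_mul, map_inv, hmx, inv_mul_cancel]
      have h5 := M.mul_mem hm (hlt.le h4)
      have h6 : m * (m⁻¹ * x) = x := by group
      rwa [h6] at h5
    have h7 := Subgroup.map_comap_eq_self_of_surjective hsurj T
    rcases hmin _ h1 h2 h3 with h | h
    · left
      rw [← h7, h, eq_bot_iff]
      rintro x ⟨y, hy, rfl⟩
      rw [Subgroup.mem_bot]
      exact (hker y).2 hy
    · right
      rw [← h7, h]
  have hna' : ¬ ∀ a ∈ M.map π, ∀ b ∈ M.map π, a * b = b * a := by
    intro hc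
    apply hna
    intro a ha b hb
    have h1 := hc (π a) ⟨a, ha, rfl⟩ (π b) ⟨b, hb, rfl⟩
    rw [← hker]
    rw [map_mul, map_mul, map_mul, map_inv, map_inv, h1]
    group
  obtain ⟨S, r, hs, ⟨a, b, hab⟩, hr, ⟨e⟩⟩ := min_dec hM' hne hmin' hna'
  refine ⟨S, inferInstance, inferInstance, r, e.toMonoidHom.comp (π.subgroupMap M), ?_, ?_, hs,
    ⟨a, b, hab⟩, hr, ?_⟩
  · intro y
    obtain ⟨z, hz⟩ := e.surjective y
    obtain ⟨x, hx⟩ := π.subgroupMap_surjective M z
    refine ⟨x, ?_⟩
    change e (π.subgroupMap M x) = y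
    rw [hx, hz]
  · intro x
    change e (π.subgroupMap M x) = 1 ↔ (x : G) ∈ N
    rw [MulEquiv.map_eq_one_iff, ← hker]
    constructor
    · intro h
      exact congrArg Subtype.val h
    · intro h
      exact Subtype.ext h
  · have h1 : 2 ≤ Nat.card S := by
      have h2 : Nontrivial S := ⟨a * b, b * a, hab⟩
      exact Finite.one_lt_card
    have h2 : Nat.card (M.map π) = Nat.card S ^ r := by
      rw [Nat.card_congr e.toEquiv, Nat.card_fun, Nat.card_eq_fintype_card (α := Fin r),
        Fintype.card_fin]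
    calc 2 ^ r ≤ Nat.card S ^ r := Nat.pow_le_pow_left h1 r
      _ = Nat.card (M.map π) := h2.symm
      _ ≤ Nat.card (G ⧸ N) := Subgroup.card_le_card_group _
      _ ≤ Nat.card G := Nat.card_le_card_of_surjective _ hsurj

end Pool.Agent.GcS
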