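import Pool.Agent.GcS.Defs

/-!
MP_7fa120_al, class `Gc`. Generators of a direct power of a simple group.

Proof. `T` is generated by `B` elements `a_1, …, a_B` (a group of order at most `2 ^ B` is generated by `B` elements, pad with `1`; compare
`Pool.Agent.AbS.exists_fin_closure`). Choose different vectors `y_1, …, y_r ∈ T ^ u` (`r ≤ 2 ^ u ≤ |T| ^ u`). Let `W ≤ T ^ r` be generated by the constant vectors
`(a_i, …, a_i)`, `i ≤ B`, and the vectors `h_j = (y_1 j, …, y_r j)`, `j ≤ u`. `W` projects onto every coordinate, as it contains all constant vectors.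
Claim (*): for `s ≠ t` and `a ∈ T` there is `w ∈ W` with `w s = a`, `w t = 1`. These `a` are a normal subgroup; if it is trivial then `w t` determines `w s`
for `w ∈ W`, and comparison with the constant vector `w t` gives `w s = w t`, a contradiction for `w = h_j`. Claim (**): `W = T ^ r`. For `s ∉ A` the elements
`w s`, `w ∈ W`, `w t = 1` for `t ∈ A`, are a normal subgroup `N_A`; `N_(A ∪ {t})` contains the commutators of `N_A` and `N_(t)`. So `N_A = T` by induction.
-/

set_option autoImplicit false

namespace Pool.Agent.GcS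

/-- A group of order at most `2 ^ B` is generated by `B` elements. -/
private theorem few_gen (T : Type) [Group T] [Finite T] (B : ℕ) (hB : Nat.card T ≤ 2 ^ B) :
    ∃ S : Finset T, S.card ≤ B ∧ Subgroup.closure (S : Set T) = ⊤ := by
  classical
  have key : ∀ j : ℕ, ∃ S : Finset T, S.card ≤ j ∧ (Subgroup.closure (S : Set T) = ⊤ ∨
      2 ^ j ≤ Nat.card (Subgroup.closure (S : Set T))) := by
    intro j
    induction j with
    | zero =>
      refine ⟨∅, by simp, Or.inr ?_⟩
      rw [pow_zero]
      exact Nat.card_pos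
    | succ j ih =>
      obtain ⟨S, hS, hf⟩ := ih
      by_cases htop : Subgroup.closure (S : Set T) = ⊤
      · exact ⟨S, by omega, Or.inl htop⟩
      · have hcard := hf.resolve_left htop
        obtain ⟨x, hx⟩ : ∃ x : T, x ∉ Subgroup.closure (S : Set T) := by
          by_contra hcon
          push Not at hcon
          exact htop (eq_top_iff.2 fun x _ => hcon x)
        refine ⟨insert x S, (Finset.card_insert_le _ _).trans (by omega), Or.inr ?_⟩
        have hAB : Subgroup.closure (S : Set T) ≤ Subgroup.closure ((insert x S : Finset T) : Set T) :=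
          Subgroup.closure_mono (by exact_mod_cast Finset.subset_insert x S)
        have hxB : x ∈ Subgroup.closure ((insert x S : Finset T) : Set T) :=
          Subgroup.subset_closure (by simp)
        obtain ⟨c, hc⟩ := Subgroup.card_dvd_of_le hAB
        have hBpos : 0 < Nat.card (Subgroup.closure ((insert x S : Finset T) : Set T)) := Nat.card_pos
        have hc0 : c ≠ 0 := by
          rintro rfl
          rw [hc] at hBpos
          simp at hBpos
        have hc1 : c ≠ 1 := by
          rintro rfl
          rw [mul_one] at hc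
          have h3 := Subgroup.eq_of_le_of_card_ge hAB (le_of_eq hc)
          rw [h3] at hx
          exact hx hxB
        have hc2 : 2 ≤ c := by omega
        calc 2 ^ (j + 1) = 2 ^ j * 2 := pow_succ _ _
          _ ≤ Nat.card (Subgroup.closure (S : Set T)) * c := Nat.mul_le_mul hcard hc2
          _ = _ := hc.symm
  obtain ⟨S, hS, hf⟩ := key B
  refine ⟨S, hS, ?_⟩
  rcases hf with hf | hf
  · exact hf
  · exact Subgroup.eq_top_of_card_eq _
      (le_antisymm (Subgroup.card_le_card_group _) (hB.trans hf))

/-- The elements `w s`, `w ∈ W`, `w = 1` on `A`. -/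
private def NA {T : Type} [Group T] {r : ℕ} (W : Subgroup (Fin r → T)) (s : Fin r) (A : Finset (Fin r)) :
    Subgroup T where
  carrier := {a | ∃ w ∈ W, w s = a ∧ ∀ t ∈ A, w t = 1}
  one_mem' := ⟨1, W.one_mem, rfl, fun _ _ => rfl⟩
  mul_mem' := by
    rintro a b ⟨w, hw, rfl, h1⟩ ⟨w', hw', rfl, h2⟩
    refine ⟨w * w', W.mul_mem hw hw', rfl, fun t ht => ?_⟩
    rw [Pi.mul_apply, h1 t ht, h2 t ht, mul_one]
  inv_mem' := by
    rintro a ⟨w, hw, rfl, h1⟩
    refine ⟨w⁻¹, W.inv_mem hw, rfl, fun t ht => ?_⟩
    rw [Pi.inv_apply, h1 t ht, inv_one]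

private theorem mem_NA {T : Type} [Group T] {r : ℕ} {W : Subgroup (Fin r → T)} {s : Fin r} {A : Finset (Fin r)}
    {a : T} : a ∈ NA W s A ↔ ∃ w ∈ W, w s = a ∧ ∀ t ∈ A, w t = 1 := Iff.rfl

private theorem NA_normal {T : Type} [Group T] {r : ℕ} {W : Subgroup (Fin r → T)}
    (hW : ∀ a : T, (fun _ => a : Fin r → T) ∈ W) (s : Fin r) (A : Finset (Fin r)) : (NA W s A).Normal := by
  constructor
  rintro a ⟨w, hw, rfl, h1⟩ g
  refine ⟨(fun _ => g) * w * (fun _ => g)⁻¹, W.mul_mem (W.mul_mem (hW g) hw) (W.inv_mem (hW g)), rfl,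
    fun t ht => ?_⟩
  rw [Pi.mul_apply, Pi.mul_apply, h1 t ht, Pi.inv_apply, mul_one, mul_inv_cancel]

theorem pow_gen (T : Type) [Group T] [Finite T] (hs : IsSimpleGroup T) (hn : ∃ a b : T, a * b ≠ b * a) (r u B : ℕ)
    (hr : r ≤ 2 ^ u) (hB : Nat.card T ≤ 2 ^ B) :
    ∃ S : Finset (Fin r → T), S.card ≤ B + u ∧ Subgroup.closure (S : Set (Fin r → T)) = ⊤ := by
  classical
  obtain ⟨S₀, hS₀, hcl⟩ := few_gen T B hB
  -- different vectors
  obtain ⟨y⟩ : Nonempty (Fin r ↪ (Fin u → T)) := by
    have : Fintype T := Fintype.ofFinite T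
    apply Function.Embedding.nonempty_of_card_le
    rw [Fintype.card_fin, Fintype.card_fun, Fintype.card_fin]
    refine hr.trans (Nat.pow_le_pow_left ?_ u)
    obtain ⟨a, b, hab⟩ := hn
    have : Nontrivial T := ⟨a, b, fun h => hab (by rw [h])⟩
    exact Fintype.one_lt_card
  let S : Finset (Fin r → T) := S₀.image (fun a _ => a) ∪ Finset.univ.image (fun j : Fin u => fun i => y i j)
  refine ⟨S, ?_, ?_⟩
  · refine (Finset.card_union_le _ _).trans (Nat.add_le_add (Finset.card_image_le.trans hS₀) ?_)
    refine Finset.card_image_le.trans ?_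
    rw [Finset.card_univ, Fintype.card_fin]
  set W := Subgroup.closure (S : Set (Fin r → T)) with hWdef
  -- constant vectors
  have hconst : ∀ a : T, (fun _ => a : Fin r → T) ∈ W := by
    let c : T →* (Fin r → T) := Pi.constMonoidHom (Fin r) T
    have h1 : (⊤ : Subgroup T) ≤ W.comap c := by
      rw [← hcl, Subgroup.closure_le]
      intro a ha
      refine Subgroup.subset_closure ?_
      exact Finset.mem_coe.2 (Finset.mem_union_left _ (Finset.mem_image_of_mem _ (Finset.mem_coe.1 ha)))
    intro a
    exact h1 (Subgroup.mem_top a)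
  have hy : ∀ j : Fin u, (fun i => y i j : Fin r → T) ∈ W := fun j =>
    Subgroup.subset_closure (Finset.mem_coe.2 (Finset.mem_union_right _
      (Finset.mem_image_of_mem _ (Finset.mem_univ j))))
  have hnorm := NA_normal hconst
  -- claim (*)
  have hstar : ∀ s t : Fin r, s ≠ t → NA W s {t} = ⊤ := by
    intro s t hst
    rcases (hnorm s {t}).eq_bot_or_eq_top with h | h
    · exfalso
      apply hst
      apply y.injective
      funext j
      have h1 : y s j * (y t j)⁻¹ ∈ NA W s {t} := by
        refine ⟨(fun i => y i j) * (fun _ => y t j)⁻¹, W.mul_mem (hy j) (W.inv_mem (hconst _)), rfl, ?_⟩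
        intro t' ht'
        rw [Finset.mem_singleton] at ht'
        subst ht'
        rw [Pi.mul_apply, Pi.inv_apply, mul_inv_cancel]
      rw [h, Subgroup.mem_bot] at h1
      exact mul_inv_eq_one.1 h1
    · exact h
  -- claim (**)
  have hall : ∀ (s : Fin r) (A : Finset (Fin r)), s ∉ A → NA W s A = ⊤ := by
    intro s A
    induction A using Finset.induction_on with
    | empty =>
      intro _
      rw [eq_top_iff]
      intro a _
      exact ⟨fun _ => a, hconst a, rfl, fun t ht => absurd ht (Finset.notMem_empty t)⟩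
    | insert t A htA ih =>
      intro hsA
      rw [Finset.mem_insert, not_or] at hsA
      have h1 := ih hsA.2
      have h2 := hstar s t hsA.1
      rcases (hnorm s (insert t A)).eq_bot_or_eq_top with h | h
      · exfalso
        obtain ⟨a, b, hab⟩ := hn
        obtain ⟨w, hw, hws, hwA⟩ := mem_NA.1 (h1 ▸ Subgroup.mem_top a : a ∈ NA W s A)
        obtain ⟨w', hw', hws', hwt⟩ := mem_NA.1 (h2 ▸ Subgroup.mem_top b : b ∈ NA W s {t})
        have h3 : a * b * a⁻¹ * b⁻¹ ∈ NA W s (insert t A) := by
          refine ⟨w * w' * w⁻¹ * w'⁻¹, W.mul_mem (W.mul_mem (W.mul_mem hw hw') (W.inv_mem hw)) (W.inv_mem hw'),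
            ?_, ?_⟩
          · simp only [Pi.mul_apply, Pi.inv_apply, hws, hws']
          · intro i hi
            rw [Finset.mem_insert] at hi
            rcases hi with rfl | hi
            · have := hwt i (Finset.mem_singleton_self i)
              simp only [Pi.mul_apply, Pi.inv_apply, this, mul_one, inv_one, mul_inv_cancel]
            · have := hwA i hi
              simp only [Pi.mul_apply, Pi.inv_apply, this, one_mul, inv_one, mul_one, mul_inv_cancel]
        rw [h, Subgroup.mem_bot] at h3
        apply hab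
        have h4 : a * b * a⁻¹ = b := mul_inv_eq_one.1 h3
        calc a * b = a * b * a⁻¹ * a := by group
          _ = b * a := by rw [h4]
      · exact h
  rw [eq_top_iff]
  intro x _
  refine Subgroup.pi_mem_of_mulSingle_mem x fun i => ?_
  have h1 : x i ∈ NA W i (Finset.univ.erase i) := by
    rw [hall i _ (Finset.notMem_erase i _)]
    exact Subgroup.mem_top _
  obtain ⟨w, hw, hwi, hwA⟩ := h1
  have h2 : Pi.mulSingle i (x i) = w := by
    funext t
    by_cases ht : t = i
    · subst ht
      rw [Pi.mulSingle_eq_same, hwi]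
    · rw [Pi.mulSingle_eq_of_ne ht, hwA t (Finset.mem_erase.2 ⟨ht, Finset.mem_univ t⟩)]
  rw [h2]
  exact hw

end Pool.Agent.GcS
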