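import Pool.Agent.GcS.Defs

/-!
MP_7fa120_al, class `Gc`. Many maximal subgroups of the same index.

Proof. Let `q = N.relIndex M`. For `m : Fin k → M` let `L m` be a maximal subgroup containing `Y ⊔ closure {x i * m i} ⊔ N ≠ ⊤`; `L m ⊔ M = ⊤` (it contains `Y`, `M` and
all `x i`), so `M` is not contained in `L m`, and `L m ∈ Mx Y N M j` with `j = (L m).index = (L m ⊓ M).relIndex M ≥ 2`, a divisor of `q`. `L m` may be chosen depending
only on the cosets `m i N` (there are `q ^ k` such tuples). A given `L ∈ Mx Y N M j` is `L m` for at most `(q / j) ^ k` tuples of cosets: if `L m = L m' = L` then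
`(m i)⁻¹ * m' i ∈ L ⊓ M`, and `N.relIndex (L ⊓ M) = q / j`. So `q ^ k ≤ ∑_(j ≥ 2) |Mx Y N M j| (q / j) ^ k`. If `|Mx Y N M j| < j ^ (k - 2)` for all `j ≥ 2` the right side would be
at most `q ^ k * ∑_(j ≥ 2) 1 / j ^ 2 < q ^ k` (`∑_(j ≥ 2) 1 / j ^ 2 ≤ ∑ 1 / (j (j - 1)) = 1` for finite sums less than 1), a contradiction.
-/

set_option autoImplicit false

namespace Pool.Agent.GcS

private theorem bj_card {G : Type} [Group G] [Finite G] {L M : Subgroup G} (hM : M.Normal)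
    (h : L ⊔ M = ⊤) : Nat.card (L ⊓ M : Subgroup G) * L.index = Nat.card M := by
  have h1 : M.relIndex L = M.index := by
    rw [← Subgroup.relIndex_sup_right, h, Subgroup.relIndex_top_right]
  have h2 : Nat.card (L ⊓ M : Subgroup G) * M.relIndex L = Nat.card L := by
    rw [← Subgroup.inf_relIndex_right M L, inf_comm M L, ← Subgroup.relIndex_bot_left (L ⊓ M),
      ← Subgroup.relIndex_bot_left L]
    exact Subgroup.relIndex_mul_relIndex _ _ _ bot_le inf_le_left
  have h3 : Nat.card M * M.index = Nat.card G := Subgroup.card_mul_index M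
  have h4 : Nat.card L * L.index = Nat.card G := Subgroup.card_mul_index L
  have h5 : 0 < M.index := Nat.pos_of_ne_zero Subgroup.index_ne_zero_of_finite
  apply Nat.eq_of_mul_eq_mul_right h5
  rw [h3, ← h4, ← h2, h1]
  ring

private theorem bj_S {G : Type} [Group G] [Finite G] {k : ℕ} (x : Fin k → G) (L M : Subgroup G) :
    Nat.card {m : Fin k → M // ∀ i, x i * m i ∈ L} ≤ Nat.card (L ⊓ M : Subgroup G) ^ k := by
  classical
  rcases isEmpty_or_nonempty {m : Fin k → M // ∀ i, x i * m i ∈ L} with h | ⟨m0, hm0⟩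
  · rw [Nat.card_of_isEmpty]
    exact Nat.zero_le _
  · have h1 : ∀ m : {m : Fin k → M // ∀ i, x i * m i ∈ L}, ∀ i,
        ((m0 i : G))⁻¹ * (m.1 i : G) ∈ L ⊓ M := by
      rintro ⟨m, hm⟩ i
      refine Subgroup.mem_inf.2 ⟨?_, M.mul_mem (M.inv_mem (m0 i).2) (m i).2⟩
      have h2 := L.mul_mem (L.inv_mem (hm0 i)) (hm i)
      rwa [mul_inv_rev, mul_assoc, inv_mul_cancel_left] at h2
    have h3 : Function.Injective
        fun (m : {m : Fin k → M // ∀ i, x i * m i ∈ L}) (i : Fin k) =>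
          (⟨((m0 i : G))⁻¹ * (m.1 i : G), h1 m i⟩ : (L ⊓ M : Subgroup G)) := by
      rintro ⟨m, hm⟩ ⟨m', hm'⟩ h
      refine Subtype.ext (funext fun i => Subtype.ext ?_)
      have h4 := congrArg Subtype.val (congrFun h i)
      exact mul_left_cancel h4
    calc Nat.card {m : Fin k → M // ∀ i, x i * m i ∈ L} ≤ Nat.card (Fin k → (L ⊓ M : Subgroup G)) :=
          Nat.card_le_card_of_injective _ h3
      _ = Nat.card (L ⊓ M : Subgroup G) ^ k := by
          rw [Nat.card_fun, Nat.card_eq_fintype_card (α := Fin k), Fintype.card_fin]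

theorem bad_j {G : Type} [Group G] [Finite G] (Y N M : Subgroup G) (hN : N.Normal) (hM : M.Normal) (hNM : N ≤ M) (k : ℕ)
    (hk : 2 ≤ k) (x : Fin k → G) (hx : Y ⊔ Subgroup.closure (Set.range x) ⊔ M = ⊤)
    (hb : ∀ m : Fin k → G, (∀ i, m i ∈ M) → Y ⊔ Subgroup.closure (Set.range (fun i => x i * m i)) ⊔ N ≠ ⊤) :
    ∃ j : ℕ, 2 ≤ j ∧ j ^ (k - 2) ≤ Nat.card (Mx Y N M j) := by
  classical
  by_contra hcon
  push Not at hcon
  have : Fintype (Subgroup G) := Fintype.ofFinite _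
  obtain ⟨LL, hLL⟩ : ∃ LL : Finset (Subgroup G), ∀ L, L ∈ LL ↔
      IsCoatom L ∧ N ≤ L ∧ Y ≤ L ∧ L ⊔ M = ⊤ :=
    ⟨Finset.univ.filter fun L => IsCoatom L ∧ N ≤ L ∧ Y ≤ L ∧ L ⊔ M = ⊤, fun L => by simp⟩
  have hcov : ∀ m : Fin k → M, ∃ L ∈ LL, ∀ i, x i * m i ∈ L := by
    intro m
    rcases eq_top_or_exists_le_coatom
      (Y ⊔ Subgroup.closure (Set.range (fun i => x i * (m i : G))) ⊔ N) with h1 | ⟨L, hL, h1⟩
    · exact absurd h1 (hb (fun i => (m i : G)) fun i => (m i).2)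
    · have hY : Y ≤ L := (le_sup_left.trans le_sup_left).trans h1
      have hN' : N ≤ L := le_sup_right.trans h1
      have hxm : ∀ i, x i * m i ∈ L := fun i =>
        ((le_sup_right.trans le_sup_left).trans h1) (Subgroup.subset_closure ⟨i, rfl⟩)
      refine ⟨L, (hLL L).2 ⟨hL, hN', hY, ?_⟩, hxm⟩
      rw [eq_top_iff, ← hx]
      refine sup_le (sup_le (hY.trans le_sup_left) ?_) le_sup_right
      rw [Subgroup.closure_le]
      rintro _ ⟨i, rfl⟩
      have h2 : x i = (x i * m i) * (m i : G)⁻¹ := by rw [mul_inv_cancel_right]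
      rw [h2]
      exact (L ⊔ M).mul_mem (le_sup_left (a := L) (hxm i))
        (le_sup_right (b := M) (M.inv_mem (m i).2))
  have htot : Nat.card M ^ k ≤ ∑ L ∈ LL, Nat.card (L ⊓ M : Subgroup G) ^ k := by
    have : Fintype M := Fintype.ofFinite _
    have h1 : (Finset.univ : Finset (Fin k → M)) ⊆
        LL.biUnion fun L => Finset.univ.filter fun m : Fin k → M => ∀ i, x i * m i ∈ L := by
      intro m _
      obtain ⟨L, hL, h2⟩ := hcov m
      exact Finset.mem_biUnion.2 ⟨L, hL, Finset.mem_filter.2 ⟨Finset.mem_univ _, h2⟩⟩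
    calc Nat.card M ^ k = (Finset.univ : Finset (Fin k → M)).card := by
          rw [Finset.card_univ, Fintype.card_fun, Fintype.card_fin, Nat.card_eq_fintype_card]
      _ ≤ _ := Finset.card_le_card h1
      _ ≤ ∑ L ∈ LL, (Finset.univ.filter fun m : Fin k → M => ∀ i, x i * m i ∈ L).card :=
          Finset.card_biUnion_le
      _ ≤ ∑ L ∈ LL, Nat.card (L ⊓ M : Subgroup G) ^ k := by
          refine Finset.sum_le_sum fun L _ => ?_
          rw [← Nat.subtype_card (p := fun m : Fin k → M => ∀ i, x i * m i ∈ L) _ (fun m => by simp)]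
          exact bj_S x L M
  have hMpos : (0 : ℝ) < Nat.card M := by exact_mod_cast Nat.card_pos
  have hidx : ∀ L ∈ LL, 0 < (L.index : ℝ) := fun L _ => by
    exact_mod_cast Nat.pos_of_ne_zero Subgroup.index_ne_zero_of_finite
  have h1 : (1 : ℝ) ≤ ∑ L ∈ LL, ((L.index : ℝ) ^ k)⁻¹ := by
    have h2 : ((Nat.card M : ℝ)) ^ k ≤ ∑ L ∈ LL, ((Nat.card M : ℝ)) ^ k * ((L.index : ℝ) ^ k)⁻¹ := by
      calc ((Nat.card M : ℝ)) ^ k ≤ ∑ L ∈ LL, (Nat.card (L ⊓ M : Subgroup G) : ℝ) ^ k := by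
            exact_mod_cast htot
        _ = ∑ L ∈ LL, ((Nat.card M : ℝ)) ^ k * ((L.index : ℝ) ^ k)⁻¹ := by
            refine Finset.sum_congr rfl fun L hL => ?_
            rw [← bj_card hM ((hLL L).1 hL).2.2.2, Nat.cast_mul, mul_pow,
              mul_inv_cancel_right₀ (pow_ne_zero _ (hidx L hL).ne')]
    rw [← Finset.mul_sum] at h2
    exact (le_mul_iff_one_le_right (pow_pos hMpos k)).1 h2
  have hmaps : ∀ L ∈ LL, L.index ∈ Finset.Ioc 1 (Nat.card G) := by
    intro L hL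
    rw [Finset.mem_Ioc]
    constructor
    · have h2 : L.index ≠ 0 := Subgroup.index_ne_zero_of_finite
      have h3 : L.index ≠ 1 := fun h => ((hLL L).1 hL).1.1 (Subgroup.index_eq_one.1 h)
      omega
    · exact Nat.le_of_dvd Nat.card_pos L.index_dvd_card
  have h2 : ∑ L ∈ LL, ((L.index : ℝ) ^ k)⁻¹ ≤ ∑ j ∈ Finset.Ioc 1 (Nat.card G), ((j : ℝ) ^ 2)⁻¹ := by
    rw [← Finset.sum_fiberwise_of_maps_to hmaps]
    refine Finset.sum_le_sum fun j hj => ?_
    rw [Finset.mem_Ioc] at hj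
    have h3 : Nat.card (Mx Y N M j) = (LL.filter fun L => L.index = j).card := by
      unfold Mx
      exact Nat.subtype_card _ (fun L => by rw [Finset.mem_filter, hLL]; tauto)
    have h4 : ((LL.filter fun L => L.index = j).card : ℝ) ≤ (j : ℝ) ^ (k - 2) := by
      rw [← h3]
      exact_mod_cast (hcon j (by omega)).le
    have hj0 : (0 : ℝ) < j := by exact_mod_cast (by omega : 0 < j)
    calc ∑ L ∈ LL.filter (fun L => L.index = j), ((L.index : ℝ) ^ k)⁻¹ =
        ∑ L ∈ LL.filter (fun L => L.index = j), ((j : ℝ) ^ k)⁻¹ :=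
          Finset.sum_congr rfl fun L hL => by rw [(Finset.mem_filter.1 hL).2]
      _ = ((LL.filter fun L => L.index = j).card : ℝ) * ((j : ℝ) ^ k)⁻¹ := by
          rw [Finset.sum_const, nsmul_eq_mul]
      _ ≤ (j : ℝ) ^ (k - 2) * ((j : ℝ) ^ k)⁻¹ := by gcongr
      _ = ((j : ℝ) ^ 2)⁻¹ := by
          have h5 : (j : ℝ) ^ k = (j : ℝ) ^ (k - 2) * (j : ℝ) ^ 2 := by
            rw [← pow_add]
            congr 1
            omega
          rw [h5, mul_inv, mul_inv_cancel_left₀ (pow_ne_zero _ hj0.ne')]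
  have hG : (0 : ℝ) < Nat.card G := by exact_mod_cast Nat.card_pos
  have h3 := sum_Ioc_inv_sq_le_sub (α := ℝ) one_ne_zero (Nat.card_pos (α := G))
  have h4 : (0 : ℝ) < (Nat.card G : ℝ)⁻¹ := inv_pos.2 hG
  rw [Nat.cast_one, inv_one] at h3
  linarith

end Pool.Agent.GcS
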