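import Pool.Agent.GcS.NonK

/-!
MP_7fa120_al, class `Gc`. The number of maximal subgroups supplementing a small non-abelian chief factor.

Proof. Let `C = {g : [g, m] ∈ N for all m ∈ M}`, a normal subgroup; `C ⊓ M = N` (it is normal, between `N` and `M`, and not `M`, as `M / N` is not abelian). Let
`q = N.relIndex M ≤ 2 ^ Λ`. `G / C` acts faithfully on `M / N`, which is generated by `Nat.log 2 q ≤ Λ` elements, so `|G / C| ≤ q ^ Λ ≤ 2 ^ (Λ ^ 2)`; every subgroup of `G / C` is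
generated by `Λ ^ 2` elements. Let `L ∈ Mx Y N M j`.
(A) `C ≤ L`: `L` is determined by a subgroup of `G / C`, at most `(2 ^ (Λ ^ 2)) ^ (Λ ^ 2) = 2 ^ (Λ ^ 4)` possibilities.
(B) `C` is not contained in `L`: `L ⊔ C = ⊤`, as `L` is maximal. `K = L ⊓ C` is normalised by `L`, and by `M`, because `[m, c] ∈ N ≤ K` for `m ∈ M`, `c ∈ C`; so it is normal in
`G = L M`. Its index in `C` is `j = L.index`. `Chief K C`: if `K < W < C` with `W` normal in `G` then `W` is not contained in `L`, `L W = G`, `C = W (L ⊓ C) = W`, a contradiction.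
`C / K` is not abelian: otherwise `M ⊓ L` is normalised by `L` and by `C` (`[c, m] ∈ N ≤ M ⊓ L`), so it is normal in `G = L C`, between `N` and `M`, and it is not `M`
(otherwise `L = L M = G`), so `M ⊓ L = N` and `|M / N| = |G : L| = j = |C / K|`, which is a power of a prime, as `C / K` is an abelian chief factor. Then `M / N` is a
`p`-group, its commutator subgroup is proper, and as it is a chief factor it is abelian, a contradiction. So by `non_k` there are at most `Nat.log 2 |G|`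
groups `K`. For given `K`: choose `Λ ^ 2` elements `g_i` generating `G` modulo `C` (independently of `L`). For every `i` there is `l_i ∈ L ⊓ g_i C`, unique
modulo `K` (as `L ⊓ C = K`), `j` possibilities for the coset `l_i K`, and `L = ⟨l_i, K⟩` (it has the same image in `G / C` and contains `K = L ⊓ C`). So at most
`j ^ (Λ ^ 2)` groups `L`.
`non_false`: `2 ^ (Λ ^ 4) + b * j ^ (Λ ^ 2) < j ^ (k - 2)` for `j ≥ 2`, `b = Nat.log 2 |G|`, `k ≥ Λ ^ 4 + Λ ^ 2 + Nat.log 2 b + 8`.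
-/

set_option autoImplicit false

namespace Pool.Agent.GcS

open Pool.Agent.SvS

/-! ### Generators -/

private theorem card_double' {G : Type} [Group G] [Finite G] {A B : Subgroup G} (h : A < B) :
    2 * Nat.card A ≤ Nat.card B := by
  obtain ⟨k, hk⟩ := Subgroup.card_dvd_of_le h.le
  have hA : 0 < Nat.card A := Nat.card_pos
  have hB : 0 < Nat.card B := Nat.card_pos
  have hk2 : 2 ≤ k := by
    by_contra hcon
    have : k = 0 ∨ k = 1 := by omega
    rcases this with rfl | rfl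
    · omega
    · rw [mul_one] at hk
      exact h.ne (Subgroup.eq_of_le_of_card_ge h.le hk.le)
  rw [hk, mul_comm]
  exact Nat.mul_le_mul_left _ hk2

private theorem gen_rel_aux {G : Type} [Group G] [Finite G] {N H : Subgroup G} (hN : N ≤ H) (j : ℕ) :
    ∃ g : Fin j → G, (∀ i, g i ∈ H) ∧ (Subgroup.closure (Set.range g) ⊔ N = H ∨
      2 ^ j * Nat.card N ≤ Nat.card (Subgroup.closure (Set.range g) ⊔ N : Subgroup G)) := by
  induction j with
  | zero =>
    refine ⟨Fin.elim0, fun i => i.elim0, Or.inr ?_⟩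
    rw [pow_zero, one_mul]
    exact Subgroup.card_le_of_le le_sup_right
  | succ j ih =>
    obtain ⟨g, hg, h⟩ := ih
    by_cases hc : Subgroup.closure (Set.range g) ⊔ N = H
    · refine ⟨Fin.cons 1 g, ?_, Or.inl ?_⟩
      · intro i
        refine Fin.cases ?_ ?_ i
        · rw [Fin.cons_zero]
          exact H.one_mem
        · intro i
          rw [Fin.cons_succ]
          exact hg i
      · rw [Fin.range_cons, Subgroup.closure_insert_one, hc]
    · have hle : Subgroup.closure (Set.range g) ⊔ N ≤ H := by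
        refine sup_le ?_ hN
        rw [Subgroup.closure_le]
        rintro _ ⟨i, rfl⟩
        exact hg i
      obtain ⟨x, hxH, hx⟩ := SetLike.exists_of_lt (lt_of_le_of_ne hle hc)
      refine ⟨Fin.cons x g, ?_, Or.inr ?_⟩
      · intro i
        refine Fin.cases ?_ ?_ i
        · rw [Fin.cons_zero]
          exact hxH
        · intro i
          rw [Fin.cons_succ]
          exact hg i
      · rw [Fin.range_cons]
        have h1 : Subgroup.closure (Set.range g) ⊔ N < Subgroup.closure (insert x (Set.range g)) ⊔ N := by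
          refine lt_of_le_of_ne (sup_le_sup_right (Subgroup.closure_mono (Set.subset_insert _ _)) _) fun he => hx ?_
          rw [he]
          exact (le_sup_left : Subgroup.closure (insert x (Set.range g)) ≤ _)
            (Subgroup.subset_closure (Set.mem_insert _ _))
        have h2 := card_double' h1
        have h3 := h.resolve_left hc
        rw [pow_succ, mul_comm (2 ^ j) 2, mul_assoc]
        omega

private theorem gen_rel {G : Type} [Group G] [Finite G] {N H : Subgroup G} (hN : N ≤ H) (j : ℕ)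
    (h : N.relIndex H ≤ 2 ^ j) :
    ∃ g : Fin j → G, (∀ i, g i ∈ H) ∧ Subgroup.closure (Set.range g) ⊔ N = H := by
  obtain ⟨g, hg, h1⟩ := gen_rel_aux hN j
  refine ⟨g, hg, ?_⟩
  by_contra hc
  have hle : Subgroup.closure (Set.range g) ⊔ N ≤ H := by
    refine sup_le ?_ hN
    rw [Subgroup.closure_le]
    rintro _ ⟨i, rfl⟩
    exact hg i
  have h2 := card_double' (lt_of_le_of_ne hle hc)
  have h3 := h1.resolve_left hc
  have h4 := Subgroup.relIndex_mul_relIndex ⊥ N H bot_le hN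
  rw [Subgroup.relIndex_bot_left, Subgroup.relIndex_bot_left] at h4
  have h5 : Nat.card N * N.relIndex H ≤ Nat.card N * 2 ^ j := Nat.mul_le_mul_left _ h
  have h6 : 0 < Nat.card H := Nat.card_pos
  rw [h4, mul_comm] at h5
  omega

/-! ### The centraliser of `M / N` -/

private def cz {G : Type} [Group G] (N M : Subgroup G) (hN : N.Normal) : Subgroup G where
  carrier := {g | ∀ m ∈ M, g * m * g⁻¹ * m⁻¹ ∈ N}
  one_mem' := by
    intro m _
    simp
  mul_mem' := by
    intro g h hg hh m hm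
    have e : g * h * m * (g * h)⁻¹ * m⁻¹ = g * (h * m * h⁻¹ * m⁻¹) * g⁻¹ * (g * m * g⁻¹ * m⁻¹) := by group
    rw [e]
    exact N.mul_mem (hN.conj_mem _ (hh m hm) g) (hg m hm)
  inv_mem' := by
    intro g hg m hm
    have e : g⁻¹ * m * g⁻¹⁻¹ * m⁻¹ = g⁻¹ * (g * m * g⁻¹ * m⁻¹)⁻¹ * g⁻¹⁻¹ := by group
    rw [e]
    exact hN.conj_mem _ (N.inv_mem (hg m hm)) g⁻¹

private theorem mem_cz {G : Type} [Group G] {N M : Subgroup G} {hN : N.Normal} {g : G} :
    g ∈ cz N M hN ↔ ∀ m ∈ M, g * m * g⁻¹ * m⁻¹ ∈ N := Iff.rfl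

private theorem cz_normal {G : Type} [Group G] {N M : Subgroup G} (hN : N.Normal) (hM : M.Normal) :
    (cz N M hN).Normal := by
  constructor
  intro g hg h
  rw [mem_cz] at hg ⊢
  intro m hm
  have h1 := hg (h⁻¹ * m * h) (by
    have := hM.conj_mem m hm h⁻¹
    rwa [inv_inv] at this)
  have e : h * g * h⁻¹ * m * (h * g * h⁻¹)⁻¹ * m⁻¹ = h * (g * (h⁻¹ * m * h) * g⁻¹ * (h⁻¹ * m * h)⁻¹) * h⁻¹ := by
    group
  rw [e]
  exact hN.conj_mem _ h1 h

/-- The elements of `G` commuting with `u` modulo `N`. -/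
private def cu {G : Type} [Group G] (N : Subgroup G) (hN : N.Normal) (u : G) : Subgroup G where
  carrier := {m | u * m * u⁻¹ * m⁻¹ ∈ N}
  one_mem' := by
    simp
  mul_mem' := by
    intro a b ha hb
    have e : u * (a * b) * u⁻¹ * (a * b)⁻¹ = u * a * u⁻¹ * a⁻¹ * (a * (u * b * u⁻¹ * b⁻¹) * a⁻¹) := by group
    change u * (a * b) * u⁻¹ * (a * b)⁻¹ ∈ N
    rw [e]
    exact N.mul_mem ha (hN.conj_mem _ hb a)
  inv_mem' := by
    intro a ha
    have e : u * a⁻¹ * u⁻¹ * a⁻¹⁻¹ = a⁻¹ * (u * a * u⁻¹ * a⁻¹)⁻¹ * a⁻¹⁻¹ := by group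
    change u * a⁻¹ * u⁻¹ * a⁻¹⁻¹ ∈ N
    rw [e]
    exact hN.conj_mem _ (N.inv_mem ha) a⁻¹

private theorem index_cz {G : Type} [Group G] [Finite G] {N M : Subgroup G} (h : Chief N M) (Λ : ℕ)
    (hq : N.relIndex M ≤ 2 ^ Λ) : (cz N M h.1).index ≤ 2 ^ (Λ ^ 2) := by
  obtain ⟨t, ht, hgen⟩ := gen_rel h.2.2.1.le Λ hq
  have hM := h.2.1
  have hN := h.1
  set C := cz N M h.1 with hC
  let F : G ⧸ C → (Fin Λ → M ⧸ N.subgroupOf M) := fun x i =>
    QuotientGroup.mk (⟨x.out * t i * x.out⁻¹, hM.conj_mem _ (ht i) _⟩ : M)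
  have hF : Function.Injective F := by
    intro x y hxy
    have h1 : ∀ i, y.out⁻¹ * x.out * t i * (y.out⁻¹ * x.out)⁻¹ * (t i)⁻¹ ∈ N := by
      intro i
      have h2 := congrFun hxy i
      have h3 := QuotientGroup.eq.1 h2
      rw [Subgroup.mem_subgroupOf] at h3
      have h4 : (x.out * t i * x.out⁻¹)⁻¹ * (y.out * t i * y.out⁻¹) ∈ N := h3
      have h5 := hN.conj_mem _ (N.inv_mem h4) (t i * y.out⁻¹ * (x.out * t i * x.out⁻¹) * (t i * y.out⁻¹)⁻¹ * (t i * y.out⁻¹))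
      have h6 := hN.conj_mem _ (N.inv_mem h4) y.out⁻¹
      have e : y.out⁻¹ * x.out * t i * (y.out⁻¹ * x.out)⁻¹ * (t i)⁻¹ =
          (t i) * (y.out⁻¹ * ((x.out * t i * x.out⁻¹)⁻¹ * (y.out * t i * y.out⁻¹))⁻¹ * y.out⁻¹⁻¹) * (t i)⁻¹ := by
        group
      rw [e]
      exact hN.conj_mem _ h6 (t i)
    have h2 : M ≤ cu N hN (y.out⁻¹ * x.out) := by
      rw [← hgen]
      refine sup_le ?_ ?_
      · rw [Subgroup.closure_le]
        rintro _ ⟨i, rfl⟩
        exact h1 i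
      · intro n hn
        change y.out⁻¹ * x.out * n * (y.out⁻¹ * x.out)⁻¹ * n⁻¹ ∈ N
        exact N.mul_mem (hN.conj_mem _ hn _) (N.inv_mem hn)
    have h3 : y.out⁻¹ * x.out ∈ C := fun m hm => h2 hm
    have h4 : (QuotientGroup.mk y.out : G ⧸ C) = QuotientGroup.mk x.out := QuotientGroup.eq.2 h3
    rw [QuotientGroup.out_eq', QuotientGroup.out_eq'] at h4
    exact h4.symm
  have h1 := Nat.card_le_card_of_injective F hF
  rw [Nat.card_fun, Nat.card_fin] at h1
  have h2 : Nat.card (M ⧸ N.subgroupOf M) ≤ 2 ^ Λ := hq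
  calc C.index = Nat.card (G ⧸ C) := rfl
    _ ≤ Nat.card (M ⧸ N.subgroupOf M) ^ Λ := h1
    _ ≤ (2 ^ Λ) ^ Λ := Nat.pow_le_pow_left h2 _
    _ = 2 ^ (Λ ^ 2) := by rw [← pow_mul, sq]

/-! ### Counting -/

private theorem cardA {G : Type} [Group G] [Finite G] (C : Subgroup G) (m : ℕ) (hC : C.index ≤ 2 ^ m) :
    Nat.card {L : Subgroup G // C ≤ L} ≤ (2 ^ m) ^ m := by
  have hg : ∀ L : {L : Subgroup G // C ≤ L}, ∃ g : Fin m → G, (∀ i, g i ∈ L.1) ∧
      Subgroup.closure (Set.range g) ⊔ C = L.1 := by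
    intro L
    refine gen_rel L.2 m (le_trans ?_ hC)
    have h1 := Subgroup.relIndex_mul_index L.2
    have h2 : 0 < L.1.index := Nat.pos_of_ne_zero Subgroup.index_ne_zero_of_finite
    rw [← h1]
    exact Nat.le_mul_of_pos_right _ h2
  choose g hg1 hg2 using hg
  let F : {L : Subgroup G // C ≤ L} → (Fin m → G ⧸ C) := fun L i => QuotientGroup.mk (g L i)
  have hF : Function.Injective F := by
    have key : ∀ L L' : {L : Subgroup G // C ≤ L}, F L = F L' → L.1 ≤ L'.1 := by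
      intro L L' h
      rw [← hg2 L]
      refine sup_le ?_ L'.2
      rw [Subgroup.closure_le]
      rintro _ ⟨i, rfl⟩
      have h1 := QuotientGroup.eq.1 (congrFun h i).symm
      have e : g L i = g L' i * ((g L' i)⁻¹ * g L i) := by group
      rw [e]
      exact L'.1.mul_mem (hg1 L' i) (L'.2 h1)
    intro L L' h
    exact Subtype.ext (le_antisymm (key L L' h) (key L' L h.symm))
  have h1 := Nat.card_le_card_of_injective F hF
  rw [Nat.card_fun, Nat.card_fin] at h1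
  exact h1.trans (Nat.pow_le_pow_left hC _)

private theorem cardK {G : Type} [Group G] [Finite G] {C K : Subgroup G} (hCn : C.Normal) (m j : ℕ)
    (hC : C.index ≤ 2 ^ m) (hK : K ≤ C) :
    Nat.card {L : Subgroup G // L ⊔ C = ⊤ ∧ L ⊓ C = K ∧ K.relIndex C = j} ≤ j ^ m := by
  obtain ⟨g, -, hg⟩ := gen_rel (le_top : C ≤ ⊤) m (by rw [Subgroup.relIndex_top_right]; exact hC)
  have hc : ∀ L : {L : Subgroup G // L ⊔ C = ⊤ ∧ L ⊓ C = K ∧ K.relIndex C = j}, ∀ i : Fin m,
      ∃ c : C, g i * c ∈ L.1 := by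
    intro L i
    have h1 : g i ∈ L.1 ⊔ C := by rw [L.2.1]; trivial
    obtain ⟨l, hl, c, hc, h2⟩ := Subgroup.mem_sup_of_normal_right.1 h1
    refine ⟨⟨c⁻¹, C.inv_mem hc⟩, ?_⟩
    have e : g i * c⁻¹ = l := by rw [← h2]; group
    change g i * c⁻¹ ∈ L.1
    rw [e]
    exact hl
  choose c hc using hc
  by_cases hne : Nonempty {L : Subgroup G // L ⊔ C = ⊤ ∧ L ⊓ C = K ∧ K.relIndex C = j}
  swap
  · rw [not_nonempty_iff] at hne
    rw [Nat.card_of_isEmpty]
    exact Nat.zero_le _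
  have hj : K.relIndex C = j := hne.some.2.2.2
  let F : {L : Subgroup G // L ⊔ C = ⊤ ∧ L ⊓ C = K ∧ K.relIndex C = j} → (Fin m → C ⧸ K.subgroupOf C) :=
    fun L i => QuotientGroup.mk (c L i)
  have hF : Function.Injective F := by
    have key : ∀ L L' : {L : Subgroup G // L ⊔ C = ⊤ ∧ L ⊓ C = K ∧ K.relIndex C = j}, F L = F L' →
        L'.1 ≤ L.1 := by
      intro L L' h
      have hKL : K ≤ L.1 := L.2.2.1.ge.trans inf_le_left
      have hKL' : K ≤ L'.1 := L'.2.2.1.ge.trans inf_le_left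
      set P := Subgroup.closure (Set.range fun i => g i * (c L' i : G)) ⊔ K with hP
      have hPL' : P ≤ L'.1 := by
        refine sup_le ?_ hKL'
        rw [Subgroup.closure_le]
        rintro _ ⟨i, rfl⟩
        exact hc L' i
      have hPL : P ≤ L.1 := by
        refine sup_le ?_ hKL
        rw [Subgroup.closure_le]
        rintro _ ⟨i, rfl⟩
        have h1 := QuotientGroup.eq.1 (congrFun h i)
        rw [Subgroup.mem_subgroupOf] at h1
        have h2 : ((c L i : G))⁻¹ * (c L' i : G) ∈ K := h1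
        have e : g i * (c L' i : G) = g i * (c L i : G) * (((c L i : G))⁻¹ * (c L' i : G)) := by group
        change g i * (c L' i : G) ∈ L.1
        rw [e]
        exact L.1.mul_mem (hc L i) (hKL h2)
      have hPC : P ⊔ C = ⊤ := by
        rw [eq_top_iff, ← hg]
        refine sup_le ?_ le_sup_right
        rw [Subgroup.closure_le]
        rintro _ ⟨i, rfl⟩
        have e : g i = g i * (c L' i : G) * ((c L' i : G))⁻¹ := by group
        change g i ∈ P ⊔ C
        rw [e]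
        refine Subgroup.mul_mem _ ((le_sup_left : P ≤ P ⊔ C) ?_) ((le_sup_right : C ≤ P ⊔ C) (C.inv_mem (c L' i).2))
        exact (le_sup_left : Subgroup.closure _ ≤ P) (Subgroup.subset_closure ⟨i, rfl⟩)
      refine le_trans ?_ hPL
      intro x hx
      have h1 : x ∈ P ⊔ C := by rw [hPC]; trivial
      obtain ⟨p, hp, d, hd, h2⟩ := Subgroup.mem_sup_of_normal_right.1 h1
      have h3 : d ∈ L'.1 := by
        have e : d = p⁻¹ * x := by rw [← h2]; group
        rw [e]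
        exact L'.1.mul_mem (L'.1.inv_mem (hPL' hp)) hx
      have h4 : d ∈ K := by
        rw [← L'.2.2.1]
        exact ⟨h3, hd⟩
      rw [← h2]
      exact P.mul_mem hp ((le_sup_right : K ≤ P) h4)
    intro L L' h
    exact Subtype.ext (le_antisymm (key L' L h.symm) (key L L' h))
  have h1 := Nat.card_le_card_of_injective F hF
  rw [Nat.card_fun, Nat.card_fin] at h1
  have h2 : Nat.card (C ⧸ K.subgroupOf C) = j := hj
  rwa [h2] at h1

/-! ### The case `C` not contained in `L` -/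

private theorem relIndex_eq {G : Type} [Group G] [Finite G] {L C : Subgroup G} (hC : C.Normal)
    (h : L ⊔ C = ⊤) : (L ⊓ C).relIndex C = L.index := by
  have h1 := Subgroup.relIndex_mul_relIndex ⊥ (L ⊓ C) C bot_le inf_le_right
  have h2 := Subgroup.relIndex_mul_relIndex ⊥ (L ⊓ C) L bot_le inf_le_left
  rw [Subgroup.relIndex_bot_left, Subgroup.relIndex_bot_left] at h1 h2
  have h3 : (L ⊓ C).relIndex L = C.index := by
    rw [inf_comm, Subgroup.inf_relIndex_right, ← Subgroup.relIndex_sup_right, h, Subgroup.relIndex_top_right]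
  have h4 := Subgroup.index_mul_card C
  have h5 := Subgroup.index_mul_card L
  rw [h3] at h2
  have hpos : 0 < Nat.card (L ⊓ C : Subgroup G) := Nat.card_pos
  have hC0 : 0 < C.index := Nat.pos_of_ne_zero Subgroup.index_ne_zero_of_finite
  have h6 : Nat.card (L ⊓ C : Subgroup G) * C.index * (L ⊓ C).relIndex C =
      Nat.card (L ⊓ C : Subgroup G) * C.index * L.index := by
    calc Nat.card (L ⊓ C : Subgroup G) * C.index * (L ⊓ C).relIndex C
        = C.index * (Nat.card (L ⊓ C : Subgroup G) * (L ⊓ C).relIndex C) := by ring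
      _ = Nat.card G := by rw [h1, h4]
      _ = L.index * Nat.card L := h5.symm
      _ = Nat.card (L ⊓ C : Subgroup G) * C.index * L.index := by rw [← h2]; ring
  exact Nat.eq_of_mul_eq_mul_left (Nat.mul_pos hpos hC0) h6

private theorem factB {G : Type} [Group G] {N M L : Subgroup G} (h : Chief N M) (hna : ¬ Ab N M)
    (hL : IsCoatom L) (hNL : N ≤ L) (hLM : L ⊔ M = ⊤) (hCL : ¬ cz N M h.1 ≤ L) :
    L ⊔ cz N M h.1 = ⊤ ∧ Chief (L ⊓ cz N M h.1) (cz N M h.1) ∧ ¬ Ab (L ⊓ cz N M h.1) (cz N M h.1) := by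
  have hN := h.1
  have hM := h.2.1
  have hNM := h.2.2.1
  set C := cz N M h.1 with hC
  have hCn : C.Normal := cz_normal hN hM
  have hLC : L ⊔ C = ⊤ := by
    refine hL.2 _ (lt_of_le_of_ne le_sup_left fun he => hCL ?_)
    rw [he]
    exact le_sup_right
  have hKn : (L ⊓ C).Normal := by
    constructor
    intro k hk g
    have h1 : g ∈ L ⊔ M := by rw [hLM]; trivial
    obtain ⟨l, hl, m, hm, rfl⟩ := Subgroup.mem_sup_of_normal_right.1 h1
    have h2 : m * k * m⁻¹ ∈ L := by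
      have h3 : k * m * k⁻¹ * m⁻¹ ∈ N := hk.2 m hm
      have e : m * k * m⁻¹ = (k * m * k⁻¹ * m⁻¹)⁻¹ * k := by group
      rw [e]
      exact L.mul_mem (hNL (N.inv_mem h3)) hk.1
    have e : l * m * k * (l * m)⁻¹ = l * (m * k * m⁻¹) * l⁻¹ := by group
    refine ⟨?_, ?_⟩
    · rw [SetLike.mem_coe, e]
      exact L.mul_mem (L.mul_mem hl h2) (L.inv_mem hl)
    · exact hCn.conj_mem _ hk.2 _
  refine ⟨hLC, ⟨hKn, hCn, ?_, ?_⟩, ?_⟩
  · refine lt_of_le_of_ne inf_le_right fun he => hCL ?_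
    rw [← he]
    exact inf_le_left
  · intro W hW hKW hWC
    by_cases hWL : W ≤ L
    · left
      exact le_antisymm (le_inf hWL hWC) hKW
    · right
      refine le_antisymm hWC ?_
      intro c hc
      have hLW : L ⊔ W = ⊤ := by
        refine hL.2 _ (lt_of_le_of_ne le_sup_left fun he => hWL ?_)
        rw [he]
        exact le_sup_right
      have h1 : c ∈ L ⊔ W := by rw [hLW]; trivial
      obtain ⟨l, hl, w, hw, h2⟩ := Subgroup.mem_sup_of_normal_right.1 h1
      have h3 : l ∈ C := by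
        have e : l = c * w⁻¹ := by rw [← h2]; group
        rw [e]
        exact C.mul_mem hc (C.inv_mem (hWC hw))
      rw [← h2]
      exact W.mul_mem (hKW ⟨hl, h3⟩) hw
  · intro hab
    -- `M ⊓ L = N`
    have hMLn : (M ⊓ L).Normal := by
      constructor
      intro k hk g
      have h1 : g ∈ L ⊔ C := by rw [hLC]; trivial
      obtain ⟨l, hl, c, hc, rfl⟩ := Subgroup.mem_sup_of_normal_right.1 h1
      have h2 : c * k * c⁻¹ ∈ L := by
        have h3 : c * k * c⁻¹ * k⁻¹ ∈ N := hc k hk.1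
        have e : c * k * c⁻¹ = (c * k * c⁻¹ * k⁻¹) * k := by group
        rw [e]
        exact L.mul_mem (hNL h3) hk.2
      have e : l * c * k * (l * c)⁻¹ = l * (c * k * c⁻¹) * l⁻¹ := by group
      refine ⟨hM.conj_mem _ hk.1 _, ?_⟩
      rw [SetLike.mem_coe, e]
      exact L.mul_mem (L.mul_mem hl h2) (L.inv_mem hl)
    have hML : M ⊓ L = N := by
      rcases h.2.2.2 (M ⊓ L) hMLn (le_inf hNM.le hNL) inf_le_left with h1 | h1
      · exact h1
      · exfalso
        apply hL.1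
        rw [← hLM]
        refine (sup_eq_left.2 ?_).symm
        rw [← h1]
        exact inf_le_right
    apply hna
    intro a ha b hb
    have h1 : a ∈ L ⊔ C := by rw [hLC]; trivial
    have h2 : b ∈ L ⊔ C := by rw [hLC]; trivial
    obtain ⟨l, hl, c, hc, rfl⟩ := Subgroup.mem_sup_of_normal_right.1 h1
    obtain ⟨l', hl', c', hc', rfl⟩ := Subgroup.mem_sup_of_normal_right.1 h2
    set a := l * c with ha0
    set b := l' * c' with hb0
    have hlc : l = a * c⁻¹ := by rw [ha0]; group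
    have hlc' : l' = b * c'⁻¹ := by rw [hb0]; group
    -- the element `u` of `L`
    have hu : l * l' * l⁻¹ * l'⁻¹ * (c⁻¹ * c'⁻¹ * c * c')⁻¹ ∈ L := by
      refine L.mul_mem (L.mul_mem (L.mul_mem (L.mul_mem hl hl') (L.inv_mem hl)) (L.inv_mem hl')) (L.inv_mem ?_)
      have h3 := hab c⁻¹ (C.inv_mem hc) c'⁻¹ (C.inv_mem hc')
      rw [inv_inv, inv_inv] at h3
      exact h3.1
    have hmod : (QuotientGroup.mk (l * l' * l⁻¹ * l'⁻¹ * (c⁻¹ * c'⁻¹ * c * c')⁻¹) : G ⧸ N) =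
        QuotientGroup.mk (a * b * a⁻¹ * b⁻¹) := by
      have hcomm : ∀ c ∈ C, ∀ m ∈ M, (QuotientGroup.mk c : G ⧸ N) * QuotientGroup.mk m =
          QuotientGroup.mk m * QuotientGroup.mk c := by
        intro c hc m hm
        have h4 : (QuotientGroup.mk (c * m * c⁻¹ * m⁻¹) : G ⧸ N) = 1 := (QuotientGroup.eq_one_iff _).2 (hc m hm)
        rw [QuotientGroup.mk_mul, QuotientGroup.mk_mul, QuotientGroup.mk_mul, QuotientGroup.mk_inv,
          QuotientGroup.mk_inv, mul_inv_eq_one, mul_inv_eq_iff_eq_mul] at h4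
        exact h4
      have k1 := hcomm c hc a ha
      have k2 := hcomm c hc b hb
      have k3 := hcomm c' hc' a ha
      have k4 := hcomm c' hc' b hb
      rw [hlc, hlc']
      simp only [QuotientGroup.mk_mul, QuotientGroup.mk_inv]
      generalize (QuotientGroup.mk c : G ⧸ N) = x at k1 k2 ⊢
      generalize (QuotientGroup.mk c' : G ⧸ N) = y at k3 k4 ⊢
      generalize (QuotientGroup.mk a : G ⧸ N) = s at k1 k3 ⊢
      generalize (QuotientGroup.mk b : G ⧸ N) = t at k2 k4 ⊢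
      have c1 : Commute x s := k1
      have c2 : Commute x t := k2
      have c3 : Commute y s := k3
      have c4 : Commute y t := k4
      have e1 : s * x⁻¹ * (t * y⁻¹) = s * t * (x⁻¹ * y⁻¹) := by
        have := c2.inv_left.eq
        calc s * x⁻¹ * (t * y⁻¹) = s * (x⁻¹ * t) * y⁻¹ := by group
          _ = s * (t * x⁻¹) * y⁻¹ := by rw [this]
          _ = _ := by group
      have e2 : (s * x⁻¹)⁻¹ * (t * y⁻¹)⁻¹ = s⁻¹ * t⁻¹ * (x * y) := by
        have d1 : Commute x s⁻¹ := c1.inv_right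
        have d2 : Commute x t⁻¹ := c2.inv_right
        have d4 : Commute y t⁻¹ := c4.inv_right
        calc (s * x⁻¹)⁻¹ * (t * y⁻¹)⁻¹ = (x * s⁻¹) * (y * t⁻¹) := by group
          _ = (s⁻¹ * x) * (t⁻¹ * y) := by rw [d1.eq, d4.eq]
          _ = s⁻¹ * (x * t⁻¹) * y := by group
          _ = s⁻¹ * (t⁻¹ * x) * y := by rw [d2.eq]
          _ = _ := by group
      have e3 : Commute (x⁻¹ * y⁻¹) (s⁻¹ * t⁻¹) :=
        ((c1.inv_left.mul_left c3.inv_left).inv_right).mul_right ((c2.inv_left.mul_left c4.inv_left).inv_right)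
      calc s * x⁻¹ * (t * y⁻¹) * (s * x⁻¹)⁻¹ * (t * y⁻¹)⁻¹ * (x⁻¹ * y⁻¹ * x * y)⁻¹
          = s * x⁻¹ * (t * y⁻¹) * ((s * x⁻¹)⁻¹ * (t * y⁻¹)⁻¹) * (x⁻¹ * y⁻¹ * x * y)⁻¹ := by group
        _ = s * t * ((x⁻¹ * y⁻¹) * (s⁻¹ * t⁻¹)) * (x * y) * (x⁻¹ * y⁻¹ * x * y)⁻¹ := by
            rw [e1, e2]; group
        _ = s * t * ((s⁻¹ * t⁻¹) * (x⁻¹ * y⁻¹)) * (x * y) * (x⁻¹ * y⁻¹ * x * y)⁻¹ := by rw [e3.eq]
        _ = s * t * s⁻¹ * t⁻¹ := by group
    have h5 := QuotientGroup.eq.1 hmod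
    have h6 : a * b * a⁻¹ * b⁻¹ ∈ L := by
      have e : a * b * a⁻¹ * b⁻¹ = (l * l' * l⁻¹ * l'⁻¹ * (c⁻¹ * c'⁻¹ * c * c')⁻¹) *
          ((l * l' * l⁻¹ * l'⁻¹ * (c⁻¹ * c'⁻¹ * c * c')⁻¹)⁻¹ * (a * b * a⁻¹ * b⁻¹)) := by group
      rw [e]
      exact L.mul_mem hu (hNL h5)
    rw [← hML]
    exact ⟨M.mul_mem (M.mul_mem (M.mul_mem ha hb) (M.inv_mem ha)) (M.inv_mem hb), h6⟩

theorem non_sm {G : Type} [Group G] [Finite G] (Y : Subgroup G) {N M : Subgroup G} (h : Chief N M) (hna : ¬ Ab N M) (Λ j : ℕ)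
    (hq : N.relIndex M ≤ 2 ^ Λ) :
    Nat.card (Mx Y N M j) ≤ 2 ^ (Λ ^ 4) + Nat.log 2 (Nat.card G) * j ^ (Λ ^ 2) := by
  classical
  set C := cz N M h.1 with hC
  have hCn : C.Normal := cz_normal h.1 h.2.1
  have hCi : C.index ≤ 2 ^ (Λ ^ 2) := index_cz h Λ hq
  let S : Type := Σ K : {K : Subgroup G // Chief K C ∧ ¬ Ab K C},
    {L : Subgroup G // L ⊔ C = ⊤ ∧ L ⊓ C = K.1 ∧ K.1.relIndex C = j}
  have hfac : ∀ L : Mx Y N M j, ¬ C ≤ L.1 → L.1 ⊔ C = ⊤ ∧ Chief (L.1 ⊓ C) C ∧ ¬ Ab (L.1 ⊓ C) C := by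
    intro L hL
    exact factB h hna L.2.1 L.2.2.1 L.2.2.2.2.1 hL
  let F : Mx Y N M j → {L : Subgroup G // C ≤ L} ⊕ S := fun L =>
    if hL : C ≤ L.1 then Sum.inl ⟨L.1, hL⟩ else
      Sum.inr ⟨⟨L.1 ⊓ C, (hfac L hL).2⟩, ⟨L.1, (hfac L hL).1, rfl, by
        rw [relIndex_eq hCn (hfac L hL).1]
        exact L.2.2.2.2.2⟩⟩
  let back : {L : Subgroup G // C ≤ L} ⊕ S → Subgroup G := fun z => Sum.elim (fun L => L.1) (fun s => s.2.1) z
  have hback : ∀ L : Mx Y N M j, back (F L) = L.1 := by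
    intro L
    by_cases hL : C ≤ L.1
    · simp only [F, dif_pos hL, back, Sum.elim_inl]
    · simp only [F, dif_neg hL, back, Sum.elim_inr]
  have hF : Function.Injective F := by
    intro L L' hLL
    apply Subtype.ext
    rw [← hback L, ← hback L', hLL]
  have hfinS : Finite S := by
    change Finite (Σ K : {K : Subgroup G // Chief K C ∧ ¬ Ab K C},
      {L : Subgroup G // L ⊔ C = ⊤ ∧ L ⊓ C = K.1 ∧ K.1.relIndex C = j})
    infer_instance
  have h1 := Nat.card_le_card_of_injective F hF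
  rw [Nat.card_sum] at h1
  have h2 := cardA C (Λ ^ 2) hCi
  have e1 : (2 ^ (Λ ^ 2)) ^ (Λ ^ 2) = 2 ^ (Λ ^ 4) := by
    rw [← pow_mul]
    congr 1
    ring
  rw [e1] at h2
  have h3 : Nat.card S ≤ Nat.log 2 (Nat.card G) * j ^ (Λ ^ 2) := by
    let : Fintype {K : Subgroup G // Chief K C ∧ ¬ Ab K C} := Fintype.ofFinite _
    have h4 : Nat.card S = ∑ K : {K : Subgroup G // Chief K C ∧ ¬ Ab K C},
        Nat.card {L : Subgroup G // L ⊔ C = ⊤ ∧ L ⊓ C = K.1 ∧ K.1.relIndex C = j} := Nat.card_sigma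
    rw [h4]
    have h5 : ∀ K ∈ (Finset.univ : Finset {K : Subgroup G // Chief K C ∧ ¬ Ab K C}),
        Nat.card {L : Subgroup G // L ⊔ C = ⊤ ∧ L ⊓ C = K.1 ∧ K.1.relIndex C = j} ≤ j ^ (Λ ^ 2) := by
      intro K _
      exact cardK hCn (Λ ^ 2) j hCi K.2.1.2.2.1.le
    refine (Finset.sum_le_card_nsmul _ _ _ h5).trans ?_
    rw [smul_eq_mul, Finset.card_univ, ← Nat.card_eq_fintype_card]
    exact Nat.mul_le_mul_right _ (non_k C)
  omega

theorem non_false {G : Type} [Group G] [Finite G] (Y : Subgroup G) {N M : Subgroup G} (h : Chief N M) (hna : ¬ Ab N M)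
    (Λ j k : ℕ) (hq : N.relIndex M ≤ 2 ^ Λ) (hj : 2 ≤ j) (hk : Λ ^ 4 + Λ ^ 2 + Nat.log 2 (Nat.log 2 (Nat.card G)) + 8 ≤ k)
    (hm : j ^ (k - 2) ≤ Nat.card (Mx Y N M j)) : False := by
  have h1 := hm.trans (non_sm Y h hna Λ j hq)
  set b := Nat.log 2 (Nat.card G) with hb
  have h2 : b ≤ j ^ (Nat.log 2 b + 1) := by
    refine (Nat.lt_pow_succ_log_self (b := 2) (by norm_num) b).le.trans ?_
    exact Nat.pow_le_pow_left hj _
  have h3 : 2 ^ (Λ ^ 4) ≤ j ^ (Λ ^ 4 + Λ ^ 2 + Nat.log 2 b + 1) :=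
    (Nat.pow_le_pow_left hj _).trans (Nat.pow_le_pow_right (by omega) (by omega))
  have h4 : b * j ^ (Λ ^ 2) ≤ j ^ (Λ ^ 4 + Λ ^ 2 + Nat.log 2 b + 1) := by
    calc b * j ^ (Λ ^ 2) ≤ j ^ (Nat.log 2 b + 1) * j ^ (Λ ^ 2) := Nat.mul_le_mul_right _ h2
      _ = j ^ (Nat.log 2 b + 1 + Λ ^ 2) := (pow_add _ _ _).symm
      _ ≤ _ := Nat.pow_le_pow_right (by omega) (by omega)
  have h5 : j ^ (Λ ^ 4 + Λ ^ 2 + Nat.log 2 b + 1 + 2) ≤ j ^ (k - 2) :=
    Nat.pow_le_pow_right (by omega) (by omega)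
  have h6 : 4 * j ^ (Λ ^ 4 + Λ ^ 2 + Nat.log 2 b + 1) ≤ j ^ (Λ ^ 4 + Λ ^ 2 + Nat.log 2 b + 1 + 2) := by
    have e := pow_add j (Λ ^ 4 + Λ ^ 2 + Nat.log 2 b + 1) 2
    rw [e, mul_comm 4]
    refine Nat.mul_le_mul_left _ ?_
    calc 4 = 2 ^ 2 := by norm_num
      _ ≤ j ^ 2 := Nat.pow_le_pow_left hj 2
  have h7 : 0 < j ^ (Λ ^ 4 + Λ ^ 2 + Nat.log 2 b + 1) := Nat.pow_pos (by omega)
  omega

end Pool.Agent.GcS
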