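import Pool.Agent.GcS.Defs
import Pool.Agent.SvS.Tr

/-!
MP_7fa120_al, class `Gc`. Simple properties of `Rl`.

`rl_of_many`: for `M ∈ Rec C S` the group `closure (M ∪ S)` contains `M` and is invariant under conjugation by the elements of `S`, so it contains
`C` and it is `H`; so `M ⊔ closure S = H`. Different `M` are different subgroups.
`rl_up`: if `L ⊔ closure S = H₁` and `H₁ ⊔ closure T = H` then `L ⊔ closure (S ∪ T) = H`. `rl_mono`: clear.
`rl_of_sub`: map subgroups of `H` to subgroups of `X` by `H.subtype`.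
`rl_of_mx`: a maximal subgroup `L` and any `x ∉ L` generate the group.
-/

set_option autoImplicit false

namespace Pool.Agent.GcS

open Pool.Agent.SvS

theorem rl_of_many {X : Type} [Group X] [Finite X] {H : Subgroup X} {g j : ℕ} (h : Many H g j) : Rl H g j := by
  obtain ⟨C, S, hS, hH, hg⟩ := h
  have key : ∀ M : Rec C S, M.1 ⊔ Subgroup.closure (S : Set X) = H := by
    intro M
    obtain ⟨h1, h2⟩ := M.2
    refine le_antisymm ?_ ?_
    · rw [← hH]
      exact sup_le_sup_right h1 _
    · rw [← hH]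
      refine sup_le (h2 _ le_sup_left ?_) le_sup_right
      intro y hy x hx
      have hy' : y ∈ M.1 ⊔ Subgroup.closure (S : Set X) :=
        (le_sup_right : Subgroup.closure (S : Set X) ≤ _) (Subgroup.subset_closure hy)
      exact mul_mem (mul_mem hy' hx) (inv_mem hy')
  refine hg.trans ?_
  refine Nat.card_le_card_of_injective
    (fun M : Rec C S => (⟨M.1, S, hS, key M⟩ :
      {L : Subgroup X // ∃ S : Finset X, S.card ≤ j ∧ L ⊔ Subgroup.closure (S : Set X) = H})) ?_
  intro M M' hMM
  have h1 := congrArg Subtype.val hMM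
  exact Subtype.ext h1

theorem rl_mono {X : Type} [Group X] [Finite X] {H : Subgroup X} {g g' j j' : ℕ} (h : Rl H g j) (hg : g' ≤ g) (hj : j ≤ j') :
    Rl H g' j' := by
  refine (Nat.pow_le_pow_right (by norm_num) hg).trans (le_trans h ?_)
  refine Nat.card_le_card_of_injective
    (fun L : {L : Subgroup X // ∃ S : Finset X, S.card ≤ j ∧ L ⊔ Subgroup.closure (S : Set X) = H} =>
      (⟨L.1, L.2.imp fun S hS => ⟨hS.1.trans hj, hS.2⟩⟩ :
      {L : Subgroup X // ∃ S : Finset X, S.card ≤ j' ∧ L ⊔ Subgroup.closure (S : Set X) = H})) ?_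
  intro M M' hMM
  have h1 := congrArg Subtype.val hMM
  exact Subtype.ext h1

theorem rl_up {X : Type} [Group X] [Finite X] {H H₁ : Subgroup X} {g j t : ℕ} (h : Rl H₁ g j) (T : Finset X) (hT : T.card ≤ t)
    (hH : H₁ ⊔ Subgroup.closure (T : Set X) = H) : Rl H g (j + t) := by
  classical
  refine le_trans h ?_
  refine Nat.card_le_card_of_injective
    (fun L : {L : Subgroup X // ∃ S : Finset X, S.card ≤ j ∧ L ⊔ Subgroup.closure (S : Set X) = H₁} =>
      (⟨L.1, ?_⟩ :
      {L : Subgroup X // ∃ S : Finset X, S.card ≤ j + t ∧ L ⊔ Subgroup.closure (S : Set X) = H})) ?_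
  · obtain ⟨S, hS, e⟩ := L.2
    refine ⟨S ∪ T, (Finset.card_union_le _ _).trans (add_le_add hS hT), ?_⟩
    rw [Finset.coe_union, Subgroup.closure_union, ← sup_assoc, e, hH]
  · intro M M' hMM
    have h1 := congrArg Subtype.val hMM
    exact Subtype.ext h1

theorem rl_of_sub {X : Type} [Group X] [Finite X] (H : Subgroup X) (g j : ℕ)
    (h : 2 ^ g ≤ Nat.card {L : Subgroup H // ∃ S : Finset H, S.card ≤ j ∧ L ⊔ Subgroup.closure (S : Set H) = ⊤}) :
    Rl H g j := by
  classical
  refine le_trans h ?_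
  refine Nat.card_le_card_of_injective
    (fun L : {L : Subgroup H // ∃ S : Finset H, S.card ≤ j ∧ L ⊔ Subgroup.closure (S : Set H) = ⊤} =>
      (⟨L.1.map H.subtype, ?_⟩ :
      {L : Subgroup X // ∃ S : Finset X, S.card ≤ j ∧ L ⊔ Subgroup.closure (S : Set X) = H})) ?_
  · obtain ⟨S, hS, e⟩ := L.2
    refine ⟨S.image H.subtype, Finset.card_image_le.trans hS, ?_⟩
    rw [Finset.coe_image, ← MonoidHom.map_closure, ← Subgroup.map_sup, e,
      ← MonoidHom.range_eq_map, Subgroup.range_subtype]
  · intro M M' hMM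
    exact Subtype.ext (Subgroup.map_injective H.subtype_injective (congrArg Subtype.val hMM))

theorem rl_of_mx {X : Type} [Group X] [Finite X] (H : Subgroup X) (Y N M : Subgroup H) (g i : ℕ)
    (h : 2 ^ g ≤ Nat.card (Mx Y N M i)) : Rl H g 1 := by
  refine rl_of_sub H g 1 (le_trans h ?_)
  have key : ∀ L : Mx Y N M i, ∃ S : Finset H, S.card ≤ 1 ∧ L.1 ⊔ Subgroup.closure (S : Set H) = ⊤ := by
    intro L
    have hc := L.2.1
    obtain ⟨x, hx⟩ : ∃ x, x ∉ L.1 := by
      by_contra hcon
      push Not at hcon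
      exact hc.1 ((Subgroup.eq_top_iff' _).2 hcon)
    refine ⟨{x}, by simp, hc.2 _ (lt_of_le_of_ne le_sup_left ?_)⟩
    intro he
    apply hx
    rw [he]
    exact (le_sup_right : Subgroup.closure (({x} : Finset H) : Set H) ≤ _)
      (Subgroup.subset_closure (by simp))
  refine Nat.card_le_card_of_injective
    (fun L : Mx Y N M i => (⟨L.1, key L⟩ :
      {L : Subgroup H // ∃ S : Finset H, S.card ≤ 1 ∧ L ⊔ Subgroup.closure (S : Set H) = ⊤})) ?_
  intro M M' hMM
  have h1 := congrArg Subtype.val hMM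
  exact Subtype.ext h1

end Pool.Agent.GcS
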