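import Pool.Agent.GcS.Gen
import Pool.Agent.GcS.BadJ
import Pool.Agent.GcS.NonSm
import Pool.Agent.GcS.AbC
import Pool.Agent.GcS.RlB
import Pool.Agent.SvS.TypeS
import Pool.Agent.SvS.TypeR

/-!
MP_7fa120_al, class `Gc`. The core of the steps.

Proof. Let `b = Nat.log 2 |X|`; `|H| ≤ |X|`. `gen_g` for the group `H` (its first alternative is the first one here, `EE` is monotone in `b`). Otherwise `bad_j` (for
`Y'`) gives `j ≥ 2` with `j ^ (k - 2) ≤ |Mx Y' N M j| ≤ |Mx Y N M j|`. If `M / N` is not abelian, `non_false` gives a contradiction (`Par`). Let it be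
abelian; by `mx_cm` `j = q = N.relIndex M` and `q ^ (k - 2) ≤ |Cm Y N M|`. If `β ≤ Nat.log 2 q` then `2 ^ g ≤ 2 ^ ((k - 2) * β) ≤ q ^ (k - 2) ≤ |Mx Y N M q|` and `rl_of_mx`,
`rl_mono` (`1 ≤ jg b k`) give the second alternative. Let `Nat.log 2 q + 1 ≤ β`. `ab_c` gives `C`, `δ`, `K` with `k - 2 ≤ δ + β ^ 2`, so `k / 2 ≤ δ` (`Par`). If `q` is prime, third
alternative. If not, `type_s` (with `K 0`), `type_r`, `many_of_rec`, `rl_of_many`, `rl_mono`: `g ≤ (k / 4) * (k / 4) ≤ (δ / 2) * (δ - δ / 2)`, and `δ * Nat.log 2 q ≤ b` (`indep_card`),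
so `Nat.log 2 q ≤ b / (k / 2)` and `(Nat.log 2 q + 1) ^ 2 ≤ jg b k`.
-/

set_option autoImplicit false

namespace Pool.Agent.GcS

open Pool.Agent.SvS

private theorem EE_mono {b b' : ℕ} (h : b ≤ b') (Λ B : ℕ) : EE b Λ B ≤ EE b' Λ B := by
  unfold EE
  exact Nat.mul_le_mul (Nat.div_le_div_right h)
    (Nat.add_le_add_right (Nat.add_le_add_left (Nat.log_mono_right h) _) _)

private theorem mx_mono {G : Type} [Group G] [Finite G] {Y Y' N M : Subgroup G} (h : Y ≤ Y') (j : ℕ) :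
    Nat.card (Mx Y' N M j) ≤ Nat.card (Mx Y N M j) := by
  have : Finite (Mx Y N M j) := Subtype.finite
  refine Nat.card_le_card_of_injective (fun L => ⟨L.1, L.2.1, L.2.2.1, h.trans L.2.2.2.1, L.2.2.2.2⟩) ?_
  intro L L' e
  exact Subtype.ext (congrArg (fun z : Mx Y N M j => z.1) e)

theorem core_g {X : Type} [Group X] [Finite X] (H : Subgroup X) (B k Λ β g : ℕ) (hB : Sb B H)
    (hp : Par (Nat.log 2 (Nat.card X)) k Λ β g) (Y R : Subgroup H) (hR : R.Normal) (hY : Y ⊔ R = ⊤) :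
    (∃ S : Finset H, (∀ x ∈ S, x ∈ R) ∧ S.card ≤ k + EE (Nat.log 2 (Nat.card X)) Λ B ∧
      Y ⊔ Subgroup.closure (S : Set H) = ⊤) ∨
    Rl H g (jg (Nat.log 2 (Nat.card X)) k) ∨
    ∃ (N M C : Subgroup H) (δ : ℕ) (K : Fin δ → Subgroup H), Chief N M ∧ M ≤ R ∧ Ab N M ∧ Czr C N M ∧
      Indep C (N.relIndex M) δ K ∧ k / 2 ≤ δ ∧ (N.relIndex M).Prime ∧ Nonempty (Mx Y N M (N.relIndex M)) := by
  obtain ⟨hΛ, h1, h2, h3, h4⟩ := hp
  have hcard : Nat.card H ≤ Nat.card X := Subgroup.card_le_card_group H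
  have hlog : Nat.log 2 (Nat.card H) ≤ Nat.log 2 (Nat.card X) := Nat.log_mono_right hcard
  have hk8 : 8 ≤ k := by omega
  rcases gen_g H B hB Y R hR hY k Λ hΛ with ⟨S, hS1, hS2, hS3⟩ | ⟨N, M, hch, hMR, hor, Y', hYY', x, hx, hb⟩
  · exact Or.inl ⟨S, hS1, hS2.trans (Nat.add_le_add_left (EE_mono hlog Λ B) k), hS3⟩
  right
  obtain ⟨j, hj, hm'⟩ := bad_j Y' N M hch.1 hch.2.1 hch.2.2.1.le k (by omega) x hx hb
  have hm : j ^ (k - 2) ≤ Nat.card (Mx Y N M j) := hm'.trans (mx_mono hYY' j)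
  by_cases hab : Ab N M
  swap
  · exfalso
    refine non_false Y hch hab Λ j k (hor.resolve_left hab) hj ?_ hm
    have := Nat.log_mono_right (b := 2) hlog
    omega
  obtain ⟨hjq, hcm⟩ := mx_cm Y hch hab j (k - 2) hj hm
  subst hjq
  rcases Nat.lt_or_ge (Nat.log 2 (N.relIndex M)) β with hβ | hβ
  swap
  · left
    have e1 : 2 ^ g ≤ Nat.card (Mx Y N M (N.relIndex M)) := by
      calc 2 ^ g ≤ 2 ^ ((k - 2) * β) := Nat.pow_le_pow_right (by norm_num) h3
        _ = (2 ^ β) ^ (k - 2) := by rw [← pow_mul, mul_comm]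
        _ ≤ (N.relIndex M) ^ (k - 2) := by
          refine Nat.pow_le_pow_left ?_ _
          exact (Nat.pow_le_pow_right (by norm_num) hβ).trans (Nat.pow_log_le_self 2 (by omega))
        _ ≤ _ := hm
    refine rl_mono (rl_of_mx H Y N M g _ e1) le_rfl ?_
    unfold jg
    exact Nat.one_le_pow _ _ (Nat.succ_pos _)
  obtain ⟨C, δ, K, hCz, hInd, hkδ⟩ := ab_c Y N M hch hab (k - 2) hcm
  have hδ : k / 2 ≤ δ := by
    have a1 : (Nat.log 2 (N.relIndex M) + 1) ^ 2 ≤ β ^ 2 := Nat.pow_le_pow_left (by omega) 2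
    have a2 : 2 * (β + 2) ^ 2 = 2 * β ^ 2 + 8 * β + 8 := by ring
    omega
  by_cases hq : (N.relIndex M).Prime
  · right
    refine ⟨N, M, C, δ, K, hch, hMR, hab, hCz, hInd, hδ, hq, ?_⟩
    have a1 : 0 < Nat.card (Mx Y N M (N.relIndex M)) :=
      (Nat.pow_pos (by omega : 0 < N.relIndex M)).trans_le hm
    exact (Nat.card_pos_iff.1 a1).1
  · left
    have hδ0 : 0 < δ := by omega
    obtain ⟨c1, c2, c3⟩ := hInd.1 ⟨0, hδ0⟩
    obtain ⟨S, hS1, hS2⟩ := type_s c1 c2 c3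
    have e1 := type_r hInd hq S hS2
    have e2 : 2 ^ g ≤ Nat.card (Rec C S) := by
      refine (Nat.pow_le_pow_right (by norm_num) ?_).trans e1
      exact h4.trans (Nat.mul_le_mul (by omega) (by omega))
    have e3 : Many H g ((Nat.log 2 (N.relIndex M) + 1) ^ 2) := many_of_rec H C S hS2 g _ hS1 e2
    refine rl_mono (rl_of_many e3) le_rfl ?_
    unfold jg
    refine Nat.pow_le_pow_left (Nat.add_le_add_right ?_ 1) 2
    rw [Nat.le_div_iff_mul_le (by omega)]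
    have d1 := indep_card hInd
    have d2 : 2 ^ (Nat.log 2 (N.relIndex M) * δ) ≤ Nat.card H := by
      rw [pow_mul]
      exact (Nat.pow_le_pow_left (Nat.pow_log_le_self 2 (by omega)) δ).trans d1
    have d3 : Nat.log 2 (N.relIndex M) * δ ≤ Nat.log 2 (Nat.card H) :=
      Nat.le_log_of_pow_le (by norm_num) d2
    exact (Nat.mul_le_mul_left _ hδ).trans (d3.trans hlog)

end Pool.Agent.GcS
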