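import Pool.Agent.GcS.Core
import Pool.Agent.SvS.PrimeC
import Pool.Agent.SvS.StepB

/-!
MP_7fa120_al, class `Gc`. The first step.

The same proof as for `Pool.Agent.SvS.first_b` (`SvS/FirstB.lean`, proved there), with `core_g` (for `Y = D.subgroupOf H`, `R = (oddGen H).subgroupOf H`, `lf n = Nat.log 2 |Perm (Fin n)|`).
Third alternative: `q = N.relIndex M` is prime, `L ∈ Mx Y N M q` has index `q`; if `q = 2` it is normal and contains all elements of odd order, so `M ≤ R ≤ L`, a contradiction.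
`prime_x`, `prime_b` (`k / 2 ≤ δ`), `no_iso`.
-/

set_option autoImplicit false

namespace Pool.Agent.GcS

open Equiv Pool.Agent.NilS Pool.Agent.BdO Pool.Agent.SvS

private theorem fg_map {n : ℕ} (H : Subgroup (Perm (Fin n))) :
    oddGen H = (oddGen (⊤ : Subgroup H)).map H.subtype := by
  unfold oddGen
  rw [MonoidHom.map_closure]
  congr 1
  ext g
  constructor
  · rintro ⟨hg, r, j, hr, hr2, ho⟩
    exact ⟨⟨g, hg⟩, ⟨Subgroup.mem_top _, r, j, hr, hr2, by rw [Subgroup.orderOf_mk]; exact ho⟩, rfl⟩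
  · rintro ⟨g', ⟨-, r, j, hr, hr2, ho⟩, rfl⟩
    exact ⟨g'.2, r, j, hr, hr2, by rw [← ho]; exact Subgroup.orderOf_coe g'⟩

private theorem fg_normal (G : Type) [Group G] : (oddGen (⊤ : Subgroup G)).Normal := by
  constructor
  intro n hn g
  have h1 : oddGen (⊤ : Subgroup G) ≤ (oddGen (⊤ : Subgroup G)).comap (MulAut.conj g).toMonoidHom := by
    conv_lhs => unfold oddGen
    rw [Subgroup.closure_le]
    rintro x ⟨-, r, j, hr, hr2, hx⟩
    rw [SetLike.mem_coe, Subgroup.mem_comap]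
    refine Subgroup.subset_closure ⟨Subgroup.mem_top _, r, j, hr, hr2, ?_⟩
    rw [← hx]
    exact MulEquiv.orderOf_eq (MulAut.conj g) x
  have h2 := h1 hn
  rw [Subgroup.mem_comap] at h2
  exact h2

private theorem fg_two {G : Type} [Group G] (L : Subgroup G) (h : L.index = 2) : oddGen (⊤ : Subgroup G) ≤ L := by
  unfold oddGen
  rw [Subgroup.closure_le]
  rintro x ⟨-, r, j, hr, hr2, hx⟩
  have hodd : Odd (orderOf x) := by
    rw [hx]
    exact (hr.odd_of_ne_two hr2).pow
  obtain ⟨m, hm⟩ := hodd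
  have h1 : x ^ 2 ∈ L := Subgroup.sq_mem_of_index_two h x
  have h2 : x = (x ^ 2) ^ (m + 1) := by
    rw [← pow_mul]
    have h3 : 2 * (m + 1) = orderOf x + 1 := by omega
    rw [h3, pow_succ, pow_orderOf_eq_one, one_mul]
  rw [h2]
  exact pow_mem h1 _

theorem first_g {n : ℕ} (H D : Subgroup (Perm (Fin n))) (hR : oddGen H ⊔ D = H) (B k Λ β g : ℕ) (hB : Sb B H)
    (hp : Par (lf n) k Λ β g) :
    (∃ S : Finset (Perm (Fin n)), (∀ x ∈ S, x ∈ oddGen H) ∧ S.card ≤ k + EE (lf n) Λ B ∧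
      D ⊔ Subgroup.closure (S : Set (Perm (Fin n))) = H) ∨
    Rl H g (jg (lf n) k) ∨
    ∃ (C : Subgroup (Perm (Fin n))) (x : Perm (Fin n)), C ≤ H ∧ C ⊔ Subgroup.zpowers x = H ∧
      2 ^ (k / 2) ≤ (no C).index := by
  have hcardX : Nat.card (Perm (Fin n)) = n.factorial := by
    rw [Nat.card_perm, Nat.card_fin]
  have hlf : Nat.log 2 (Nat.card (Perm (Fin n))) = lf n := by
    rw [hcardX, lf]
  have hDH : D ≤ H := by
    rw [← hR]
    exact le_sup_right
  have hinj := Subgroup.subtype_injective H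
  have hRn := fg_normal H
  have hmap := fg_map H
  have hDmap : (D.subgroupOf H).map H.subtype = D := Subgroup.map_subgroupOf_eq_of_le hDH
  have htop : (⊤ : Subgroup H).map H.subtype = H := by
    rw [← MonoidHom.range_eq_map, Subgroup.range_subtype]
  have hY : D.subgroupOf H ⊔ oddGen (⊤ : Subgroup H) = ⊤ := by
    apply Subgroup.map_injective hinj
    rw [Subgroup.map_sup, hDmap, ← hmap, htop, sup_comm, hR]
  have hk8 : 8 ≤ k := by
    have := hp.2.2.1
    omega
  have hcore := core_g H B k Λ β g hB (by rw [hlf]; exact hp) (D.subgroupOf H) (oddGen (⊤ : Subgroup H)) hRn hY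
  rw [hlf] at hcore
  rcases hcore with ⟨S, hS1, hS2, hS3⟩ | hrl | ⟨N, M, C, δ, K, hch, hMR, -, -, hI, hδ, hq, hne⟩
  · left
    refine ⟨S.map ⟨H.subtype, hinj⟩, ?_, ?_, ?_⟩
    · intro x hx
      obtain ⟨y, hy, rfl⟩ := Finset.mem_map.1 hx
      rw [hmap]
      exact Subgroup.mem_map_of_mem _ (hS1 y hy)
    · rw [Finset.card_map]
      exact hS2
    · rw [Finset.coe_map]
      change D ⊔ Subgroup.closure (H.subtype '' (S : Set H)) = H
      rw [← MonoidHom.map_closure]
      conv_lhs => rw [← hDmap]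
      rw [← Subgroup.map_sup, hS3, htop]
  · right
    left
    exact hrl
  · right
    right
    obtain ⟨L, hLc, hNL, hYL, hLM, hidx⟩ := hne
    have hq2 : N.relIndex M ≠ 2 := by
      intro h2
      apply hLc.1
      have h3 := fg_two L (hidx.trans h2)
      rw [← hLM]
      exact (sup_eq_left.2 (hMR.trans h3)).symm
    have hδ0 : 0 < δ := by omega
    have hI0 := hI.1 ⟨0, hδ0⟩
    obtain ⟨⟨x, hx⟩, -, -⟩ := prime_x hI0.1 hI0.2.1 hq hI0.2.2
    have hb := prime_b hI hq hq2
    refine ⟨C.map H.subtype, H.subtype x, Subgroup.map_subtype_le _, ?_, ?_⟩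
    · rw [← MonoidHom.map_zpowers, ← Subgroup.map_sup, hx, htop]
    · rw [← no_iso (C.equivMapOfInjective H.subtype hinj)]
      exact le_trans (Nat.pow_le_pow_right (by norm_num) hδ) hb

end Pool.Agent.GcS
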