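import Pool.Agent.GcS.Defs

/-!
MP_7fa120_al, class `Gc`. `Sb` is inherited by subgroups and under isomorphisms.

`sb_le`: a subgroup `A` of `H'` and a normal subgroup `N` of `A` are mapped to `H` by the inclusion. `sb_iso`: transport by the isomorphism.
-/

set_option autoImplicit false

namespace Pool.Agent.GcS

private theorem sb_inj {G1 G2 : Type} [Group G1] [Group G2] (f : G1 →* G2) (hf : Function.Injective f)
    {B : ℕ} (hB : Sb B G2) : Sb B G1 := by
  intro A N hN hT hmax
  have φ : A ≃* A.map f := A.equivMapOfInjective f hf
  have hs : Function.Surjective φ.symm.toMonoidHom := φ.symm.surjective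
  have h1 := hB (A.map f) (N.comap φ.symm.toMonoidHom) (hN.comap _) (fun h => hT ?_)
    (fun K hK hNK => ?_)
  · rcases h1 with h1 | h1
    · left
      intro a b
      have h2 := h1 (φ a) (φ b)
      rw [Subgroup.mem_comap] at h2
      simpa using h2
    · right
      rwa [Subgroup.index_comap_of_surjective _ hs] at h1
  · rw [eq_top_iff]
    intro x _
    have h2 : φ x ∈ N.comap φ.symm.toMonoidHom := by rw [h]; exact Subgroup.mem_top _
    rw [Subgroup.mem_comap] at h2
    simpa using h2
  · have h2 : N ≤ K.comap φ.toMonoidHom := by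
      intro x hx
      rw [Subgroup.mem_comap]
      apply hNK
      rw [Subgroup.mem_comap]
      simpa using hx
    rcases hmax (K.comap φ.toMonoidHom) (hK.comap _) h2 with h3 | h3
    · left
      ext y
      rw [Subgroup.mem_comap, ← h3, Subgroup.mem_comap]
      simp
    · right
      rw [eq_top_iff]
      intro y _
      have h4 : φ.symm y ∈ K.comap φ.toMonoidHom := by rw [h3]; exact Subgroup.mem_top _
      rw [Subgroup.mem_comap] at h4
      simpa using h4

theorem sb_le {G : Type} [Group G] {H' H : Subgroup G} (h : H' ≤ H) {B : ℕ} (hB : Sb B H) : Sb B H' :=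
  sb_inj (Subgroup.inclusion h) (Subgroup.inclusion_injective h) hB

theorem sb_iso {G G' : Type} [Group G] [Group G'] (e : G ≃* G') {B : ℕ} (hB : Sb B G) : Sb B G' :=
  sb_inj e.symm.toMonoidHom e.symm.injective hB

end Pool.Agent.GcS
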