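import Pool.Agent.GcS.StepG
import Pool.Agent.GcS.SbB
import Pool.Agent.GcS.RlB

/-!
MP_7fa120_al, class `Gc`. The process.

The same proof as for `Pool.Agent.SvS.proc_b` (`SvS/ProcB.lean`, proved there), with `step_g`, `nil_up`, `rl_up` and `sb_le`: by induction on `t`, for every `H` with `Sb B H` and
`2 ^ (b + 1) ≤ (no H).index * 2 ^ ((t + 1) * (k / 2 - 1))`, `Nil H (no H).index (k + EE b Λ B + t) ∨ Rl H g (jg b k + t)`.
-/

set_option autoImplicit false

namespace Pool.Agent.GcS

open Pool.Agent.SvS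

private theorem proc_aux {X : Type} [Group X] [Finite X] (B k Λ β g : ℕ)
    (hp : Par (Nat.log 2 (Nat.card X)) k Λ β g) : ∀ (t : ℕ) (H : Subgroup X),
    Sb B H →
    2 ^ (Nat.log 2 (Nat.card X) + 1) ≤ (no H).index * 2 ^ ((t + 1) * (k / 2 - 1)) →
    Nil H (no H).index (k + EE (Nat.log 2 (Nat.card X)) Λ B + t) ∨
      Rl H g (jg (Nat.log 2 (Nat.card X)) k + t) := by
  intro t
  induction t with
  | zero =>
    intro H hs h
    rcases step_g H B k Λ β g hs hp with h1 | h1 | ⟨H', x, h1, h2, h3⟩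
    · exact Or.inl h1
    · exact Or.inr h1
    · exfalso
      have h4 : (no H').index ≤ Nat.card X :=
        (Nat.le_of_dvd Nat.card_pos (Subgroup.index_dvd_card _)).trans
          (Nat.le_of_dvd Nat.card_pos (Subgroup.card_subgroup_dvd_card H'))
      have h5 : Nat.card X < 2 ^ (Nat.log 2 (Nat.card X) + 1) :=
        Nat.lt_pow_succ_log_self (by norm_num) _
      rw [zero_add, one_mul] at h
      omega
  | succ t ih =>
    intro H hs h
    rcases step_g H B k Λ β g hs hp with h1 | h1 | ⟨H', x, h1, h2, h3⟩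
    · refine Or.inl (nil_up h1 le_rfl ∅ (Nat.zero_le _) ?_)
      rw [Finset.coe_empty, Subgroup.closure_empty, sup_bot_eq]
    · exact Or.inr (rl_mono h1 le_rfl (Nat.le_add_right _ _))
    · have hs' : Sb B H' := sb_le h1 hs
      have h4 : 2 ^ (Nat.log 2 (Nat.card X) + 1) ≤ (no H').index * 2 ^ ((t + 1) * (k / 2 - 1)) :=
        calc 2 ^ (Nat.log 2 (Nat.card X) + 1) ≤
              (no H).index * 2 ^ ((t + 1 + 1) * (k / 2 - 1)) := h
          _ = (no H).index * 2 ^ (k / 2 - 1) * 2 ^ ((t + 1) * (k / 2 - 1)) := by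
            rw [mul_assoc, ← pow_add]
            congr 2
            ring
          _ ≤ (no H').index * 2 ^ ((t + 1) * (k / 2 - 1)) := Nat.mul_le_mul_right _ h3
      have h5 : (no H).index ≤ (no H').index := by
        refine le_trans ?_ h3
        exact Nat.le_mul_of_pos_right _ (by positivity)
      have h6 : H' ⊔ Subgroup.closure ((({x} : Finset X)) : Set X) = H := by
        rw [Finset.coe_singleton, ← Subgroup.zpowers_eq_closure, h2]
      rcases ih H' hs' h4 with h7 | h7
      · exact Or.inl (nil_up (t := 1) h7 h5 {x} (by rw [Finset.card_singleton]) h6)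
      · exact Or.inr (rl_up (t := 1) h7 {x} (by rw [Finset.card_singleton]) h6)

theorem proc_g {X : Type} [Group X] [Finite X] (H : Subgroup X) (B k Λ β g : ℕ) (hB : Sb B H)
    (hp : Par (Nat.log 2 (Nat.card X)) k Λ β g) :
    Nil H (no H).index (k + EE (Nat.log 2 (Nat.card X)) Λ B + tg (Nat.log 2 (Nat.card X)) k) ∨
      Rl H g (jg (Nat.log 2 (Nat.card X)) k + tg (Nat.log 2 (Nat.card X)) k) := by
  refine proc_aux B k Λ β g hp _ H hB ?_
  have hk : 8 ≤ k := by
    obtain ⟨_, h, _⟩ := hp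
    omega
  have h1 : Nat.log 2 (Nat.card X) + 1 ≤ (tg (Nat.log 2 (Nat.card X)) k + 1) * (k / 2 - 1) := by
    have h2 := Nat.lt_mul_div_succ (Nat.log 2 (Nat.card X)) (show 0 < k / 2 - 1 by omega)
    unfold tg
    rw [mul_comm]
    exact h2
  have h3 : 1 ≤ (no H).index := Nat.one_le_iff_ne_zero.2 Subgroup.index_ne_zero_of_finite
  calc 2 ^ (Nat.log 2 (Nat.card X) + 1) ≤
        2 ^ ((tg (Nat.log 2 (Nat.card X)) k + 1) * (k / 2 - 1)) :=
          Nat.pow_le_pow_right (by norm_num) h1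
    _ ≤ (no H).index * 2 ^ ((tg (Nat.log 2 (Nat.card X)) k + 1) * (k / 2 - 1)) :=
        Nat.le_mul_of_pos_left _ h3

end Pool.Agent.GcS
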