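import Pool.Agent.GcS.Core
import Pool.Agent.SvS.PrimeC
import Pool.Agent.SvS.NilSupp
import Pool.Agent.SvS.StepB

/-!
MP_7fa120_al, class `Gc`. One step of the process.

The same proof as for `Pool.Agent.SvS.step_b` (`SvS/StepB.lean`, proved there), with `core_g` instead of `gen` and `extr`, applied to `R = na H` and a nilpotent `Y` with `Y ⊔ na H = ⊤`
(`nil_supp`). First alternative: `Nil H (no H).index (k + EE …)` (`nil_odd`). Third: `q = N.relIndex M` prime. `C ≠ ⊤`: otherwise `L ∈ Mx Y N M q` is normalised by `M` and by `L`,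
so it is normal of prime index `q`, `na H ≤ L`, and `M ≤ na H ≤ L`, a contradiction. `prime_x` gives `x`, `prime_c` the inequality (`k / 2 - 1 ≤ δ - 1`, `1 ≤ δ`); `no_iso`.
-/

set_option autoImplicit false

namespace Pool.Agent.GcS

open Pool.Agent.SvS

theorem step_g {X : Type} [Group X] [Finite X] (H : Subgroup X) (B k Λ β g : ℕ) (hB : Sb B H)
    (hp : Par (Nat.log 2 (Nat.card X)) k Λ β g) :
    Nil H (no H).index (k + EE (Nat.log 2 (Nat.card X)) Λ B) ∨ Rl H g (jg (Nat.log 2 (Nat.card X)) k) ∨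
      ∃ (H' : Subgroup X) (x : X), H' ≤ H ∧ H' ⊔ Subgroup.zpowers x = H ∧
        (no H).index * 2 ^ (k / 2 - 1) ≤ (no H').index := by
  obtain ⟨Y, hY1, hY2⟩ := nil_supp H
  rcases core_g H B k Λ β g hB hp Y (na H) (na_normal H) hY2 with
    ⟨S, _, hS2, hS3⟩ | h | ⟨N, M, C, δ, K, hch, hM, hab, hC, hI, hδ, hq, ⟨⟨L, hL1, hL2, _, hL4, hL5⟩⟩⟩
  · left
    obtain ⟨a, m, hm1, hm2, hm3⟩ := nil_odd Y hY2
    refine ⟨Y.map H.subtype, S.map ⟨H.subtype, H.subtype_injective⟩, a, m, ?_, ?_, hm2, hm3, ?_, ?_⟩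
    · have e := Y.equivMapOfInjective H.subtype H.subtype_injective
      exact (Group.isNilpotent_congr e).1 hY1
    · rw [← hm1]
      exact Subgroup.card_map_of_injective H.subtype_injective
    · rw [Finset.card_map]
      exact hS2
    · rw [Finset.coe_map]
      change Y.map H.subtype ⊔ Subgroup.closure (H.subtype '' (S : Set H)) = H
      rw [← MonoidHom.map_closure, ← Subgroup.map_sup, hS3, ← MonoidHom.range_eq_map, Subgroup.range_subtype]
  · right
    left
    exact h
  · right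
    right
    have hk : 8 ≤ k := by
      obtain ⟨-, h2, -⟩ := hp
      omega
    have i0 : Fin δ := ⟨0, by omega⟩
    have hCtop : C ≠ ⊤ := by
      intro htop
      obtain ⟨hNn, hMn, hlt, _⟩ := hch
      have hLn : L.Normal := by
        refine ⟨fun x hx g => ?_⟩
        have hg : g ∈ L ⊔ M := by rw [hL4]; exact Subgroup.mem_top g
        obtain ⟨l, hl, m, hm, rfl⟩ := Subgroup.mem_sup_of_normal_right.1 hg
        have h1 : x * m * x⁻¹ * m⁻¹ ∈ N := (hC x).1 (by rw [htop]; exact Subgroup.mem_top x) m hm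
        have e1 : l * m * x * (l * m)⁻¹ = l * ((x * m * x⁻¹ * m⁻¹)⁻¹ * x) * l⁻¹ := by group
        rw [e1]
        exact mul_mem (mul_mem hl (mul_mem (inv_mem (hL2 h1)) hx)) (inv_mem hl)
      have h2 : na H ≤ L := sInf_le ⟨hLn, N.relIndex M, hq, hL5⟩
      apply hL1.1
      rw [← hL4]
      exact (sup_eq_left.2 (hM.trans h2)).symm
    obtain ⟨⟨x, hx⟩, _, _⟩ := prime_x (hI.1 i0).1 (hI.1 i0).2.1 hq (hI.1 i0).2.2
    have h1 := prime_c hI hq (by omega) hCtop
    refine ⟨C.map H.subtype, (x : X), Subgroup.map_subtype_le C, ?_, ?_⟩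
    · have h2 : (Subgroup.zpowers x).map H.subtype = Subgroup.zpowers (x : X) :=
        MonoidHom.map_zpowers H.subtype x
      rw [← h2, ← Subgroup.map_sup, hx, ← MonoidHom.range_eq_map, Subgroup.range_subtype]
    · rw [← no_iso (C.equivMapOfInjective H.subtype H.subtype_injective)]
      refine le_trans (Nat.mul_le_mul_left _ ?_) h1
      exact Nat.pow_le_pow_right (by norm_num) (by omega)

end Pool.Agent.GcS
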