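import Pool.Agent.GcS.ChGen

/-!
MP_7fa120_al, class `Gc`. Few generators or a bad chief factor.

Proof (compare `SvS/Gen.lean`). Let `e = B + Nat.log 2 (Nat.log 2 |G|) + 2`. Among the normal subgroups `T ≤ R` of `G` for which there are `w : ℕ`, a finite set `Z ⊆ R` with
`Z.card ≤ w * e`, `2 ^ (Λ * w) * |T| ≤ |R|`, and `x : Fin k → G` with values in `R` such that `Y ⊔ closure (range x ∪ Z) ⊔ T = ⊤`, let `T` be one of minimal order (`T = R`,
`w = 0`, `Z = ∅`, `x = 1` is possible). If `T = ⊥` the first alternative holds with `S = range x ∪ Z` (`w ≤ Nat.log 2 |R| / Λ`). Let `T ≠ ⊥`, `M = T`, `N` maximal among the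
normal subgroups of `G` properly contained in `M`; `Chief N M`. If `M / N` is abelian or of order at most `2 ^ Λ`: the second alternative holds with
`Y' = Y ⊔ closure Z` (otherwise `N` is a smaller `T`, with the same `w`, `Z` and `x i * m i`). Otherwise let `S` be from `ch_gen`; then `N` is a smaller `T` with
`w + 1`, `Z ∪ S` and the same `x`: `2 ^ (Λ * (w + 1)) * |N| ≤ 2 ^ (Λ * w) * |M|` as `|M / N| > 2 ^ Λ`. A contradiction.
-/

set_option autoImplicit false

namespace Pool.Agent.GcS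

open Pool.Agent.SvS

theorem gen_g (G : Type) [Group G] [Finite G] (B : ℕ) (hB : Sb B G) (Y R : Subgroup G) (hR : R.Normal) (hY : Y ⊔ R = ⊤)
    (k Λ : ℕ) (hΛ : 1 ≤ Λ) :
    (∃ S : Finset G, (∀ x ∈ S, x ∈ R) ∧ S.card ≤ k + EE (Nat.log 2 (Nat.card G)) Λ B ∧
      Y ⊔ Subgroup.closure (S : Set G) = ⊤) ∨
    (∃ N M : Subgroup G, Chief N M ∧ M ≤ R ∧ (Ab N M ∨ N.relIndex M ≤ 2 ^ Λ) ∧ ∃ Y' : Subgroup G, Y ≤ Y' ∧ ∃ x : Fin k → G,
      Y' ⊔ Subgroup.closure (Set.range x) ⊔ M = ⊤ ∧ ∀ m : Fin k → G, (∀ i, m i ∈ M) →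
        Y' ⊔ Subgroup.closure (Set.range (fun i => x i * m i)) ⊔ N ≠ ⊤) := by
  classical
  obtain ⟨e, he⟩ : ∃ e : ℕ, e = B + Nat.log 2 (Nat.log 2 (Nat.card G)) + 2 := ⟨_, rfl⟩
  obtain ⟨T, hT, hTmin⟩ := WellFounded.has_min (wellFounded_lt : WellFounded (α := Subgroup G) (· < ·))
    {T : Subgroup G | T.Normal ∧ T ≤ R ∧ ∃ w : ℕ, ∃ Z : Finset G, Z.card ≤ w * e ∧ (∀ z ∈ Z, z ∈ R) ∧
      2 ^ (Λ * w) * Nat.card T ≤ Nat.card R ∧ ∃ x : Fin k → G, (∀ j, x j ∈ R) ∧
      (Y ⊔ Subgroup.closure (Z : Set G)) ⊔ Subgroup.closure (Set.range x) ⊔ T = ⊤}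
    ⟨R, hR, le_rfl, 0, ∅, by simp, by simp, by simp, fun _ => 1, fun _ => one_mem R, by
      rw [eq_top_iff, ← hY]
      exact sup_le (le_sup_left.trans (le_sup_left.trans le_sup_left)) le_sup_right⟩
  obtain ⟨hTn, hTR, w, Z, hZc, hZR, hcard, x, hx, hxT⟩ := hT
  by_cases hb : T = ⊥
  · left
    refine ⟨Finset.univ.image x ∪ Z, ?_, ?_, ?_⟩
    · intro y hy
      rcases Finset.mem_union.1 hy with hy | hy
      · obtain ⟨j, -, rfl⟩ := Finset.mem_image.1 hy
        exact hx j
      · exact hZR y hy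
    · have h1 : (Finset.univ.image x).card ≤ k := by
        refine Finset.card_image_le.trans ?_
        rw [Finset.card_univ, Fintype.card_fin]
      have h2 : 2 ^ (Λ * w) ≤ Nat.card G := by
        rw [hb, Subgroup.card_bot, mul_one] at hcard
        exact hcard.trans (Subgroup.card_le_card_group R)
      have h3 : Λ * w ≤ Nat.log 2 (Nat.card G) :=
        Nat.le_log_of_pow_le (by norm_num) h2
      have h4 : w ≤ Nat.log 2 (Nat.card G) / Λ := by
        rw [Nat.le_div_iff_mul_le (by omega), mul_comm]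
        exact h3
      have h5 : w * e ≤ EE (Nat.log 2 (Nat.card G)) Λ B := by
        unfold EE
        rw [he]
        exact Nat.mul_le_mul_right _ h4
      have h6 := Finset.card_union_le (Finset.univ.image x) Z
      omega
    · rw [Finset.coe_union, Finset.coe_image, Finset.coe_univ, Set.image_univ, Subgroup.closure_union]
      rw [hb, sup_bot_eq] at hxT
      rw [← hxT, sup_comm (Subgroup.closure (Set.range x)), sup_assoc]
  · right
    obtain ⟨N, hN, hNmax⟩ := WellFounded.has_min (wellFounded_gt : WellFounded (α := Subgroup G) (· > ·))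
      {N : Subgroup G | N.Normal ∧ N < T} ⟨⊥, Subgroup.normal_bot, bot_lt_iff_ne_bot.2 hb⟩
    obtain ⟨hNn, hNT⟩ := hN
    have hch : Chief N T := by
      refine ⟨hNn, hTn, hNT, ?_⟩
      intro T' hT' h1 h2
      rcases h2.eq_or_lt with h3 | h3
      · exact Or.inr h3
      · left
        have h4 := hNmax T' ⟨hT', h3⟩
        by_contra h5
        exact h4 (lt_of_le_of_ne h1 fun h => h5 h.symm)
    have hrel : Nat.card T = N.relIndex T * Nat.card N := by
      have h1 := (N.subgroupOf T).card_mul_index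
      rw [Nat.card_congr (Subgroup.subgroupOfEquivOfLe hNT.le).toEquiv] at h1
      rw [← h1, mul_comm]
      rfl
    by_cases hab : Ab N T ∨ N.relIndex T ≤ 2 ^ Λ
    · refine ⟨N, T, hch, hTR, hab, Y ⊔ Subgroup.closure (Z : Set G), le_sup_left, x, hxT, ?_⟩
      intro m hm h
      refine hTmin N ⟨hNn, hNT.le.trans hTR, w, Z, hZc, hZR, ?_, fun i => x i * m i, ?_, h⟩ hNT
      · exact (Nat.mul_le_mul_left _ (Subgroup.card_le_of_le hNT.le)).trans hcard
      · exact fun j => mul_mem (hx j) (hTR (hm j))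
    · exfalso
      rw [not_or, not_le] at hab
      obtain ⟨hna, hlt⟩ := hab
      obtain ⟨S, hSM, hSc, hS⟩ := ch_gen hB hch hna
      refine hTmin N ⟨hNn, hNT.le.trans hTR, w + 1, Z ∪ S, ?_, ?_, ?_, x, hx, ?_⟩ hNT
      · refine (Finset.card_union_le _ _).trans ?_
        rw [add_mul, one_mul]
        exact add_le_add hZc (by rw [he]; exact hSc)
      · intro z hz
        rcases Finset.mem_union.1 hz with hz | hz
        · exact hZR z hz
        · exact hTR (hSM z hz)
      · refine le_trans ?_ hcard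
        rw [hrel, mul_add, mul_one, pow_add, mul_assoc]
        exact Nat.mul_le_mul_left _ (Nat.mul_le_mul_right _ hlt.le)
      · rw [eq_top_iff, ← hxT, Finset.coe_union, Subgroup.closure_union]
        refine sup_le (sup_le (sup_le ?_ ?_) ?_) ?_
        · exact le_sup_left.trans (le_sup_left.trans le_sup_left)
        · exact (le_sup_left.trans le_sup_right).trans (le_sup_left.trans le_sup_left)
        · exact le_sup_right.trans le_sup_left
        · rw [← hS]
          exact sup_le le_sup_right ((le_sup_right.trans le_sup_right).trans (le_sup_left.trans le_sup_left))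

end Pool.Agent.GcS
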