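import Pool.Agent.GcS.Defs
import Pool.Agent.NilS.Res

/-!
MP_7fa120_al, class `Gc`. Closure properties.

`gc_le`: let `H' ≤ H`. `oddGen H' ≤ oddGen H`, so an orbit `Δ'` of `oddGen H'` is contained in an orbit `Δ` of `oddGen H`; if `Δ'` has more than `ℓ`
points, `res (oddGen H) Δ` is solvable, and `res (oddGen H') Δ'` is a quotient of a subgroup of it (the restrictions to `Δ'` of the
elements of `res (oddGen H') Δ`; `Δ'` is invariant).
`gc_sol`: `oddGen H ≤ H` is solvable and `res (oddGen H) Δ` is a quotient of it (`exists_resHom` in `NilS/Res.lean`).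
`gc_sb`: let `A ≤ H` and `N` a maximal normal subgroup of `A` (so `A / N` is simple), `A / N` not abelian. Let `R = oddGen H`. `A / (A ⊓ R)` is a 2-group
(`H / R` is a 2-group) and `A / N` is not, so `(A ⊓ R) N = A` (otherwise `A ⊓ R ≤ N` and `A / N` is a simple 2-group, abelian). Let
`Δ_1, …, Δ_t` be the orbits of `R`, `A_0 = A ⊓ R` and `A_i` the group of the elements of `A ⊓ R` which are the identity on `Δ_1, …, Δ_i`, a normal
subgroup of `A ⊓ R` (elements of `R` preserve the `Δ_i`), `A_t = 1`. Each `A_i N` is normalised by `A ⊓ R` and `N`, so it is normal in `A` and equals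
`N` or `A`. So there is `i` with `A_(i-1) N = A`, `A_i ≤ N`. `A / N` is a quotient of `A_(i-1) / A_i`, which is isomorphic to a group of permutations of
`Δ_i`, the restrictions, contained in `res R Δ_i`. If `Δ_i` has more than `ℓ` points it is solvable, so `A / N` is solvable and simple, so
abelian. Otherwise `|A / N| ≤ ℓ ! ≤ 2 ^ (Nat.log 2 ℓ ! + 1)`.
-/

set_option autoImplicit false

namespace Pool.Agent.GcS

open Equiv Pool.Agent.NilS Pool.Agent.BdO Pool.Agent.SvS

/-- The orbit of `x` as a finset. -/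
private theorem gb_orb {n : ℕ} (R : Subgroup (Perm (Fin n))) (x : Fin n) :
    ∃ Δ : Finset (Fin n), Orb R Δ ∧ x ∈ Δ ∧ ∀ y, y ∈ Δ ↔ ∃ r ∈ R, r x = y := by
  classical
  refine ⟨Finset.univ.filter fun y => ∃ r ∈ R, r x = y, ⟨?_, ?_, ?_⟩, ?_, ?_⟩
  · intro h hh y hy
    rw [Finset.mem_filter] at hy ⊢
    obtain ⟨-, r, hr, rfl⟩ := hy
    exact ⟨Finset.mem_univ _, h * r, R.mul_mem hh hr, rfl⟩
  · exact ⟨x, by rw [Finset.mem_filter]; exact ⟨Finset.mem_univ _, 1, R.one_mem, rfl⟩⟩
  · intro y hy z hz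
    rw [Finset.mem_filter] at hy hz
    obtain ⟨-, r, hr, rfl⟩ := hy
    obtain ⟨-, s, hs, rfl⟩ := hz
    refine ⟨s * r⁻¹, R.mul_mem hs (R.inv_mem hr), ?_⟩
    rw [Perm.mul_apply]
    congr 1
    rw [← Perm.mul_apply, inv_mul_cancel, Perm.one_apply]
  · rw [Finset.mem_filter]
    exact ⟨Finset.mem_univ _, 1, R.one_mem, rfl⟩
  · intro y
    rw [Finset.mem_filter]
    exact ⟨fun h => h.2, fun h => ⟨Finset.mem_univ _, h⟩⟩

private theorem gb_odd_mono {G : Type} [Group G] {H' H : Subgroup G} (h : H' ≤ H) : oddGen H' ≤ oddGen H :=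
  Subgroup.closure_mono fun _ hg => ⟨h hg.1, hg.2⟩

private theorem gb_odd_le {G : Type} [Group G] (H : Subgroup G) : oddGen H ≤ H :=
  (Subgroup.closure_le _).2 fun _ hg => hg.1

private theorem gb_sol_le {G : Type} [Group G] {K H : Subgroup G} (h : K ≤ H) (hs : Group.IsSolvable H) :
    Group.IsSolvable K :=
  Group.isSolvable_of_isSolvable_injective (Subgroup.inclusion_injective h)

private theorem gb_sol_res {n : ℕ} {H : Subgroup (Perm (Fin n))} {U : Finset (Fin n)} (hU : Inv H U)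
    (hs : Group.IsSolvable H) : Group.IsSolvable (res H U) := by
  obtain ⟨f, hf, -, -, -⟩ := exists_resHom H U hU
  rw [← hf]
  exact Group.isSolvable_of_surjective f.rangeRestrict_surjective

private theorem gb_inv_le {n : ℕ} {K H : Subgroup (Perm (Fin n))} {U : Finset (Fin n)} (h : K ≤ H)
    (hU : Inv H U) : Inv K U := fun k hk => hU k (h hk)

theorem gc_le {n ℓ : ℕ} {H' H : Subgroup (Perm (Fin n))} (h : H' ≤ H) (hH : Gc ℓ H) : Gc ℓ H' := by
  intro Δ' hΔ' hcard
  obtain ⟨x, hx⟩ := hΔ'.2.1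
  obtain ⟨Δ, hΔ, -, hmem⟩ := gb_orb (oddGen H) x
  have hR := gb_odd_mono h
  have hsub : Δ' ⊆ Δ := by
    intro y hy
    obtain ⟨r, hr, hrx⟩ := hΔ'.2.2 x hx y hy
    exact (hmem y).2 ⟨r, hR hr, hrx⟩
  have h1 := hH Δ hΔ (hcard.trans_le (Finset.card_le_card hsub))
  have hle : res (oddGen H') Δ ≤ res (oddGen H) Δ := by
    rintro σ ⟨h2, k, hk, h3⟩
    exact ⟨h2, k, hR hk, h3⟩
  have h2 := gb_sol_le hle h1
  rw [← res_res (gb_inv_le hR hΔ.1) hΔ'.1 hsub]
  exact gb_sol_res (inv_res hΔ'.1 hsub) h2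

theorem gc_sol {n ℓ : ℕ} {H : Subgroup (Perm (Fin n))} (h : Group.IsSolvable H) : Gc ℓ H :=
  fun _ hΔ _ => gb_sol_res hΔ.1 (gb_sol_le (gb_odd_le H) h)

/-- The group generated by the elements of odd prime power order is normalised by `H`. -/
private theorem gb_conj {G : Type} [Group G] {H : Subgroup G} {h : G} (hh : h ∈ H) {r : G} (hr : r ∈ oddGen H) :
    h * r * h⁻¹ ∈ oddGen H := by
  have key : (oddGen H).map (MulAut.conj h).toMonoidHom ≤ oddGen H := by
    unfold oddGen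
    rw [MonoidHom.map_closure, Subgroup.closure_le]
    rintro _ ⟨g, ⟨hg, p, j, hp, hp2, ho⟩, rfl⟩
    refine Subgroup.subset_closure ⟨?_, p, j, hp, hp2, ?_⟩
    · show h * g * h⁻¹ ∈ H
      exact H.mul_mem (H.mul_mem hh hg) (H.inv_mem hh)
    · rw [← ho]
      exact orderOf_injective (MulAut.conj h).toMonoidHom (MulAut.conj h).injective g
  exact key ⟨r, hr, rfl⟩

/-- A simple solvable quotient is abelian. -/
private theorem gb_simple {A : Type} [Group A] (N : Subgroup A) [N.Normal] (hN : N ≠ ⊤)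
    (hmax : ∀ K : Subgroup A, K.Normal → N ≤ K → K = N ∨ K = ⊤) (hs : Group.IsSolvable (A ⧸ N)) :
    ∀ a b : A, a * b * a⁻¹ * b⁻¹ ∈ N := by
  have hnt : Nontrivial (A ⧸ N) := by
    rw [QuotientGroup.nontrivial_iff]
    exact hN
  have h1 := Group.IsSolvable.commutator_lt_top_of_nontrivial (A ⧸ N)
  set K : Subgroup A := (commutator (A ⧸ N)).comap (QuotientGroup.mk' N) with hK
  have hle : N ≤ K := by
    intro x hx
    rw [hK, Subgroup.mem_comap]
    have : QuotientGroup.mk' N x = 1 := (QuotientGroup.eq_one_iff x).2 hx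
    rw [this]
    exact Subgroup.one_mem _
  have hmem : ∀ a b : A, a * b * a⁻¹ * b⁻¹ ∈ K := by
    intro a b
    rw [hK, Subgroup.mem_comap]
    simp only [map_mul, map_inv]
    exact Subgroup.commutator_mem_commutator (Subgroup.mem_top _) (Subgroup.mem_top _)
  rcases hmax K inferInstance hle with h2 | h2
  · intro a b
    rw [← h2]
    exact hmem a b
  · exfalso
    apply h1.ne
    rw [eq_top_iff]
    intro q _
    obtain ⟨a, rfl⟩ := QuotientGroup.mk'_surjective N q
    have : a ∈ K := by rw [h2]; trivial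
    exact this

/-- If all elements of odd prime power order are in `N`, the quotient is a 2-group. -/
private theorem gb_two {A : Type} [Group A] [Finite A] (N : Subgroup A) [N.Normal]
    (h : ∀ a : A, Opp a → a ∈ N) : Group.IsSolvable (A ⧸ N) := by
  have h1 : ∀ {d : ℕ}, Nat.Prime d → d ∣ Nat.card (A ⧸ N) → d = 2 := by
    intro d hd hdvd
    by_contra hne
    have : Fact d.Prime := ⟨hd⟩
    obtain ⟨q, hq⟩ := exists_prime_orderOf_dvd_card' (G := A ⧸ N) d hdvd
    obtain ⟨a, rfl⟩ := QuotientGroup.mk'_surjective N q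
    have ha : orderOf a ≠ 0 := (orderOf_pos a).ne'
    obtain ⟨m, hm, hfac⟩ : ∃ m : ℕ, ¬ d ∣ m ∧ orderOf a = d ^ (orderOf a).factorization d * m :=
      ⟨orderOf a / d ^ (orderOf a).factorization d, Nat.not_dvd_ordCompl hd ha,
        (Nat.ordProj_mul_ordCompl_eq_self _ _).symm⟩
    have hm0 : m ≠ 0 := by
      rintro rfl
      exact hm (dvd_zero d)
    have ho : orderOf (a ^ m) = d ^ (orderOf a).factorization d := by
      rw [orderOf_pow_of_dvd hm0 ⟨_, by rw [mul_comm]; exact hfac⟩]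
      conv_lhs => rw [hfac]
      exact Nat.mul_div_cancel _ (Nat.pos_of_ne_zero hm0)
    have h2 := h (a ^ m) ⟨d, _, hd, hne, ho⟩
    have h3 : (QuotientGroup.mk' N a) ^ m = 1 := by
      rw [← map_pow]
      exact (QuotientGroup.eq_one_iff _).2 h2
    have h4 := orderOf_dvd_of_pow_eq_one h3
    rw [hq] at h4
    exact hm h4
  have h2 := Nat.eq_prime_pow_of_unique_prime_dvd (Nat.card_pos (α := A ⧸ N)).ne' h1
  have : Fact (Nat.Prime 2) := ⟨Nat.prime_two⟩
  have h3 : IsPGroup 2 (A ⧸ N) := IsPGroup.of_card h2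
  have h4 := h3.isNilpotent
  infer_instance

private theorem gb_card_res {n : ℕ} (R : Subgroup (Perm (Fin n))) (Δ : Finset (Fin n)) :
    Nat.card (res R Δ) ≤ Δ.card.factorial := by
  classical
  have hinv : ∀ σ : res R Δ, ∀ x, (σ : Perm (Fin n)) x ∈ Δ ↔ x ∈ Δ := by
    rintro ⟨σ, h1, -⟩ x
    constructor
    · intro h
      by_contra hx
      have := h1 x hx
      change σ x ∈ Δ at h
      rw [this] at h
      exact hx h
    · intro hx
      by_contra h
      change ¬ σ x ∈ Δ at h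
      have h2 := h1 _ h
      exact h (by rw [σ.injective h2]; exact hx)
  let f : res R Δ → Perm {x // x ∈ Δ} := fun σ => Perm.subtypePerm (σ : Perm (Fin n)) (hinv σ)
  have hf : Function.Injective f := by
    intro σ τ h
    apply Subtype.ext
    ext x
    by_cases hx : x ∈ Δ
    · have := congrArg (fun g : Perm {x // x ∈ Δ} => ((g ⟨x, hx⟩ : {x // x ∈ Δ}) : Fin n)) h
      exact congrArg Fin.val this
    · rw [σ.2.1 x hx, τ.2.1 x hx]
  have h1 := Nat.card_le_card_of_injective f hf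
  have h2 : Nat.card {x // x ∈ Δ} = Δ.card := by
    rw [Nat.card_eq_fintype_card, Fintype.card_coe]
  rw [Nat.card_perm, h2] at h1
  exact h1

theorem gc_sb {n ℓ : ℕ} {H : Subgroup (Perm (Fin n))} (h : Gc ℓ H) : Sb (Nat.log 2 ℓ.factorial + 1) H := by
  classical
  intro A N hNn hN hmax
  have := hNn
  set φ : A →* Perm (Fin n) := H.subtype.comp A.subtype with hφ
  have hφi : Function.Injective φ := fun a b hab => Subtype.ext (Subtype.ext hab)
  have hφH : ∀ a : A, φ a ∈ H := fun a => (a : H).2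
  set R := oddGen H with hR
  -- the subgroups `F U`
  set F : Finset (Fin n) → Subgroup A := fun U => (fx R U).comap φ with hF
  have hFmem : ∀ (U : Finset (Fin n)) (a : A), a ∈ F U ↔ φ a ∈ R ∧ ∀ x ∈ U, φ a x = x := fun U a => Iff.rfl
  have hR'conj : ∀ a : A, ∀ r ∈ F ∅, a * r * a⁻¹ ∈ F ∅ := by
    intro a r hr
    rw [hFmem] at hr ⊢
    refine ⟨?_, fun x hx => absurd hx (Finset.notMem_empty x)⟩
    rw [map_mul, map_mul, map_inv]
    exact gb_conj (hφH a) hr.1
  have hR'n : (F ∅).Normal := ⟨fun r hr a => hR'conj a r hr⟩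
  by_cases hsol : Group.IsSolvable (A ⧸ N)
  · exact Or.inl (gb_simple N hN hmax hsol)
  right
  -- `R' N = A`
  have hRN : F ∅ ⊔ N = ⊤ := by
    rcases hmax (F ∅ ⊔ N) inferInstance le_sup_right with h1 | h1
    · exfalso
      apply hsol
      refine gb_two N fun a ha => ?_
      have h2 : F ∅ ≤ N := by rw [← h1]; exact le_sup_left
      refine h2 ?_
      rw [hFmem]
      refine ⟨Subgroup.subset_closure ⟨hφH a, ?_⟩, fun x hx => absurd hx (Finset.notMem_empty x)⟩
      obtain ⟨p, j, hp, hp2, ho⟩ := ha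
      exact ⟨p, j, hp, hp2, by rw [orderOf_injective φ hφi, ho]⟩
    · exact h1
  -- normality of `F U ⊔ N`
  have hnorm : ∀ U : Finset (Fin n), Inv R U → (F U ⊔ N).Normal := by
    intro U hU
    have h1 : ∀ r ∈ F ∅, ∀ y ∈ F U ⊔ N, r * y * r⁻¹ ∈ F U ⊔ N := by
      intro r hr y hy
      rw [Subgroup.mem_sup_of_normal_right] at hy ⊢
      obtain ⟨f, hf, m, hm, rfl⟩ := hy
      refine ⟨r * f * r⁻¹, ?_, r * m * r⁻¹, hNn.conj_mem m hm r, by group⟩
      rw [hFmem] at hf hr ⊢
      rw [map_mul, map_mul, map_inv]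
      refine ⟨R.mul_mem (R.mul_mem hr.1 hf.1) (R.inv_mem hr.1), fun x hx => ?_⟩
      rw [Perm.mul_apply, Perm.mul_apply, hf.2 _ (hU _ (R.inv_mem hr.1) x hx), ← Perm.mul_apply,
        mul_inv_cancel, Perm.one_apply]
    refine ⟨fun y hy a => ?_⟩
    have ha : a ∈ F ∅ ⊔ N := by rw [hRN]; trivial
    rw [Subgroup.mem_sup_of_normal_right] at ha
    obtain ⟨r, hr, m, hm, rfl⟩ := ha
    have h2 : m ∈ F U ⊔ N := (le_sup_right : N ≤ F U ⊔ N) hm
    have h3 : m * y * m⁻¹ ∈ F U ⊔ N := Subgroup.mul_mem _ (Subgroup.mul_mem _ h2 hy) (Subgroup.inv_mem _ h2)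
    have h4 := h1 r hr _ h3
    have h5 : r * m * y * (r * m)⁻¹ = r * (m * y * m⁻¹) * r⁻¹ := by group
    rw [h5]
    exact h4
  -- a maximal invariant set
  obtain ⟨U, hU, hUmax⟩ := Finset.exists_max_image
    (Finset.univ.filter fun U : Finset (Fin n) => Inv R U ∧ F U ⊔ N = ⊤) (fun U => U.card)
    ⟨∅, by
      rw [Finset.mem_filter]
      exact ⟨Finset.mem_univ _, fun r _ x hx => absurd hx (Finset.notMem_empty x), hRN⟩⟩
  rw [Finset.mem_filter] at hU
  obtain ⟨-, hUinv, hUN⟩ := hU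
  obtain ⟨x, hx⟩ : ∃ x, x ∉ U := by
    by_contra hcon
    push Not at hcon
    have h1 : F U = ⊥ := by
      rw [eq_bot_iff]
      intro a ha
      rw [hFmem] at ha
      rw [Subgroup.mem_bot]
      apply hφi
      rw [map_one]
      ext y
      rw [ha.2 y (hcon y), Perm.one_apply]
    rw [h1, bot_sup_eq] at hUN
    exact hN hUN
  obtain ⟨Δ, hΔ, hxΔ, -⟩ := gb_orb R x
  have hU'inv : Inv R (U ∪ Δ) := by
    intro r hr y hy
    rw [Finset.mem_union] at hy ⊢
    rcases hy with hy | hy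
    · exact Or.inl (hUinv r hr y hy)
    · exact Or.inr (hΔ.1 r hr y hy)
  have hFU' : F (U ∪ Δ) ≤ N := by
    rcases hmax (F (U ∪ Δ) ⊔ N) (hnorm _ hU'inv) le_sup_right with h1 | h1
    · rw [← h1]; exact le_sup_left
    · exfalso
      have h2 := hUmax (U ∪ Δ) (by
        rw [Finset.mem_filter]
        exact ⟨Finset.mem_univ _, hU'inv, h1⟩)
      have h3 : U.card < (U ∪ Δ).card := Finset.card_lt_card (by
        rw [Finset.ssubset_iff_of_subset Finset.subset_union_left]
        exact ⟨x, Finset.mem_union_right _ hxΔ, hx⟩)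
      omega
  -- the homomorphisms
  obtain ⟨f, hf1, hf2, hf3, hf4⟩ := exists_resHom R Δ hΔ.1
  let ι : F U →* R := (φ.comp (F U).subtype).codRestrict R fun a => ((hFmem U a).1 a.2).1
  let ρ : F U →* Perm (Fin n) := f.comp ι
  let π : F U →* A ⧸ N := (QuotientGroup.mk' N).comp (F U).subtype
  have hπ : Function.Surjective π := by
    intro q
    obtain ⟨a, rfl⟩ := QuotientGroup.mk'_surjective N q
    have ha : a ∈ F U ⊔ N := by rw [hUN]; trivial
    rw [Subgroup.mem_sup_of_normal_right] at ha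
    obtain ⟨g, hg, m, hm, rfl⟩ := ha
    refine ⟨⟨g, hg⟩, ?_⟩
    show QuotientGroup.mk' N g = QuotientGroup.mk' N (g * m)
    have h1 : QuotientGroup.mk' N m = 1 := (QuotientGroup.eq_one_iff m).2 hm
    rw [map_mul, h1, mul_one]
  have hker : ρ.ker ≤ π.ker := by
    intro a ha
    rw [MonoidHom.mem_ker] at ha ⊢
    have h1 : ((ι a : R) : Perm (Fin n)) ∈ fx R Δ := (hf4 (ι a)).1 ha
    have h2 : (a : A) ∈ F (U ∪ Δ) := by
      rw [hFmem]
      refine ⟨((hFmem U a).1 a.2).1, fun y hy => ?_⟩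
      rw [Finset.mem_union] at hy
      rcases hy with hy | hy
      · exact ((hFmem U a).1 a.2).2 y hy
      · exact h1.2 y hy
    exact (QuotientGroup.eq_one_iff (a : A)).2 (hFU' h2)
  have hkr : ρ.rangeRestrict.ker ≤ π.ker := by
    rw [MonoidHom.ker_rangeRestrict]
    exact hker
  let ψ : ρ.range →* A ⧸ N := ρ.rangeRestrict.liftOfSurjective ρ.rangeRestrict_surjective ⟨π, hkr⟩
  have hψ : ∀ a, ψ (ρ.rangeRestrict a) = π a := fun a =>
    MonoidHom.liftOfRightInverse_comp_apply _ _ _ ⟨π, hkr⟩ a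
  have hψs : Function.Surjective ψ := by
    intro q
    obtain ⟨a, rfl⟩ := hπ q
    exact ⟨_, hψ a⟩
  have hρ : ρ.range ≤ res R Δ := by
    rintro _ ⟨a, rfl⟩
    rw [← hf1]
    exact ⟨ι a, rfl⟩
  rcases Nat.lt_or_ge ℓ Δ.card with hc | hc
  · exfalso
    apply hsol
    have h1 := gb_sol_le hρ (h Δ hΔ hc)
    exact Group.isSolvable_of_surjective hψs
  · calc N.index = Nat.card (A ⧸ N) := rfl
      _ ≤ Nat.card ρ.range := Nat.card_le_card_of_surjective ψ hψs
      _ ≤ Nat.card (res R Δ) := Nat.card_le_card_of_injective _ (Subgroup.inclusion_injective hρ)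
      _ ≤ Δ.card.factorial := gb_card_res R Δ
      _ ≤ ℓ.factorial := Nat.factorial_le hc
      _ ≤ 2 ^ (Nat.log 2 ℓ.factorial + 1) := (Nat.lt_pow_succ_log_self Nat.one_lt_two _).le

end Pool.Agent.GcS
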