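import Pool.Agent.GcS.FirstG
import Pool.Agent.GcS.ProcG
import Pool.Agent.GcS.GcB
import Pool.Agent.GcS.SupAll
import Pool.Agent.SvS.ULem

/-!
MP_7fa120_al, class `Gc`. The cases.

Proof. `sup_gc` gives `Q`, `D` and `exists_U` gives `U` with `Full U`, `Nz D U`, `mv U = mv Q`. `gc_sb` gives `Sb (Nat.log 2 ℓ ! + 1) H`, inherited by subgroups (`sb_le`). `Par` is monotone in
`k`, and `jg b k' ≤ jg b k`. Apply `first_g` with `k'`. First alternative: the first or the second case. Second: `rl_mono`. Third: `proc_g` (with `k`) for `C`,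
then `nil_up` (`2 ^ (k' / 2) ≤ (no C).index`) and `rl_up` with `T = {x}`.
-/

set_option autoImplicit false

namespace Pool.Agent.GcS

open Equiv Pool.Agent.NilS Pool.Agent.BdO Pool.Agent.SvS

private theorem splitG_par {b k k' Λ β g : ℕ} (h : k ≤ k') (hp : Par b k Λ β g) : Par b k' Λ β g := by
  obtain ⟨h1, h2, h3, h4, h5⟩ := hp
  refine ⟨h1, h2.trans h, h3.trans h, h4.trans ?_, h5.trans ?_⟩
  · exact Nat.mul_le_mul_right _ (Nat.sub_le_sub_right h 2)
  · exact Nat.mul_le_mul (Nat.div_le_div_right h) (Nat.div_le_div_right h)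

private theorem splitG_jg {b k k' : ℕ} (h8 : 8 ≤ k) (h : k ≤ k') : jg b k' ≤ jg b k := by
  unfold jg
  refine Nat.pow_le_pow_left (Nat.add_le_add_right ?_ 1) 2
  exact Nat.div_le_div_left (Nat.div_le_div_right h) (by omega)

theorem split_g {n ℓ : ℕ} (s₀ k k' Λ β g : ℕ) (hkk : k ≤ k') (H : Subgroup (Perm (Fin n))) (hH : Gc ℓ H)
    (hp : Par (lf n) k Λ β g) :
    (mv (oddGen H)).card ≤ s₀ ∨
    (s₀ < (mv (oddGen H)).card ∧
      ∃ (U D : Subgroup (Perm (Fin n))) (S : Finset (Perm (Fin n))), Full U ∧ Two D ∧ Nz D U ∧ mv U ⊆ mv (oddGen H) ∧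
        (mv (oddGen H)).card ≤ (ℓ + 2) * (mv U).card ∧ (∀ x ∈ S, x ∈ oddGen H) ∧
        S.card ≤ k' + EE (lf n) Λ (Nat.log 2 ℓ.factorial + 1) ∧ D ⊔ Subgroup.closure (S : Set (Perm (Fin n))) = H) ∨
    Rl H g (jg (lf n) k + tg (lf n) k + 1) ∨
    Nil H (2 ^ (k' / 2)) (k + EE (lf n) Λ (Nat.log 2 ℓ.factorial + 1) + tg (lf n) k + 1) := by
  classical
  by_cases hs : (mv (oddGen H)).card ≤ s₀
  · exact Or.inl hs
  right
  push Not at hs
  obtain ⟨Q, D, hQ, hQo, hQs, hD2, hDQ, hRD, hcard⟩ := sup_gc H hH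
  obtain ⟨U, hU, hDU, hmv⟩ := exists_U Q D hQs hQo hDQ
  have hB : Sb (Nat.log 2 ℓ.factorial + 1) H := gc_sb hH
  have h8 : 8 ≤ k := by
    have := hp.2.1
    omega
  have hX : Nat.log 2 (Nat.card (Perm (Fin n))) = lf n := by
    unfold lf
    rw [Nat.card_eq_fintype_card, Fintype.card_perm, Fintype.card_fin]
  rcases first_g H D hRD _ k' Λ β g hB (splitG_par hkk hp) with ⟨S, hS1, hS2, hS3⟩ | h | ⟨C, x, hC, hCx, hidx⟩
  · left
    refine ⟨hs, U, D, S, hU, hD2, hDU, ?_, ?_, hS1, hS2, hS3⟩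
    · rw [hmv]
      intro y hy
      rw [mem_mv] at hy ⊢
      obtain ⟨q, hq, hqy⟩ := hy
      exact ⟨q, hQ hq, hqy⟩
    · rw [hmv]
      exact hcard
  · right
    left
    refine rl_mono h le_rfl ?_
    have := splitG_jg (b := lf n) h8 hkk
    omega
  · right
    have hT : C ⊔ Subgroup.closure (({x} : Finset (Perm (Fin n))) : Set (Perm (Fin n))) = H := by
      rw [Finset.coe_singleton, ← Subgroup.zpowers_eq_closure]
      exact hCx
    have hP := proc_g C _ k Λ β g (sb_le hC hB) (by rw [hX]; exact hp)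
    rw [hX] at hP
    rcases hP with hP | hP
    · right
      exact nil_up hP hidx {x} (by simp) hT
    · left
      exact rl_up hP {x} (by simp) hT

end Pool.Agent.GcS
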