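import Pool.Agent.GcS.Defs

/-!
MP_7fa120_al, class `Gc`. Complements of an abelian chief factor.

The same statements as `Pool.Agent.SvS.cm_inf` (`SvS/Gen.lean`) and `Pool.Agent.SvS.ext_a` (`SvS/ExtA.lean`), proved there for solvable groups; the solvability
was only used to see that `M / N` is abelian, here it is the hypothesis `Ab N M`. Copy the proofs.
`mx_cm`: `Mx Y N M j` is not empty (`1 ≤ j ^ k`), and for `L` in it `L ⊓ M = N`, so `j = L.index = (L ⊓ M).relIndex M = N.relIndex M`; `Mx Y N M j` is mapped injectively to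
`Cm Y N M`.
-/

set_option autoImplicit false

namespace Pool.Agent.GcS

open Pool.Agent.SvS

theorem ab_inf {G : Type} [Group G] {N M : Subgroup G} (h : Chief N M) (hab : Ab N M) {L : Subgroup G} (h1 : N ≤ L)
    (h2 : L ⊔ M = ⊤) (h3 : L ≠ ⊤) : L ⊓ M = N := by
  have hc := hab
  obtain ⟨hN, hM, hlt, hmax⟩ := h
  have hconj : ∀ g : G, ∀ x ∈ L ⊓ M, g * x * g⁻¹ ∈ L ⊓ M := by
    intro g
    have hg : g ∈ L ⊔ M := by
      rw [h2]
      exact Subgroup.mem_top g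
    obtain ⟨l, hl, m, hm, rfl⟩ := Subgroup.mem_sup_of_normal_right.1 hg
    intro x hx
    have hx1 : m * x * m⁻¹ ∈ L ⊓ M := by
      have h4 : m * x * m⁻¹ * x⁻¹ ∈ L ⊓ M := ⟨h1 (hc m hm x hx.2), hlt.le (hc m hm x hx.2)⟩
      have h5 := mul_mem h4 hx
      rwa [inv_mul_cancel_right] at h5
    have h6 : l * m * x * (l * m)⁻¹ = l * (m * x * m⁻¹) * l⁻¹ := by group
    rw [h6]
    exact ⟨L.mul_mem (L.mul_mem hl hx1.1) (L.inv_mem hl), hM.conj_mem _ hx1.2 l⟩
  have hT : (L ⊓ M).Normal := ⟨fun x hx g => hconj g x hx⟩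
  rcases hmax _ hT (le_inf h1 hlt.le) inf_le_right with h4 | h4
  · exact h4
  · exfalso
    have h5 : M ≤ L := by
      rw [← h4]
      exact inf_le_left
    rw [sup_eq_left.2 h5] at h2
    exact h3 h2

theorem ab_a {G : Type} [Group G] [Finite G] {C N M : Subgroup G} (h : Chief N M) (hab : Ab N M) (hC : Czr C N M)
    {L : Subgroup G} (h1 : N ≤ L) (h2 : L ⊔ M = ⊤) (h3 : L ≠ ⊤) :
    C.Normal ∧ M ≤ C ∧ (L ⊓ C) ⊔ M = C ∧ (L ⊓ C) ⊓ M = N ∧ Chief (L ⊓ C) C ∧ (L ⊓ C).relIndex C = N.relIndex M ∧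
      ∀ g : G, g ∈ C ↔ ∀ c ∈ C, g * c * g⁻¹ * c⁻¹ ∈ L ⊓ C := by
  have hcomm := hab
  have hinf := ab_inf h hab h1 h2 h3
  obtain ⟨hN, hM, hlt, hch⟩ := h
  have hCn : C.Normal := by
    refine ⟨fun g hg x => (hC _).2 fun m hm => ?_⟩
    have e1 : x * g * x⁻¹ * m * (x * g * x⁻¹)⁻¹ * m⁻¹ =
        x * (g * (x⁻¹ * m * x⁻¹⁻¹) * g⁻¹ * (x⁻¹ * m * x⁻¹⁻¹)⁻¹) * x⁻¹ := by group
    rw [e1]
    exact hN.conj_mem _ ((hC g).1 hg _ (hM.conj_mem m hm x⁻¹)) x
  have hMC : M ≤ C := fun a ha => (hC a).2 fun m hm => hcomm a ha m hm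
  have hdec : ∀ g : G, ∃ l ∈ L, ∃ m ∈ M, l * m = g := by
    intro g
    have hg : g ∈ L ⊔ M := by rw [h2]; exact Subgroup.mem_top g
    exact Subgroup.mem_sup_of_normal_right.1 hg
  have hsup : (L ⊓ C) ⊔ M = C := by
    refine le_antisymm (sup_le inf_le_right hMC) fun c hc => ?_
    obtain ⟨l, hl, m, hm, rfl⟩ := hdec c
    have hl' : l ∈ C := by
      have e1 : l = l * m * m⁻¹ := by group
      rw [e1]
      exact mul_mem hc (inv_mem (hMC hm))
    exact mul_mem (Subgroup.mem_sup_left ⟨hl, hl'⟩) (Subgroup.mem_sup_right hm)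
  have hKM : (L ⊓ C) ⊓ M = N := by
    rw [inf_assoc, inf_eq_right.2 hMC, hinf]
  have hNK : N ≤ L ⊓ C := hKM ▸ inf_le_left
  have hKn : (L ⊓ C).Normal := by
    refine ⟨fun k hk g => ?_⟩
    obtain ⟨l, hl, m, hm, rfl⟩ := hdec g
    have h4 : m * k * m⁻¹ ∈ L ⊓ C := by
      have e1 : m * k * m⁻¹ = (k * m * k⁻¹ * m⁻¹)⁻¹ * k := by group
      rw [e1]
      exact mul_mem (inv_mem (hNK ((hC k).1 hk.2 m hm))) hk
    have e2 : l * m * k * (l * m)⁻¹ = l * (m * k * m⁻¹) * l⁻¹ := by group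
    rw [e2]
    exact Subgroup.mem_inf.2 ⟨mul_mem (mul_mem hl h4.1) (inv_mem hl), hCn.conj_mem _ h4.2 l⟩
  have hkm : ∀ c ∈ C, ∃ k ∈ L ⊓ C, ∃ m ∈ M, k * m = c := by
    intro c hc
    rw [← hsup] at hc
    exact Subgroup.mem_sup_of_normal_right.1 hc
  refine ⟨hCn, hMC, hsup, hKM, ⟨hKn, hCn, ?_, ?_⟩, ?_, ?_⟩
  · refine lt_of_le_of_ne inf_le_right fun heq => h3 ?_
    have h4 : M ≤ L := fun m hm => by
      have h5 := hMC hm
      rw [← heq] at h5
      exact h5.1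
    rw [← h2]
    exact (sup_eq_left.2 h4).symm
  · intro T hT hKT hTC
    have hTM : (T ⊓ M).Normal := Subgroup.normal_inf_normal T M
    rcases hch (T ⊓ M) hTM (le_inf (hNK.trans hKT) hlt.le) inf_le_right with h4 | h4
    · left
      refine le_antisymm (fun t ht => ?_) hKT
      obtain ⟨k, hk, m, hm, rfl⟩ := hkm t (hTC ht)
      have h5 : m ∈ T ⊓ M := by
        refine Subgroup.mem_inf.2 ⟨?_, hm⟩
        have e1 : m = k⁻¹ * (k * m) := by group
        rw [e1]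
        exact mul_mem (inv_mem (hKT hk)) ht
      rw [h4] at h5
      exact mul_mem hk (hNK h5)
    · right
      have h5 : M ≤ T := inf_eq_right.1 h4
      refine le_antisymm hTC ?_
      rw [← hsup]
      exact sup_le hKT h5
  · have h4 : (L ⊓ C).relIndex (M ⊔ (L ⊓ C)) = (L ⊓ C).relIndex M :=
      Subgroup.relIndex_sup_right _ _
    have h5 : ((L ⊓ C) ⊓ M).relIndex M = (L ⊓ C).relIndex M := Subgroup.inf_relIndex_right _ _
    rw [hKM] at h5
    rw [sup_comm, hsup] at h4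
    rw [h4, h5]
  · intro g
    constructor
    · intro hg c hc
      obtain ⟨k, hk, m, hm, rfl⟩ := hkm c hc
      have e1 : g * (k * m) * g⁻¹ * (k * m)⁻¹ =
          (g * k * g⁻¹) * (g * m * g⁻¹ * m⁻¹) * k⁻¹ := by group
      rw [e1]
      exact mul_mem (mul_mem (hKn.conj_mem k hk g) (hNK ((hC g).1 hg m hm))) (inv_mem hk)
    · intro hg
      refine (hC g).2 fun m hm => ?_
      rw [← hKM]
      exact Subgroup.mem_inf.2 ⟨hg m (hMC hm), mul_mem (hM.conj_mem m hm g) (inv_mem hm)⟩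

theorem mx_cm {G : Type} [Group G] [Finite G] (Y : Subgroup G) {N M : Subgroup G} (h : Chief N M) (hab : Ab N M) (j k : ℕ)
    (hj : 2 ≤ j) (hm : j ^ k ≤ Nat.card (Mx Y N M j)) :
    j = N.relIndex M ∧ (N.relIndex M) ^ k ≤ Nat.card (Cm Y N M) := by
  have hfin : Finite (Cm Y N M) := inferInstanceAs (Finite {L : Subgroup G // _})
  have hpos : 0 < Nat.card (Mx Y N M j) := lt_of_lt_of_le (Nat.pow_pos (by omega)) hm
  have hne : Nonempty (Mx Y N M j) := (Nat.card_pos_iff.1 hpos).1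
  obtain ⟨L, hL1, hL2, hL3, hL4, hL5⟩ := hne
  have hj1 : j = N.relIndex M := by
    have hinf := ab_inf h hab hL2 hL4 hL1.1
    have hMn : M.Normal := h.2.1
    have e1 : (L ⊓ M).relIndex L * L.index = (L ⊓ M).index := Subgroup.relIndex_mul_index inf_le_left
    have e2 : (L ⊓ M).relIndex M * M.index = (L ⊓ M).index := Subgroup.relIndex_mul_index inf_le_right
    have e3 : (L ⊓ M).relIndex L = M.relIndex L := Subgroup.inf_relIndex_left _ _
    have e4 : M.relIndex (L ⊔ M) = M.relIndex L := Subgroup.relIndex_sup_right _ _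
    rw [hL4, Subgroup.relIndex_top_right] at e4
    rw [e3, ← e4, hL5] at e1
    rw [← e1, hinf, mul_comm] at e2
    have hM0 : 0 < M.index := Nat.pos_of_ne_zero Subgroup.index_ne_zero_of_finite
    exact (Nat.eq_of_mul_eq_mul_left hM0 e2).symm
  refine ⟨hj1, ?_⟩
  rw [← hj1]
  refine hm.trans (Nat.card_le_card_of_injective
    (fun L : Mx Y N M j => (⟨L.1, L.2.2.1, L.2.2.2.1, L.2.2.2.2.1, L.2.1.1⟩ : Cm Y N M)) ?_)
  intro L₁ L₂ h12
  exact Subtype.ext (congrArg (fun L : Cm Y N M => L.1) h12)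

end Pool.Agent.GcS
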