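import Pool.Agent.GcS.AbA

/-!
MP_7fa120_al, class `Gc`. The number of complements `L` of an abelian chief factor with the same `L ⊓ C`.

Proof. If there is such an `L`, `ab_a` applies: `K = L ⊓ C` is normal in `G`, `C / K` has order `q = N.relIndex M`, `L C = G` (as `M ≤ C`). `G / C` acts faithfully on
`M / N`, which is generated by `Nat.log 2 q` elements, so `|G / C| ≤ q ^ (Nat.log 2 q) ≤ 2 ^ ((Nat.log 2 q + 1) * Nat.log 2 q)` and `G` is generated modulo `C` by
`w = (Nat.log 2 q + 1) ^ 2` elements `g_i` (chosen independently of `L`). For every `i` there is `l_i ∈ L ⊓ g_i C`, unique modulo `K`; `q` possibilities for the coset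
`l_i K`. `L = ⟨l_i, K⟩`, as both have the same image in `G / C` and the same intersection `K` with `C`. So there are at most `q ^ w` groups `L`.
-/

set_option autoImplicit false

namespace Pool.Agent.GcS

open Pool.Agent.SvS

/-- Relative generation: `B` is generated by `A` and at most `log_2 |B : A|` elements. -/
private theorem exists_gen_rel {G : Type} [Group G] [Finite G] (B : Subgroup G) (n : ℕ) :
    ∀ A : Subgroup G, A ≤ B → A.relIndex B ≤ n → ∃ S : Finset G, (∀ x ∈ S, x ∈ B) ∧
      S.card ≤ Nat.log 2 (A.relIndex B) ∧ A ⊔ Subgroup.closure (S : Set G) = B := by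
  classical
  induction n with
  | zero =>
    intro A hA h
    have h1 : A.relIndex B ≠ 0 := Subgroup.index_ne_zero_of_finite
    omega
  | succ n ih =>
    intro A hA h
    by_cases hAB : A = B
    · refine ⟨∅, fun x hx => absurd hx (Finset.notMem_empty x), by simp, ?_⟩
      rw [Finset.coe_empty, Subgroup.closure_empty, sup_bot_eq, hAB]
    · obtain ⟨x, hx, hxA⟩ := SetLike.exists_of_lt (lt_of_le_of_ne hA hAB)
      have h1 : A ≤ A ⊔ Subgroup.closure {x} := le_sup_left
      have h2 : A ⊔ Subgroup.closure {x} ≤ B := by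
        refine sup_le hA ?_
        rw [Subgroup.closure_le]
        exact Set.singleton_subset_iff.2 hx
      have h3 := Subgroup.relIndex_mul_relIndex A (A ⊔ Subgroup.closure {x}) B h1 h2
      have h4 : A.relIndex (A ⊔ Subgroup.closure {x}) ≠ 1 := by
        intro h5
        rw [Subgroup.relIndex_eq_one] at h5
        exact hxA (h5 (le_sup_right (a := A) (Subgroup.subset_closure rfl)))
      have h5 : A.relIndex (A ⊔ Subgroup.closure {x}) ≠ 0 := Subgroup.index_ne_zero_of_finite
      have h6 : (A ⊔ Subgroup.closure {x}).relIndex B ≠ 0 := Subgroup.index_ne_zero_of_finite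
      have h7 : 2 * (A ⊔ Subgroup.closure {x}).relIndex B ≤ A.relIndex B := by
        rw [← h3]
        exact Nat.mul_le_mul_right _ (by omega)
      obtain ⟨S, hS, hS1, hS2⟩ := ih (A ⊔ Subgroup.closure {x}) h2 (by omega)
      refine ⟨insert x S, ?_, ?_, ?_⟩
      · intro y hy
        rcases Finset.mem_insert.1 hy with rfl | hy
        · exact hx
        · exact hS y hy
      · refine (Finset.card_insert_le _ _).trans ?_
        have h8 : Nat.log 2 (2 * (A ⊔ Subgroup.closure {x}).relIndex B) =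
            Nat.log 2 ((A ⊔ Subgroup.closure {x}).relIndex B) + 1 := by
          rw [mul_comm]
          exact Nat.log_mul_base (by norm_num) h6
        have h9 := Nat.log_mono_right (b := 2) h7
        omega
      · rw [Finset.coe_insert, Set.insert_eq, Subgroup.closure_union, ← sup_assoc]
        exact hS2

/-- `|G : C| ≤ q ^ (log_2 q)`. -/
private theorem index_le {G : Type} [Group G] [Finite G] {C N M : Subgroup G} (h : Chief N M)
    (hC : Czr C N M) : C.index ≤ N.relIndex M ^ Nat.log 2 (N.relIndex M) := by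
  classical
  obtain ⟨hN, hM, hlt, -⟩ := h
  obtain ⟨T, hTM, hT, hTc⟩ := exists_gen_rel M _ N hlt.le le_rfl
  have hq : 0 < N.relIndex M := Nat.pos_of_ne_zero Subgroup.index_ne_zero_of_finite
  let f : G ⧸ C → (T → M ⧸ N.subgroupOf M) := fun a t =>
    QuotientGroup.mk ⟨a.out * t * a.out⁻¹, hM.conj_mem t (hTM t t.2) _⟩
  have hf : Function.Injective f := by
    intro a b hab
    have h1 : ∀ t ∈ T, (a.out * t * a.out⁻¹)⁻¹ * (b.out * t * b.out⁻¹) ∈ N := by
      intro t ht
      have h2 := congrFun hab ⟨t, ht⟩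
      exact Subgroup.mem_subgroupOf.1 (QuotientGroup.eq.1 h2)
    let c : G := a.out⁻¹ * b.out
    have hc : c ∈ C := by
      rw [hC c]
      have h3 : M ≤ (Subgroup.centralizer {QuotientGroup.mk' N c}).comap (QuotientGroup.mk' N) := by
        rw [← hTc, sup_le_iff, Subgroup.closure_le]
        constructor
        · intro x hx
          rw [Subgroup.mem_comap]
          have h4 : QuotientGroup.mk' N x = 1 := (QuotientGroup.eq_one_iff x).2 hx
          rw [h4]
          exact one_mem _
        · intro t ht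
          rw [SetLike.mem_coe, Subgroup.mem_comap, Subgroup.mem_centralizer_singleton_iff]
          have h4 := h1 t ht
          have h5 : a.out⁻¹ * ((a.out * t * a.out⁻¹)⁻¹ * (b.out * t * b.out⁻¹)) * a.out ∈ N :=
            hN.conj_mem' _ h4 _
          have h6 : a.out⁻¹ * ((a.out * t * a.out⁻¹)⁻¹ * (b.out * t * b.out⁻¹)) * a.out =
              t⁻¹ * (c * t * c⁻¹) := by
            simp only [c]
            group
          rw [h6] at h5
          have h7 : QuotientGroup.mk' N t = QuotientGroup.mk' N (c * t * c⁻¹) :=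
            QuotientGroup.eq.2 h5
          rw [map_mul, map_mul, map_inv, eq_mul_inv_iff_mul_eq] at h7
          exact h7
      intro m hm
      have h4 := h3 hm
      rw [Subgroup.mem_comap, Subgroup.mem_centralizer_singleton_iff] at h4
      refine (QuotientGroup.eq_one_iff _).1 ?_
      show QuotientGroup.mk' N (c * m * c⁻¹ * m⁻¹) = 1
      rw [map_mul, map_mul, map_mul, map_inv, map_inv, mul_inv_eq_one, mul_inv_eq_iff_eq_mul]
      exact h4.symm
    have h2 : ((a.out : G) : G ⧸ C) = ((b.out : G) : G ⧸ C) := QuotientGroup.eq.2 hc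
    rwa [QuotientGroup.out_eq', QuotientGroup.out_eq'] at h2
  have h1 := Nat.card_le_card_of_injective f hf
  have h2 : Nat.card (T → M ⧸ N.subgroupOf M) = N.relIndex M ^ T.card := by
    rw [Nat.card_fun, Nat.card_eq_fintype_card (α := T), Fintype.card_coe]
    rfl
  rw [h2] at h1
  exact h1.trans (Nat.pow_le_pow_right hq hT)

theorem ab_b {G : Type} [Group G] [Finite G] {C N M : Subgroup G} (h : Chief N M) (hab : Ab N M) (hC : Czr C N M)
    (K : Subgroup G) :
    Nat.card {L : Subgroup G // N ≤ L ∧ L ⊔ M = ⊤ ∧ L ≠ ⊤ ∧ L ⊓ C = K} ≤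
      (N.relIndex M) ^ ((Nat.log 2 (N.relIndex M) + 1) ^ 2) := by
  classical
  by_cases hne : Nonempty {L : Subgroup G // N ≤ L ∧ L ⊔ M = ⊤ ∧ L ≠ ⊤ ∧ L ⊓ C = K}
  swap
  · rw [not_nonempty_iff] at hne
    rw [Nat.card_of_isEmpty]
    exact Nat.zero_le _
  obtain ⟨L₀, a1, a2, a3, a4⟩ := hne
  obtain ⟨hCn, hMC, -, -, -, hidx, -⟩ := ab_a h hab hC a1 a2 a3
  rw [a4] at hidx
  have hq : 0 < N.relIndex M := Nat.pos_of_ne_zero Subgroup.index_ne_zero_of_finite
  obtain ⟨S, -, hS, hSc⟩ := exists_gen_rel (⊤ : Subgroup G) _ C le_top le_rfl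
  rw [Subgroup.relIndex_top_right] at hS
  have hS' : S.card ≤ (Nat.log 2 (N.relIndex M) + 1) ^ 2 := by
    have h1 : C.index ≤ 2 ^ ((Nat.log 2 (N.relIndex M) + 1) * Nat.log 2 (N.relIndex M)) := by
      refine (index_le h hC).trans ?_
      rw [pow_mul]
      exact Nat.pow_le_pow_left (Nat.lt_pow_succ_log_self (by norm_num) _).le _
    have h2 := Nat.log_mono_right (b := 2) h1
    rw [Nat.log_pow (by norm_num)] at h2
    have h3 : (Nat.log 2 (N.relIndex M) + 1) * Nat.log 2 (N.relIndex M) ≤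
        (Nat.log 2 (N.relIndex M) + 1) ^ 2 := by
      rw [sq]
      exact Nat.mul_le_mul_left _ (Nat.le_succ _)
    exact hS.trans (h2.trans h3)
  have hex : ∀ (L : {L : Subgroup G // N ≤ L ∧ L ⊔ M = ⊤ ∧ L ≠ ⊤ ∧ L ⊓ C = K}) (s : S),
      ∃ c : C, (s : G) * c ∈ L.1 := by
    rintro ⟨L, -, b2, -, -⟩ s
    have h1 : (s : G) ∈ L ⊔ C := by
      have h2 : L ⊔ C = ⊤ := by
        rw [eq_top_iff, ← b2]
        exact sup_le_sup_left hMC L
      rw [h2]
      exact Subgroup.mem_top _
    obtain ⟨l, hl, c, hc, hlc⟩ := Subgroup.mem_sup_of_normal_right.1 h1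
    refine ⟨⟨c⁻¹, inv_mem hc⟩, ?_⟩
    show (s : G) * c⁻¹ ∈ L
    rw [← hlc, mul_inv_cancel_right]
    exact hl
  choose F hF using hex
  let f : {L : Subgroup G // N ≤ L ∧ L ⊔ M = ⊤ ∧ L ≠ ⊤ ∧ L ⊓ C = K} →
      (S → C ⧸ K.subgroupOf C) := fun L s => QuotientGroup.mk (F L s)
  have hf : Function.Injective f := by
    intro L L' hLL
    have h1 : ∀ s : S, ((F L s : C) : G)⁻¹ * (F L' s : C) ∈ K := fun s =>
      Subgroup.mem_subgroupOf.1 (QuotientGroup.eq.1 (congrFun hLL s))
    let P : Subgroup G := K ⊔ Subgroup.closure (Set.range fun s : S => (s : G) * F L s)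
    have hKL : ∀ L : {L : Subgroup G // N ≤ L ∧ L ⊔ M = ⊤ ∧ L ≠ ⊤ ∧ L ⊓ C = K}, K ≤ L.1 := by
      intro L
      exact L.2.2.2.2.ge.trans inf_le_left
    have hPC : P ⊔ C = ⊤ := by
      rw [eq_top_iff, ← hSc, sup_le_iff, Subgroup.closure_le]
      refine ⟨le_sup_right, fun s hs => ?_⟩
      have h2 : s * (F L ⟨s, hs⟩ : C) ∈ P ⊔ C :=
        le_sup_left (a := P) (le_sup_right (a := K) (Subgroup.subset_closure ⟨⟨s, hs⟩, rfl⟩))
      have h3 : ((F L ⟨s, hs⟩ : C) : G) ∈ P ⊔ C := le_sup_right (a := P) (F L ⟨s, hs⟩).2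
      have h4 := mul_mem h2 (inv_mem h3)
      rwa [mul_inv_cancel_right] at h4
    have key : ∀ L : {L : Subgroup G // N ≤ L ∧ L ⊔ M = ⊤ ∧ L ≠ ⊤ ∧ L ⊓ C = K}, P ≤ L.1 →
        L.1 = P := by
      intro L hP
      refine le_antisymm (fun x hx => ?_) hP
      have h2 : x ∈ P ⊔ C := by rw [hPC]; exact Subgroup.mem_top x
      obtain ⟨y, hy, c, hc, rfl⟩ := Subgroup.mem_sup_of_normal_right.1 h2
      have h3 : c ∈ L.1 ⊓ C := by
        refine ⟨?_, hc⟩
        have h4 := mul_mem (inv_mem (hP hy)) hx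
        rwa [inv_mul_cancel_left] at h4
      rw [L.2.2.2.2] at h3
      exact mul_mem hy (le_sup_left (a := K) h3)
    have h2 : P ≤ L.1 := by
      refine sup_le (hKL L) ?_
      rw [Subgroup.closure_le]
      rintro _ ⟨s, rfl⟩
      exact hF L s
    have h3 : P ≤ L'.1 := by
      refine sup_le (hKL L') ?_
      rw [Subgroup.closure_le]
      rintro _ ⟨s, rfl⟩
      have h4 := mul_mem (hF L' s) (inv_mem (hKL L' (h1 s)))
      have h5 : (s : G) * (F L' s : C) * (((F L s : C) : G)⁻¹ * (F L' s : C))⁻¹ =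
          (s : G) * (F L s : C) := by group
      rw [h5] at h4
      exact h4
    exact Subtype.ext ((key L h2).trans (key L' h3).symm)
  have h1 := Nat.card_le_card_of_injective f hf
  have h2 : Nat.card (S → C ⧸ K.subgroupOf C) = N.relIndex M ^ S.card := by
    rw [Nat.card_fun, Nat.card_eq_fintype_card (α := S), Fintype.card_coe, ← hidx]
    rfl
  rw [h2] at h1
  exact h1.trans (Nat.pow_le_pow_right hq hS')

end Pool.Agent.GcS
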