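import Pool.Agent.GcS.SplitG
import Pool.Agent.GcS.CntSm
import Pool.Agent.GcS.CntL
import Pool.Agent.GcS.CntRl
import Pool.Agent.SvS.CntNil
import Pool.Agent.SvS.AnSm
import Pool.Agent.GcS.ParA
import Pool.Agent.GcS.AnLG
import Pool.Agent.GcS.AnRG
import Pool.Agent.GcS.AnNilG

/-!
MP_7fa120_al, class `Gc`. Almost all groups of the class have odd part at most `52 !`.

Compare `SvS/CasesF.lean` (proved there). For large `n` (`par_ev`), by `split_g` (with `ℓ = ell n`, `s₀ = sg n`, `k = kA n`, `k' = kB n`, `Λ = La n`, `β = be n`, `g = gg n`; note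
`BB n = Nat.log 2 (ell n) ! + 1`) every group counted by `nBigG n` is in one of the four sets counted in `cnt_smallG`, `cnt_LG` (with `ℓ + 2`, `k = kB n + EE …`, `L = LG n`), `cnt_rl`
(`g = gg n`, `j = jg + tg + 1`) and `cnt_nil` (`e = kB n / 2`, `j = kA n + EE … + tg … + 1`). Divide by `nG n ≥ nTwo n ≥ 1` (2-groups are solvable, `gc_sol`) and use
`SvS.an_small`, `an_LG`, `an_RG`, `an_nilG`.
-/

set_option autoImplicit false

namespace Pool.Agent.GcS

open Equiv Pool.Agent.NilS Pool.Agent.BdO Pool.Agent.SvS Filter Topology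

private theorem card_or {α : Type} [Finite α] (P Q : α → Prop) :
    Nat.card {x // P x ∨ Q x} ≤ Nat.card {x // P x} + Nat.card {x // Q x} :=
  Set.ncard_union_le {x | P x} {x | Q x}

private theorem card_imp {α : Type} [Finite α] {P Q : α → Prop} (h : ∀ x, P x → Q x) :
    Nat.card {x // P x} ≤ Nat.card {x // Q x} :=
  Nat.card_le_card_of_injective (Subtype.map id h) (Subtype.map_injective _ Function.injective_id)

private theorem two_sol {n : ℕ} {H : Subgroup (Perm (Fin n))} (h : Two H) : Group.IsSolvable H := by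
  obtain ⟨k, hk⟩ := h
  have : Fact (Nat.Prime 2) := ⟨Nat.prime_two⟩
  have h1 : IsPGroup 2 H := IsPGroup.of_card hk
  have h2 : Group.IsNilpotent H := h1.isNilpotent
  infer_instance

theorem nTwo_le_nG (n : ℕ) : nTwo n ≤ nG n :=
  card_imp fun _ h => gc_sol (two_sol h)

private theorem nTwo_pos (n : ℕ) : 0 < nTwo n := by
  have : Nonempty {H : Subgroup (Perm (Fin n)) // Two H} := ⟨⟨⊥, 0, by simp⟩⟩
  exact Nat.card_pos

private theorem cases_bound {n : ℕ} (hp : Par (lf n) (kA n) (La n) (be n) (gg n)) (hab : kA n ≤ kB n)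
    (hL : 1 ≤ LG n) (hs : sg n ≤ n) (hk : 1 ≤ kB n / 2) :
    nBigG n ≤
      n ^ sg n * nSub (sg n) ^ 2 * (∑ k ∈ Finset.Icc 2 n, n ^ k * nTwo (n - k) + nSub (sg n) * nTwo (n - 3)) +
      (∑ s ∈ Finset.Ioc (sg n) n,
        n ^ s * n ^ (s * (kB n + EE (lf n) (La n) (BB n))) * n ^ (s * Nat.log 2 n) * LBG n (LG n) (ell n + 2) s +
      (Nat.card {H : Subgroup (Perm (Fin n)) // Gc (ell n) H ∧
        Rl H (gg n) (jg (lf n) (kA n) + tg (lf n) (kA n) + 1)} +
      n.factorial ^ (kA n + EE (lf n) (La n) (BB n) + tg (lf n) (kA n) + 1) *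
        ∑ s ∈ (Finset.Icc 2 n).filter (fun s => kB n / 2 ≤ 2 * s * (Nat.log 2 n + 1)),
          n ^ (5 * s) * nTwo (n - s) * nOdn s)) := by
  have h1 := cnt_smallG (n := n) (sg n) hs
  have h2 := cnt_LG (n := n) (sg n) (kB n + EE (lf n) (La n) (BB n)) (LG n) (ell n + 2) hL
  have h4 := cnt_nil n (kB n / 2) (kA n + EE (lf n) (La n) (BB n) + tg (lf n) (kA n) + 1) hk
  refine le_trans ?_ (Nat.add_le_add h1 (Nat.add_le_add h2 (Nat.add_le_add le_rfl h4)))
  refine le_trans ?_ (Nat.add_le_add le_rfl (Nat.add_le_add le_rfl (card_or _ _)))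
  refine le_trans ?_ (Nat.add_le_add le_rfl (card_or _ _))
  refine le_trans ?_ (card_or _ _)
  refine card_imp fun H hH => ?_
  rcases split_g (ℓ := ell n) (sg n) (kA n) (kB n) (La n) (be n) (gg n) hab H hH.1 hp with h | h | h | h
  · exact Or.inl ⟨hH.2, h⟩
  · exact Or.inr (Or.inl h)
  · exact Or.inr (Or.inr (Or.inl ⟨hH.1, h⟩))
  · exact Or.inr (Or.inr (Or.inr h))

theorem big_zeroG : Tendsto (fun n : ℕ => (nBigG n : ℝ) / nG n) atTop (𝓝 0) := by
  have hlim := an_small.add (an_LG.add (an_RG.add an_nilG))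
  rw [add_zero, add_zero, add_zero] at hlim
  refine squeeze_zero' (Eventually.of_forall fun n => by positivity) ?_ hlim
  filter_upwards [par_ev] with n hn
  obtain ⟨hp, hab, hL, hℓ, hsn, hk⟩ := hn
  have hT : (0 : ℝ) < nTwo n := by exact_mod_cast nTwo_pos n
  have hTS : (nTwo n : ℝ) ≤ nG n := by exact_mod_cast nTwo_le_nG n
  have hS : (0 : ℝ) < nG n := hT.trans_le hTS
  have hb := cases_bound hp hab hL hsn hk
  have hm := cnt_rl n (gg n) (jg (lf n) (kA n) + tg (lf n) (kA n) + 1)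
  have key : ∀ a : ℕ, (a : ℝ) / nG n ≤ (a : ℝ) / nTwo n := fun a =>
    div_le_div_of_nonneg_left (Nat.cast_nonneg a) hT hTS
  have hm' : (Nat.card {H : Subgroup (Perm (Fin n)) // Gc (ell n) H ∧
        Rl H (gg n) (jg (lf n) (kA n) + tg (lf n) (kA n) + 1)} : ℝ) / nG n ≤
      (n.factorial : ℝ) ^ (jg (lf n) (kA n) + tg (lf n) (kA n) + 1) / 2 ^ gg n := by
    rw [div_le_div_iff₀ hS (by positivity)]
    have h4 : ((2 ^ gg n * Nat.card {H : Subgroup (Perm (Fin n)) // Gc (ell n) H ∧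
        Rl H (gg n) (jg (lf n) (kA n) + tg (lf n) (kA n) + 1)} : ℕ) : ℝ) ≤
        ((n.factorial ^ (jg (lf n) (kA n) + tg (lf n) (kA n) + 1) * nG n : ℕ) : ℝ) := by
      exact_mod_cast hm
    push_cast at h4
    linarith
  have hb' : (nBigG n : ℝ) ≤ _ := Nat.cast_le.mpr hb
  rw [Nat.cast_add, Nat.cast_add, Nat.cast_add] at hb'
  calc (nBigG n : ℝ) / nG n ≤ _ / nG n := div_le_div_of_nonneg_right hb' hS.le
    _ ≤ _ := by
      rw [add_div, add_div, add_div]
      exact add_le_add (key _) (add_le_add (key _) (add_le_add hm' (key _)))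

end Pool.Agent.GcS
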