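import Pool.Agent.GcS.ChDec
import Pool.Agent.GcS.ChPow

/-!
MP_7fa120_al, class `Gc`. A chief factor which is not abelian has few generators.

Proof. `ch_dec` gives `T`, `r`, `f`. Composed with a projection `f` is a homomorphism of `M` onto the simple group `T` which is not abelian; `Sb B G` (with `A = M` and the
kernel) gives `|T| ≤ 2 ^ B`. `r ≤ Nat.log 2 |G| ≤ 2 ^ u` with `u = Nat.log 2 (Nat.log 2 |G|) + 1`. `pow_gen` and preimages in `M`.
-/

set_option autoImplicit false

namespace Pool.Agent.GcS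

open Pool.Agent.SvS

theorem ch_gen {G : Type} [Group G] [Finite G] {B : ℕ} (hB : Sb B G) {N M : Subgroup G} (h : Chief N M) (hna : ¬ Ab N M) :
    ∃ S : Finset G, (∀ x ∈ S, x ∈ M) ∧ S.card ≤ B + Nat.log 2 (Nat.log 2 (Nat.card G)) + 2 ∧
      N ⊔ Subgroup.closure (S : Set G) = M := by
  classical
  obtain ⟨T, _, _, r, f, hf, hk, hs, hn, hr1, hr2⟩ := ch_dec h hna
  let i0 : Fin r := ⟨0, by omega⟩
  let p : M →* T := (Pi.evalMonoidHom (fun _ : Fin r => T) i0).comp f
  have hp : Function.Surjective p := by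
    intro t
    obtain ⟨x, hx⟩ := hf (fun _ => t)
    refine ⟨x, ?_⟩
    change f x i0 = t
    rw [hx]
  have hidx : p.ker.index = Nat.card T := by
    rw [Subgroup.index_ker, MonoidHom.range_eq_top.2 hp]
    exact Nat.card_congr Subgroup.topEquiv.toEquiv
  have hntop : p.ker ≠ ⊤ := by
    intro h0
    obtain ⟨a, b, hab⟩ := hn
    apply hab
    have h1 : ∀ t : T, t = 1 := by
      intro t
      obtain ⟨x, rfl⟩ := hp t
      have h2 : x ∈ p.ker := by
        rw [h0]
        exact Subgroup.mem_top x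
      exact h2
    rw [h1 a, h1 b]
  have hmax : ∀ K : Subgroup M, K.Normal → p.ker ≤ K → K = p.ker ∨ K = ⊤ := by
    intro K hKn hK
    rcases hs.eq_bot_or_eq_top_of_normal (K.map p) (hKn.map p hp) with h1 | h1
    · left
      exact le_antisymm ((Subgroup.map_eq_bot_iff _).1 h1) hK
    · right
      have h2 := Subgroup.comap_map_eq_self hK
      rw [h1, Subgroup.comap_top] at h2
      exact h2.symm
  have hT : Nat.card T ≤ 2 ^ B := by
    rcases hB M p.ker inferInstance hntop hmax with h1 | h1
    · exfalso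
      obtain ⟨a, b, hab⟩ := hn
      apply hab
      obtain ⟨x, rfl⟩ := hp a
      obtain ⟨y, rfl⟩ := hp b
      have h2 : p (x * y * x⁻¹ * y⁻¹) = 1 := h1 x y
      rw [map_mul, map_mul, map_mul, map_inv, map_inv, mul_inv_eq_one, mul_inv_eq_iff_eq_mul] at h2
      exact h2
    · rw [← hidx]
      exact h1
  have hr3 : r ≤ Nat.log 2 (Nat.card G) := Nat.le_log_of_pow_le (by norm_num) hr2
  have hr : r ≤ 2 ^ (Nat.log 2 (Nat.log 2 (Nat.card G)) + 1) :=
    hr3.trans (Nat.lt_pow_succ_log_self (by norm_num) _).le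
  obtain ⟨S0, hS0, hcl⟩ := pow_gen T hs hn r _ B hr hT
  choose g hg using hf
  refine ⟨S0.image fun s => (g s : G), ?_, ?_, ?_⟩
  · intro x hx
    rw [Finset.mem_image] at hx
    obtain ⟨s, -, rfl⟩ := hx
    exact (g s).2
  · refine Finset.card_image_le.trans (hS0.trans ?_)
    omega
  · apply le_antisymm
    · refine sup_le h.2.2.1.le ?_
      rw [Subgroup.closure_le]
      intro x hx
      rw [Finset.mem_coe, Finset.mem_image] at hx
      obtain ⟨s, -, rfl⟩ := hx
      exact (g s).2
    · intro x hx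
      set L : Subgroup G := N ⊔ Subgroup.closure ((S0.image fun s => (g s : G) : Finset G) : Set G)
        with hL
      have h1 : (L.subgroupOf M).map f = ⊤ := by
        rw [eq_top_iff, ← hcl, Subgroup.closure_le]
        intro s hs0
        refine ⟨g s, ?_, hg s⟩
        rw [SetLike.mem_coe, Subgroup.mem_subgroupOf, hL]
        refine Subgroup.mem_sup_right (Subgroup.subset_closure ?_)
        rw [Finset.mem_coe, Finset.mem_image]
        exact ⟨s, hs0, rfl⟩
      have h2 : f ⟨x, hx⟩ ∈ (L.subgroupOf M).map f := by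
        rw [h1]
        exact Subgroup.mem_top _
      obtain ⟨y, hy, hyx⟩ := h2
      have h3 : f (y⁻¹ * ⟨x, hx⟩) = 1 := by
        rw [map_mul, map_inv, hyx, inv_mul_cancel]
      have h4 := (hk _).1 h3
      have h5 : (y : G) ∈ L := hy
      have h6 : (y : G)⁻¹ * x ∈ L := by
        rw [hL]
        exact Subgroup.mem_sup_left h4
      have h7 := L.mul_mem h5 h6
      rwa [mul_inv_cancel_left] at h7

end Pool.Agent.GcS
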