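import Pool.Agent.GcS.Defs

/-!
MP_7fa120_al, class `Gc`. A Sylow subgroup of odd order which moves at least half of the points.

Proof by strong induction on `|X|` (for all `G`). `X` is not empty (otherwise the image is trivial, of order `2 ^ 0`).
(1) An odd prime `p` divides `|X|`: a Sylow `p`-subgroup `C` has no fixed point `x`, as `C` would be contained in the stabiliser, whose index `|X|`
is divisible by `p`.
(2) `|X| = 2 ^ b`, `b ≥ 1`, and for some `x`, `y` the orbit of `y` under the stabiliser `G_x` has odd length `l ≥ 3`. Let `p` be a prime dividing `l`,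
`Γ` the orbit of `(x, y)` in `X × X`; `Γ u = {v : (u, v) ∈ Γ}` has `l` elements for every `u`, on which `G_u` is transitive, and also
`{u : (u, v) ∈ Γ}` has `l` elements for every `v` (`|Γ| = |X| l` and transitivity). Let `C` be a Sylow `p`-subgroup, `F` its set of fixed points,
`u ∈ F`. No `v ∈ Γ u` is in `F`: otherwise `C ≤ G_u ⊓ G_v`, whose index in `G_u` is `l`, divisible by `p`. So `l |F| ≤ l (|X| - |F|)`, by counting the
pairs `(u, v) ∈ Γ` with `u ∈ F`.
(3) `|X| = 2 ^ b`, `b ≥ 1`, and every orbit of `G_x` has length 1 or even length. Then the number of fixed points of `G_x` is even, so at least 2.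
Let `u ~ v` if `G_u = G_v` (equivalently `G_u` fixes `v`, as `|G_u| = |G_v|`), a `G`-invariant equivalence relation; `X' = X / ~` has fewer
elements and `G` acts on it transitively; the classes have the same size `e ≥ 2`, `e` divides `2 ^ b`. An element `g` of odd order which preserves
the class of `u` fixes all points of the class: the stabiliser `G_[u]` of the class normalises `G_u` and `G_[u] / G_u` acts regularly on the class, so it has
order `e`, a power of two, and `g ∈ G_u = G_v` for all `v ~ u`. So if the image of `G` in the permutations of `X'` had order a power of two, all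
elements of odd order would be trivial on `X'`, so on `X`, and the image on `X` would have order a power of two. By induction there is `p` for `X'`.
The fixed points of `C` on `X` are the points of the classes fixed by `C`, so `2 |F| = 2 e |F'| ≤ e |X'| = |X|`.
-/

set_option autoImplicit false

namespace Pool.Agent.GcS

private theorem no_fix {G X : Type} [Group G] [Finite G] [MulAction G X] {p : ℕ} (hp : p.Prime)
    (C : Sylow p G) (x : X) (h : p ∣ (MulAction.stabilizer G x).index) : ¬ ∀ c ∈ C, c • x = x := by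
  intro hc
  have : Fact p.Prime := ⟨hp⟩
  have h1 : (C : Subgroup G) ≤ MulAction.stabilizer G x := fun c hcC =>
    MulAction.mem_stabilizer_iff.2 (hc c hcC)
  exact C.not_dvd_index (h.trans (Subgroup.index_dvd_of_le h1))

/-- The relation belonging to the orbit of `(x, y)`. -/
private def rr {G X : Type} [Group G] [MulAction G X] (x y u v : X) : Prop :=
  ∃ g : G, g • x = u ∧ g • y = v

private theorem rr_smul {G X : Type} [Group G] [MulAction G X] {x y u v : X} (k : G) :
    rr (G := G) x y (k • u) (k • v) ↔ rr (G := G) x y u v := by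
  constructor
  · rintro ⟨g, h1, h2⟩
    refine ⟨k⁻¹ * g, ?_, ?_⟩
    · rw [mul_smul, h1, inv_smul_smul]
    · rw [mul_smul, h2, inv_smul_smul]
  · rintro ⟨g, h1, h2⟩
    exact ⟨k * g, by rw [mul_smul, h1], by rw [mul_smul, h2]⟩

private theorem card_right {G X : Type} [Group G] [MulAction G X] (x y u : X) (k : G) :
    Nat.card {v : X // rr (G := G) x y (k • u) v} = Nat.card {v : X // rr (G := G) x y u v} := by
  refine Nat.card_congr ⟨fun v => ⟨k⁻¹ • v.1, ?_⟩, fun v => ⟨k • v.1, rr_smul k |>.2 v.2⟩, ?_, ?_⟩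
  · have h := v.2
    rw [← rr_smul (G := G) k⁻¹, inv_smul_smul] at h
    exact h
  · intro v
    exact Subtype.ext (smul_inv_smul k v.1)
  · intro v
    exact Subtype.ext (inv_smul_smul k v.1)

private theorem card_left {G X : Type} [Group G] [MulAction G X] (x y v : X) (k : G) :
    Nat.card {u : X // rr (G := G) x y u (k • v)} = Nat.card {u : X // rr (G := G) x y u v} := by
  refine Nat.card_congr ⟨fun u => ⟨k⁻¹ • u.1, ?_⟩, fun u => ⟨k • u.1, rr_smul k |>.2 u.2⟩, ?_, ?_⟩
  · have h := u.2
    rw [← rr_smul (G := G) k⁻¹, inv_smul_smul] at h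
    exact h
  · intro v
    exact Subtype.ext (smul_inv_smul k v.1)
  · intro v
    exact Subtype.ext (inv_smul_smul k v.1)

private theorem half {G X : Type} [Group G] [Finite G] [Finite X] [MulAction G X]
    (ht : MulAction.IsPretransitive G X) {p : ℕ} (hp : p.Prime) (x y : X)
    (hl : p ∣ Nat.card {v : X // rr (G := G) x y x v}) (C : Sylow p G) :
    2 * Nat.card {x : X // ∀ c ∈ C, c • x = x} ≤ Nat.card X := by
  classical
  have : Fintype X := Fintype.ofFinite X
  have : Fact p.Prime := ⟨hp⟩
  set l := Nat.card {v : X // rr (G := G) x y x v} with hldef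
  have hr : ∀ u : X, Nat.card {v : X // rr (G := G) x y u v} = l := by
    intro u
    obtain ⟨k, rfl⟩ := MulAction.exists_smul_eq G x u
    rw [card_right]
  have hc : ∀ v : X, Nat.card {u : X // rr (G := G) x y u v} =
      Nat.card {u : X // rr (G := G) x y u y} := by
    intro v
    obtain ⟨k, rfl⟩ := MulAction.exists_smul_eq G y v
    rw [card_left]
  have hab : ∀ u : X, (Finset.bipartiteAbove (rr (G := G) x y) Finset.univ u).card = l := by
    intro u
    rw [← hr u, Nat.card_eq_fintype_card, Fintype.card_subtype]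
    rfl
  have hbe : ∀ v : X, (Finset.bipartiteBelow (rr (G := G) x y) Finset.univ v).card =
      Nat.card {u : X // rr (G := G) x y u y} := by
    intro v
    rw [← hc v, Nat.card_eq_fintype_card, Fintype.card_subtype]
    rfl
  have hX : 0 < Fintype.card X := Fintype.card_pos_iff.2 ⟨x⟩
  have hll : Nat.card {u : X // rr (G := G) x y u y} = l := by
    have h1 := Finset.sum_card_bipartiteAbove_eq_sum_card_bipartiteBelow (rr (G := G) x y)
      (s := Finset.univ) (t := Finset.univ)
    rw [Finset.sum_congr rfl (fun u _ => hab u), Finset.sum_congr rfl (fun v _ => hbe v),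
      Finset.sum_const, Finset.sum_const, smul_eq_mul, smul_eq_mul, Finset.card_univ] at h1
    exact (Nat.eq_of_mul_eq_mul_left hX h1).symm
  have hl0 : 0 < l := by
    have : Nonempty {v : X // rr (G := G) x y x v} := ⟨⟨y, 1, one_smul G x, one_smul G y⟩⟩
    exact Nat.card_pos
  set F : Finset X := Finset.univ.filter (fun u => ∀ c ∈ C, c • u = u) with hF
  have hkey : ∀ u ∈ F, ∀ v : X, rr (G := G) x y u v → v ∉ F := by
    intro u hu v huv hv
    rw [hF, Finset.mem_filter] at hu hv
    have hCu : (C : Subgroup G) ≤ MulAction.stabilizer G u := fun c hcC =>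
      MulAction.mem_stabilizer_iff.2 (hu.2 c hcC)
    refine no_fix (G := MulAction.stabilizer G u) hp (C.subtype hCu) v ?_ ?_
    · rw [MulAction.index_stabilizer]
      have h1 : Nat.card (MulAction.orbit (MulAction.stabilizer G u) v) = l := by
        rw [← hr u]
        refine Nat.card_congr (Equiv.subtypeEquivRight fun w => ?_)
        obtain ⟨g, h1, h2⟩ := huv
        constructor
        · rintro ⟨k, rfl⟩
          refine ⟨k.1 * g, ?_, ?_⟩
          · rw [mul_smul, h1]
            exact k.2
          · rw [mul_smul, h2]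
            rfl
        · rintro ⟨g', h3, h4⟩
          refine ⟨⟨g' * g⁻¹, ?_⟩, ?_⟩
          · rw [MulAction.mem_stabilizer_iff, mul_smul, ← h1, inv_smul_smul, h3, h1]
          · change (g' * g⁻¹) • v = w
            rw [mul_smul, ← h2, inv_smul_smul, h4]
      have h2 : (MulAction.orbit (MulAction.stabilizer G u) v).ncard = l := h1
      rw [h2]
      exact hl
    · rintro c hc
      have h1 : (c : G) ∈ C := hc
      exact hv.2 c.1 h1
  have h1 : F.card * l ≤ (Finset.univ \ F).card * l := by
    refine Finset.card_mul_le_card_mul (rr (G := G) x y) (fun u hu => ?_) (fun v _ => ?_)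
    · rw [← hab u]
      refine Finset.card_le_card fun v hv => ?_
      rw [Finset.mem_bipartiteAbove] at hv ⊢
      exact ⟨Finset.mem_sdiff.2 ⟨Finset.mem_univ v, hkey u hu v hv.2⟩, hv.2⟩
    · rw [← hll, ← hbe v]
      refine Finset.card_le_card fun u hu => ?_
      rw [Finset.mem_bipartiteBelow] at hu ⊢
      exact ⟨Finset.mem_univ u, hu.2⟩
  have h2 : F.card ≤ (Finset.univ \ F).card := Nat.le_of_mul_le_mul_right h1 hl0
  have h3 : (Finset.univ \ F).card + F.card = Fintype.card X := by
    rw [Finset.card_sdiff_add_card_eq_card (Finset.subset_univ F), Finset.card_univ]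
  have h4 : Nat.card {x : X // ∀ c ∈ C, c • x = x} = F.card := by
    rw [Nat.card_eq_fintype_card, Fintype.card_subtype]
  rw [h4, Nat.card_eq_fintype_card]
  omega

private theorem parity {G X : Type} [Group G] [Finite X] [MulAction G X] (x : X)
    (hX : 2 ∣ Nat.card X)
    (h : ∀ y : X, Nat.card {v : X // rr (G := G) x y x v} = 1 ∨
      2 ∣ Nat.card {v : X // rr (G := G) x y x v}) :
    ∃ y : X, y ≠ x ∧ ∀ g : G, g • x = x → g • y = y := by
  classical
  have : Fintype X := Fintype.ofFinite X
  by_contra hcon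
  push Not at hcon
  let f : X → Finset X := fun y => Finset.univ.filter (fun v => rr (G := G) x y x v)
  have hfc : ∀ y, (f y).card = Nat.card {v : X // rr (G := G) x y x v} := by
    intro y
    rw [Nat.card_eq_fintype_card, Fintype.card_subtype]
  have hself : ∀ y, y ∈ f y := fun y =>
    Finset.mem_filter.2 ⟨Finset.mem_univ y, 1, one_smul G x, one_smul G y⟩
  have heven : ∀ y, y ≠ x → 2 ∣ (f y).card := by
    intro y hy
    rw [hfc]
    refine (h y).resolve_left fun h1 => ?_
    obtain ⟨g, hg, hgy⟩ := hcon y hy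
    have h2 : Subsingleton {v : X // rr (G := G) x y x v} := by
      rw [Nat.card_eq_one_iff_unique] at h1
      exact h1.1
    have h3 : (⟨g • y, g, hg, rfl⟩ : {v : X // rr (G := G) x y x v}) =
        ⟨y, 1, one_smul G x, one_smul G y⟩ := Subsingleton.elim _ _
    exact hgy (congrArg Subtype.val h3)
  have hfeq : ∀ y v, v ∈ f y → f v = f y := by
    intro y v hv
    obtain ⟨g, h1, rfl⟩ := (Finset.mem_filter.1 hv).2
    ext w
    rw [Finset.mem_filter, Finset.mem_filter]
    constructor
    · rintro ⟨-, k, h2, h3⟩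
      exact ⟨Finset.mem_univ w, k * g, by rw [mul_smul, h1, h2], by rw [mul_smul, h3]⟩
    · rintro ⟨-, k, h2, h3⟩
      refine ⟨Finset.mem_univ w, k * g⁻¹, ?_, ?_⟩
      · rw [mul_smul]
        nth_rewrite 1 [← h1]
        rw [inv_smul_smul, h2]
      · rw [mul_smul, inv_smul_smul, h3]
  have hx : ∀ y, x ∈ f y → y = x := by
    intro y hy
    obtain ⟨g, h1, h2⟩ := (Finset.mem_filter.1 hy).2
    have h3 : g • y = g • x := h2.trans h1.symm
    exact MulAction.injective g h3
  have hs : 2 ∣ (Finset.univ.erase x : Finset X).card := by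
    rw [Finset.card_eq_sum_card_image f]
    refine Finset.dvd_sum fun b hb => ?_
    obtain ⟨y, hy, rfl⟩ := Finset.mem_image.1 hb
    have hyx : y ≠ x := (Finset.mem_erase.1 hy).1
    have h1 : (Finset.univ.erase x : Finset X).filter (fun a => f a = f y) = f y := by
      ext a
      rw [Finset.mem_filter, Finset.mem_erase]
      constructor
      · rintro ⟨-, h2⟩
        rw [← h2]
        exact hself a
      · intro ha
        refine ⟨⟨?_, Finset.mem_univ a⟩, hfeq y a ha⟩
        rintro rfl
        exact hyx (hx y ha)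
    rw [h1]
    exact heven y hyx
  rw [Finset.card_erase_of_mem (Finset.mem_univ x), Finset.card_univ] at hs
  rw [Nat.card_eq_fintype_card] at hX
  have hX0 : 0 < Fintype.card X := Fintype.card_pos_iff.2 ⟨x⟩
  omega

private theorem main_ind {G : Type} [Group G] [Finite G] : ∀ (n : ℕ) (H : Subgroup G),
    H.index ≤ n → (∃ g : G, Odd (orderOf g) ∧ ∃ y : G ⧸ H, g • y ≠ y) →
    ∃ p : ℕ, p.Prime ∧ p ≠ 2 ∧ ∀ C : Sylow p G,
      2 * Nat.card {x : G ⧸ H // ∀ c ∈ C, c • x = x} ≤ Nat.card (G ⧸ H) := by
  intro n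
  induction n with
  | zero =>
    intro H hH _
    exact absurd (Nat.le_zero.1 hH) Subgroup.index_ne_zero_of_finite
  | succ n ih =>
    intro H hH hQ
    by_cases h1 : ∃ p : ℕ, p.Prime ∧ p ≠ 2 ∧ p ∣ Nat.card (G ⧸ H)
    · obtain ⟨p, hp, hp2, hpd⟩ := h1
      refine ⟨p, hp, hp2, fun C => ?_⟩
      have h2 : IsEmpty {x : G ⧸ H // ∀ c ∈ C, c • x = x} := by
        refine ⟨fun x => no_fix hp C x.1 ?_ x.2⟩
        rw [MulAction.index_stabilizer_of_transitive]
        exact hpd
      rw [Nat.card_of_isEmpty, mul_zero]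
      exact Nat.zero_le _
    by_cases h2 : ∃ (y : G ⧸ H) (p : ℕ), p.Prime ∧ p ≠ 2 ∧
        p ∣ Nat.card {v : G ⧸ H // rr (G := G) ((1 : G) : G ⧸ H) y ((1 : G) : G ⧸ H) v}
    · obtain ⟨y, p, hp, hp2, hpd⟩ := h2
      exact ⟨p, hp, hp2, fun C => half inferInstance hp _ y hpd C⟩
    push Not at h1 h2
    have hX : 2 ∣ Nat.card (G ⧸ H) := by
      by_cases h3 : Nat.card (G ⧸ H) = 1
      · obtain ⟨g, -, y, hy⟩ := hQ
        have h4 : Subsingleton (G ⧸ H) := (Nat.card_eq_one_iff_unique.1 h3).1
        exact absurd (Subsingleton.elim _ _) hy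
      · obtain ⟨p, hp, hpd⟩ := Nat.exists_prime_and_dvd h3
        by_cases hp2 : p = 2
        · rw [hp2] at hpd
          exact hpd
        · exact absurd hpd (h1 p hp hp2)
    obtain ⟨y, hy1, hy2⟩ := parity (G := G) ((1 : G) : G ⧸ H) hX (fun y => by
      by_cases h3 : Nat.card {v : G ⧸ H // rr (G := G) ((1 : G) : G ⧸ H) y ((1 : G) : G ⧸ H) v} = 1
      · exact Or.inl h3
      · right
        obtain ⟨p, hp, hpd⟩ := Nat.exists_prime_and_dvd h3
        by_cases hp2 : p = 2
        · rw [hp2] at hpd
          exact hpd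
        · exact absurd hpd (h2 y p hp hp2))
    obtain ⟨a, rfl⟩ := QuotientGroup.mk_surjective y
    have haH : a ∉ H := by
      intro ha
      apply hy1
      rw [QuotientGroup.eq]
      simpa using H.inv_mem ha
    have hfix : ∀ g ∈ H, a⁻¹ * g * a ∈ H := by
      intro g hg
      have h3 : g • ((1 : G) : G ⧸ H) = ((1 : G) : G ⧸ H) := by
        rw [MulAction.Quotient.smul_coe, QuotientGroup.eq]
        simpa using H.inv_mem hg
      have h4 := hy2 g h3
      rw [MulAction.Quotient.smul_coe, smul_eq_mul, QuotientGroup.eq] at h4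
      have h5 := H.inv_mem h4
      have h6 : ((g * a)⁻¹ * a)⁻¹ = a⁻¹ * g * a := by group
      rwa [h6] at h5
    obtain ⟨N, hN⟩ : ∃ N : Subgroup G, N = Subgroup.normalizer (H : Set G) := ⟨_, rfl⟩
    have haN : a ∈ N := by
      have h3 : a⁻¹ ∈ N := by
        rw [hN]
        refine Subgroup.mem_normalizer_fintype fun g hg => ?_
        rw [inv_inv]
        exact hfix g hg
      simpa using N.inv_mem h3
    have hHN : H ≤ N := by
      rw [hN]
      exact Subgroup.le_normalizer
    have hnorm : (H.subgroupOf N).Normal := by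
      rw [hN]
      exact Subgroup.normal_in_normalizer
    have hmul := Subgroup.relIndex_mul_index hHN
    have hrel1 : H.relIndex N ≠ 1 := by
      intro h3
      exact haH (Subgroup.relIndex_eq_one.1 h3 haN)
    have hN0 : N.index ≠ 0 := Subgroup.index_ne_zero_of_finite
    have hrel0 : H.relIndex N ≠ 0 := Subgroup.index_ne_zero_of_finite (H := H.subgroupOf N)
    have hNlt : N.index ≤ n := by
      have h3 : 2 ≤ H.relIndex N := by omega
      have h4 : 2 * N.index ≤ H.relIndex N * N.index := Nat.mul_le_mul_right _ h3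
      omega
    have hQN : ∃ g : G, Odd (orderOf g) ∧ ∃ y : G ⧸ N, g • y ≠ y := by
      obtain ⟨g, hg, y, hy⟩ := hQ
      refine ⟨g, hg, ?_⟩
      by_contra hcon
      push Not at hcon
      apply hy
      obtain ⟨b, rfl⟩ := QuotientGroup.mk_surjective y
      have h3 := hcon (b : G ⧸ N)
      rw [MulAction.Quotient.smul_coe, smul_eq_mul, QuotientGroup.eq] at h3 ⊢
      have h4 : (g * b)⁻¹ * b = (b⁻¹ * g * b)⁻¹ := by group
      rw [h4] at h3 ⊢
      have h5 : b⁻¹ * g * b ∈ N := by simpa using N.inv_mem h3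
      refine H.inv_mem ?_
      -- the image in the quotient
      let z : N ⧸ H.subgroupOf N := ((⟨b⁻¹ * g * b, h5⟩ : N) : N ⧸ H.subgroupOf N)
      have hz1 : orderOf z ∣ orderOf g := by
        have h6 : orderOf z ∣ orderOf (⟨b⁻¹ * g * b, h5⟩ : N) :=
          orderOf_map_dvd (QuotientGroup.mk' (H.subgroupOf N)) _
        have h7 : orderOf (⟨b⁻¹ * g * b, h5⟩ : N) = orderOf g := by
          rw [← Subgroup.orderOf_coe]
          change orderOf (b⁻¹ * g * b) = orderOf g
          have h8 := orderOf_injective (MulAut.conj b⁻¹).toMonoidHom (MulAut.conj b⁻¹).injective g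
          simpa using h8
        rwa [h7] at h6
      have hz2 : orderOf z ∣ Nat.card (G ⧸ H) := by
        have h6 : orderOf z ∣ H.relIndex N := orderOf_dvd_natCard z
        refine h6.trans ?_
        exact ⟨N.index, hmul.symm⟩
      have hz3 : orderOf z = 1 := by
        by_contra h6
        obtain ⟨q, hq, hqd⟩ := Nat.exists_prime_and_dvd h6
        by_cases hq2 : q = 2
        · rw [hq2] at hqd
          have h7 : 2 ∣ orderOf g := hqd.trans hz1
          rw [Nat.odd_iff] at hg
          omega
        · exact h1 q hq hq2 (hqd.trans hz2)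
      rw [orderOf_eq_one_iff] at hz3
      have h6 := (QuotientGroup.eq_one_iff _).1 hz3
      rw [Subgroup.mem_subgroupOf] at h6
      exact h6
    obtain ⟨p, hp, hp2, hC⟩ := ih N hNlt hQN
    refine ⟨p, hp, hp2, fun C => ?_⟩
    have hle : Nat.card {x : G ⧸ H // ∀ c ∈ C, c • x = x} ≤
        Nat.card {x : G ⧸ N // ∀ c ∈ C, c • x = x} * H.relIndex N := by
      have h3 : Nat.card ({x : G ⧸ N // ∀ c ∈ C, c • x = x} × (N ⧸ H.subgroupOf N)) =
          Nat.card {x : G ⧸ N // ∀ c ∈ C, c • x = x} * H.relIndex N := by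
        rw [Nat.card_prod]
        rfl
      rw [← h3]
      have hproj : ∀ x : G ⧸ H, (∀ c ∈ C, c • x = x) →
          ∀ c ∈ C, c • (Subgroup.quotientEquivProdOfLE hHN x).1 =
            (Subgroup.quotientEquivProdOfLE hHN x).1 := by
        intro x hx c hc
        have h4 : ∀ x : G ⧸ H, (Subgroup.quotientEquivProdOfLE hHN (c • x)).1 =
            c • (Subgroup.quotientEquivProdOfLE hHN x).1 := by
          intro x
          obtain ⟨b, rfl⟩ := QuotientGroup.mk_surjective x
          rfl
        rw [← h4, hx c hc]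
      refine Nat.card_le_card_of_injective
        (fun x : {x : G ⧸ H // ∀ c ∈ C, c • x = x} =>
          ((⟨(Subgroup.quotientEquivProdOfLE hHN x.1).1, hproj x.1 x.2⟩,
            (Subgroup.quotientEquivProdOfLE hHN x.1).2) :
            {x : G ⧸ N // ∀ c ∈ C, c • x = x} × (N ⧸ H.subgroupOf N))) ?_
      intro x x' hxx
      have h4 := Prod.ext_iff.1 hxx
      have h5 : (Subgroup.quotientEquivProdOfLE hHN x.1) =
          (Subgroup.quotientEquivProdOfLE hHN x'.1) :=
        Prod.ext (congrArg Subtype.val h4.1) h4.2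
      exact Subtype.ext ((Subgroup.quotientEquivProdOfLE hHN).injective h5)
    calc 2 * Nat.card {x : G ⧸ H // ∀ c ∈ C, c • x = x}
        ≤ 2 * (Nat.card {x : G ⧸ N // ∀ c ∈ C, c • x = x} * H.relIndex N) :=
          Nat.mul_le_mul_left _ hle
      _ = (2 * Nat.card {x : G ⧸ N // ∀ c ∈ C, c • x = x}) * H.relIndex N := by ring
      _ ≤ Nat.card (G ⧸ N) * H.relIndex N := Nat.mul_le_mul_right _ (hC C)
      _ = Nat.card (G ⧸ H) := by
          rw [mul_comm]
          exact hmul

theorem exists_odd (G : Type) [Group G] [Finite G] (X : Type) [Finite X] [MulAction G X] (ht : MulAction.IsPretransitive G X)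
    (h2 : ¬ ∃ k : ℕ, Nat.card (MulAction.toPermHom G X).range = 2 ^ k) :
    ∃ p : ℕ, p.Prime ∧ p ≠ 2 ∧ ∀ C : Sylow p G, 2 * Nat.card {x : X // ∀ c ∈ C, c • x = x} ≤ Nat.card X := by
  have hexodd : ∃ g : G, Odd (orderOf g) ∧ ∃ y : X, g • y ≠ y := by
    by_contra hcon
    push Not at hcon
    apply h2
    have : Fact (Nat.Prime 2) := ⟨Nat.prime_two⟩
    have : Finite (MulAction.toPermHom G X).range := inferInstance
    rw [← IsPGroup.iff_card]
    rintro ⟨σ, g, rfl⟩
    obtain ⟨k, m, hm, hkm⟩ := Nat.exists_eq_two_pow_mul_odd (orderOf_pos g).ne'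
    refine ⟨k, Subtype.ext ?_⟩
    have h3 : orderOf (g ^ 2 ^ k) = m := by
      rw [orderOf_pow_of_dvd (by positivity) ⟨m, hkm⟩, hkm]
      exact Nat.mul_div_cancel_left m (by positivity)
    have h4 : (MulAction.toPermHom G X) (g ^ 2 ^ k) = 1 := by
      ext y
      exact hcon (g ^ 2 ^ k) (by rw [h3]; exact hm) y
    rw [map_pow] at h4
    exact h4
  obtain ⟨g, hg, x, hx⟩ := hexodd
  have hinj := MulAction.injective_ofQuotientStabilizer G x
  have hsurj : Function.Surjective (MulAction.ofQuotientStabilizer G x) := by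
    intro y
    obtain ⟨k, rfl⟩ := MulAction.exists_smul_eq G x y
    exact ⟨(k : G ⧸ MulAction.stabilizer G x), rfl⟩
  obtain ⟨y', hy'⟩ := hsurj x
  obtain ⟨p, hp, hp2, hC⟩ := main_ind (MulAction.stabilizer G x).index (MulAction.stabilizer G x)
    le_rfl ⟨g, hg, y', fun h3 => hx (by
      rw [← hy', ← MulAction.ofQuotientStabilizer_smul, h3])⟩
  refine ⟨p, hp, hp2, fun C => ?_⟩
  have h3 : Nat.card X = Nat.card (G ⧸ MulAction.stabilizer G x) :=
    (Nat.card_congr (Equiv.ofBijective _ ⟨hinj, hsurj⟩)).symm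
  have h4 : Nat.card {x : X // ∀ c ∈ C, c • x = x} =
      Nat.card {z : G ⧸ MulAction.stabilizer G x // ∀ c ∈ C, c • z = z} := by
    refine (Nat.card_congr ((Equiv.ofBijective _ ⟨hinj, hsurj⟩).subtypeEquiv fun z => ?_)).symm
    change (∀ c ∈ C, c • z = z) ↔
      ∀ c ∈ C, c • MulAction.ofQuotientStabilizer G x z = MulAction.ofQuotientStabilizer G x z
    refine forall_congr' fun c => forall_congr' fun _ => ?_
    rw [← MulAction.ofQuotientStabilizer_smul]
    exact hinj.eq_iff.symm
  rw [h3, h4]
  exact hC C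

end Pool.Agent.GcS
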