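import Pool.Agent.GcS.Defs

/-!
MP_7fa120_al, class `Gc`. The number of non-abelian chief factors `C / K` below a given `C`.

Proof. Let `K_1, …, K_t` be different elements of the set, `W_i = C ⊓ K_1 ⊓ … ⊓ K_i`. Claim: `W_(i-1)` is not contained in `K_i`. For `i = 1` this is clear. Let `i ≥ 2` and
`W_(i-1) ≤ K_i`. For `a < i`, `K_a K_i = C` (it is normal, between `K_i` and `C`, and not `K_i`, because `K_a ≤ K_i` would give `K_a = K_i` by `Chief (K_a) C`). The iterated
commutators of elements of `K_1, …, K_(i-1)` (one of each, in this order) are in `K_1 ⊓ … ⊓ K_(i-1) = W_(i-1) ≤ K_i`; as `K_a K_i = C` the iterated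
commutators of length `i - 1` of arbitrary elements of `C` are in `K_i`: `C / K_i` is nilpotent (for `i = 2` trivial, impossible). Then its commutator subgroup is a
proper characteristic subgroup, and by `Chief (K_i) C` it is trivial: `Ab (K_i) C`, a contradiction. So `W_0 = C > W_1 > … > W_t`, and `2 ^ t ≤ |C| ≤ |G|`.
-/

set_option autoImplicit false

namespace Pool.Agent.GcS

open Pool.Agent.SvS

private theorem sup_eq {G : Type} [Group G] {C K a : Subgroup G} (ha : Chief a C) (hK : Chief K C)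
    (hne : a ≠ K) : a ⊔ K = C := by
  have := ha.1
  have := hK.1
  have hn : (a ⊔ K).Normal := inferInstance
  rcases hK.2.2.2 (a ⊔ K) hn le_sup_right (sup_le ha.2.2.1.le hK.2.2.1.le) with h | h
  · exfalso
    have h1 : a ≤ K := by
      rw [← h]
      exact le_sup_left
    rcases ha.2.2.2 K hK.1 h1 hK.2.2.1.le with h2 | h2
    · exact hne h2.symm
    · exact hK.2.2.1.ne h2
  · exact h

private theorem comm_step {G : Type} [Group G] {C W K a : Subgroup G} [W.Normal] [K.Normal]
    [a.Normal] (h1 : W ⊔ K = C) (h2 : a ⊔ K = C) :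
    ∀ x ∈ C, ∀ y ∈ C, x * y * x⁻¹ * y⁻¹ ∈ (W ⊓ a) ⊔ K := by
  intro x hx y hy
  rw [← h1] at hx
  rw [← h2] at hy
  obtain ⟨w, hw, k, hk, rfl⟩ := Subgroup.mem_sup_of_normal_right.1 hx
  obtain ⟨b, hb, l, hl, rfl⟩ := Subgroup.mem_sup_of_normal_right.1 hy
  have hN : ((W ⊓ a) ⊔ K).Normal := inferInstance
  have hk' : ((k : G) : G ⧸ ((W ⊓ a) ⊔ K)) = 1 :=
    (QuotientGroup.eq_one_iff k).2 ((le_sup_right : K ≤ (W ⊓ a) ⊔ K) hk)
  have hl' : ((l : G) : G ⧸ ((W ⊓ a) ⊔ K)) = 1 :=
    (QuotientGroup.eq_one_iff l).2 ((le_sup_right : K ≤ (W ⊓ a) ⊔ K) hl)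
  have hc : w * b * w⁻¹ * b⁻¹ ∈ W ⊓ a := by
    refine ⟨?_, ?_⟩
    · have h3 : w * (b * w⁻¹ * b⁻¹) ∈ W :=
        W.mul_mem hw (Subgroup.Normal.conj_mem inferInstance _ (W.inv_mem hw) b)
      simpa [mul_assoc] using h3
    · exact a.mul_mem (Subgroup.Normal.conj_mem inferInstance _ hb w) (a.inv_mem hb)
  have hc' : ((w * b * w⁻¹ * b⁻¹ : G) : G ⧸ ((W ⊓ a) ⊔ K)) = 1 :=
    (QuotientGroup.eq_one_iff _).2 ((le_sup_left : W ⊓ a ≤ (W ⊓ a) ⊔ K) hc)
  rw [← QuotientGroup.eq_one_iff]
  rw [← hc']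
  simp only [QuotientGroup.mk_mul, QuotientGroup.mk_inv, hk', hl', mul_one]

private theorem inf_normal {G : Type} [Group G] {C : Subgroup G} (hC : C.Normal)
    (S : Finset (Subgroup G)) : (∀ a ∈ S, a.Normal) → (C ⊓ S.inf id).Normal := by
  classical
  induction S using Finset.induction_on with
  | empty =>
    intro _
    simpa using hC
  | insert a S _ ih =>
    intro h
    have := h a (Finset.mem_insert_self _ _)
    have := ih (fun b hb => h b (Finset.mem_insert_of_mem hb))
    have h1 : C ⊓ (insert a S).inf id = (C ⊓ S.inf id) ⊓ a := by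
      rw [Finset.inf_insert, id, inf_assoc, inf_comm a]
    rw [h1]
    infer_instance

private theorem key {G : Type} [Group G] {C : Subgroup G} (S : Finset (Subgroup G)) :
    (∀ a ∈ S, Chief a C) → ∀ K : Subgroup G, Chief K C → ¬ Ab K C → K ∉ S →
      (C ⊓ S.inf id) ⊔ K = C := by
  classical
  induction S using Finset.induction_on with
  | empty =>
    intro _ K hK _ _
    simpa using hK.2.2.1.le
  | insert a S _ ih =>
    intro h K hK hA hn
    have ha := h a (Finset.mem_insert_self _ _)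
    have hS : ∀ b ∈ S, Chief b C := fun b hb => h b (Finset.mem_insert_of_mem hb)
    have := ha.1
    have := hK.1
    have := inf_normal ha.2.1 S (fun b hb => (hS b hb).1)
    have h1 : C ⊓ (insert a S).inf id = (C ⊓ S.inf id) ⊓ a := by
      rw [Finset.inf_insert, id, inf_assoc, inf_comm a]
    have h2 : (C ⊓ S.inf id) ⊔ K = C :=
      ih hS K hK hA (fun hm => hn (Finset.mem_insert_of_mem hm))
    have h3 : a ⊔ K = C := sup_eq ha hK (fun he => hn (he ▸ Finset.mem_insert_self _ _))
    have h4 := comm_step h2 h3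
    rw [h1]
    rcases hK.2.2.2 (((C ⊓ S.inf id) ⊓ a) ⊔ K) inferInstance le_sup_right
      (sup_le (inf_le_left.trans inf_le_left) hK.2.2.1.le) with h5 | h5
    · exfalso
      apply hA
      intro x hx y hy
      have h6 := h4 x hx y hy
      rwa [h5] at h6
    · exact h5

private theorem card_step {G : Type} [Group G] [Finite G] {C : Subgroup G}
    (S : Finset (Subgroup G)) : (∀ a ∈ S, Chief a C ∧ ¬ Ab a C) →
      2 ^ S.card * Nat.card (C ⊓ S.inf id : Subgroup G) ≤ Nat.card C := by
  classical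
  induction S using Finset.induction_on with
  | empty =>
    intro _
    simp
  | insert a S ha ih =>
    intro h
    have h0 := h a (Finset.mem_insert_self _ _)
    have hS : ∀ b ∈ S, Chief b C ∧ ¬ Ab b C := fun b hb => h b (Finset.mem_insert_of_mem hb)
    have h1 : C ⊓ (insert a S).inf id = (C ⊓ S.inf id) ⊓ a := by
      rw [Finset.inf_insert, id, inf_assoc, inf_comm a]
    have h2 := key S (fun b hb => (hS b hb).1) a h0.1 h0.2 ha
    have h3 : (C ⊓ S.inf id) ⊓ a < C ⊓ S.inf id := by
      refine lt_of_le_of_ne inf_le_left ?_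
      intro he
      have h4 : C ⊓ S.inf id ≤ a := by
        rw [← he]
        exact inf_le_right
      rw [sup_eq_right.2 h4] at h2
      exact h0.1.2.2.1.ne h2
    have h5 : Nat.card ((C ⊓ S.inf id) ⊓ a : Subgroup G) ∣ Nat.card (C ⊓ S.inf id : Subgroup G) :=
      Subgroup.card_dvd_of_le h3.le
    have h6 : 2 * Nat.card ((C ⊓ S.inf id) ⊓ a : Subgroup G) ≤
        Nat.card (C ⊓ S.inf id : Subgroup G) := by
      obtain ⟨c, hc⟩ := h5
      have hpos : 0 < Nat.card (C ⊓ S.inf id : Subgroup G) := Nat.card_pos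
      have hne : Nat.card ((C ⊓ S.inf id) ⊓ a : Subgroup G) ≠
          Nat.card (C ⊓ S.inf id : Subgroup G) := by
        intro he
        exact h3.ne (Subgroup.eq_of_le_of_card_ge h3.le he.ge)
      rcases Nat.lt_or_ge c 2 with h7 | h7
      · interval_cases c
        · omega
        · exact absurd (by rw [hc, mul_one]) hne
      · rw [hc, mul_comm 2]
        exact Nat.mul_le_mul_left _ h7
    rw [h1, Finset.card_insert_of_notMem ha, pow_succ]
    calc 2 ^ S.card * 2 * Nat.card ((C ⊓ S.inf id) ⊓ a : Subgroup G)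
        = 2 ^ S.card * (2 * Nat.card ((C ⊓ S.inf id) ⊓ a : Subgroup G)) := by ring
      _ ≤ 2 ^ S.card * Nat.card (C ⊓ S.inf id : Subgroup G) := Nat.mul_le_mul_left _ h6
      _ ≤ Nat.card C := ih hS

theorem non_k {G : Type} [Group G] [Finite G] (C : Subgroup G) :
    Nat.card {K : Subgroup G // Chief K C ∧ ¬ Ab K C} ≤ Nat.log 2 (Nat.card G) := by
  classical
  have hf : {K : Subgroup G | Chief K C ∧ ¬ Ab K C}.Finite := Set.toFinite _
  have h1 := card_step (C := C) hf.toFinset (fun a ha => by simpa using ha)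
  have h2 : Nat.card {K : Subgroup G // Chief K C ∧ ¬ Ab K C} = hf.toFinset.card := by
    rw [← Nat.card_eq_card_finite_toFinset hf]
    rfl
  rw [h2]
  apply Nat.le_log_of_pow_le (by norm_num)
  have h3 : 1 ≤ Nat.card (C ⊓ hf.toFinset.inf id : Subgroup G) := Nat.card_pos
  calc 2 ^ hf.toFinset.card = 2 ^ hf.toFinset.card * 1 := (mul_one _).symm
    _ ≤ 2 ^ hf.toFinset.card * Nat.card (C ⊓ hf.toFinset.inf id : Subgroup G) :=
        Nat.mul_le_mul_left _ h3
    _ ≤ Nat.card C := h1
    _ ≤ Nat.card G := Nat.card_le_card_of_injective _ Subtype.val_injective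

end Pool.Agent.GcS
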