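import Pool.Agent.GcS.Defs

/-!
MP_7fa120_al, class `Gc`. In a solvable transitive group a Sylow subgroup which is not trivial moves at least half of the points.

Proof by strong induction on `|X|`, for a fixed group `G` some term of whose derived series acts trivially. Let `F` be the set of the fixed points of
`C`. Let `A` be the last term of the derived series of `G` which acts nontrivially; it acts as an abelian group. Its orbits are blocks; `G` acts
transitively on the set `Σ` of the blocks, and all blocks have the same size `a > 1`.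
(1) `C` acts nontrivially on `Σ`: by induction `2 |F_Σ| ≤ |Σ|` and `|F| ≤ a |F_Σ|`.
(2) `C` acts trivially on `Σ`. Let `K` be the kernel of `G` on `Σ`, `C ≤ K`, a Sylow subgroup of `K`. If `C` fixes a block `B` pointwise then it is trivial: for `B' = g B`,
`g⁻¹ C g` is contained in a Sylow subgroup of `K`, so in `k C k⁻¹` with `k ∈ K`, which fixes `B` pointwise; so `C` fixes `B'` pointwise. Otherwise let `x` be a
fixed point of `C` in `B`, and let `a x`, `a ∈ A`, be not fixed. If `y` in `B` is fixed then `a y` is not fixed (`A` is abelian). So at most half of the points of `B`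
are fixed. Sum over the blocks.
-/

set_option autoImplicit false

namespace Pool.Agent.GcS

open MulAction
open scoped Pointwise

/-- The action on the orbits of a normal subgroup. -/
@[reducible] private def sraAct {G : Type} [Group G] {X : Type} [MulAction G X] (A : Subgroup G) (hA : A.Normal) :
    MulAction G (orbitRel.Quotient A X) where
  smul g := Quotient.map' (fun x => g • x) (by
    rintro x y ⟨a, ha⟩
    refine ⟨⟨g * a * g⁻¹, hA.conj_mem a a.2 g⟩, ?_⟩
    rw [← ha]
    show (g * (a : G) * g⁻¹) • g • y = g • (a : G) • y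
    rw [smul_smul, smul_smul, inv_mul_cancel_right])
  one_smul := by
    rintro ⟨x⟩
    exact congrArg (Quotient.mk _) (one_smul G x)
  mul_smul := by
    rintro g h ⟨x⟩
    exact congrArg (Quotient.mk _) (mul_smul g h x)

/-- Fixed points in one block. -/
private theorem sra_block {G : Type} [Group G] {X : Type} [MulAction G X] {A : Subgroup G} (hA : A.Normal)
    (hcom : ∀ a ∈ A, ∀ b ∈ A, ∀ x : X, a • b • x = b • a • x) (C : Subgroup G) {x : X} (hx : ∀ c ∈ C, c • x = x)
    {a : G} (ha : a ∈ A) (h0 : ¬ ∀ c ∈ C, c • a • x = a • x) {b : G} (hb : b ∈ A) (hbx : ∀ c ∈ C, c • b • x = b • x) :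
    ¬ ∀ c ∈ C, c • a • b • x = a • b • x := by
  intro h
  refine h0 fun c hc => ?_
  have h1 : c * a * c⁻¹ ∈ A := hA.conj_mem a ha c
  have h2 : ∀ y : X, c • a • y = (c * a * c⁻¹) • c • y := by
    intro y
    rw [smul_smul, smul_smul, inv_mul_cancel_right]
  have h3 := h c hc
  rw [h2, hbx c hc, hcom _ h1 b hb, hcom a ha b hb] at h3
  have h4 := smul_left_cancel b h3
  rw [h2, hx c hc, h4]

/-- Conjugates of a Sylow subgroup of a normal subgroup. -/
private theorem sra_conj {G : Type} [Group G] [Finite G] {p : ℕ} [Fact p.Prime] (C : Sylow p G) {K : Subgroup G} (hK : K.Normal)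
    (hCK : (C : Subgroup G) ≤ K) (g : G) : ∃ k ∈ K, ∀ c ∈ C, k⁻¹ * (g⁻¹ * c * g) * k ∈ C := by
  have h1 : IsPGroup p (((C : Subgroup G).map (MulAut.conj g⁻¹).toMonoidHom).comap K.subtype) :=
    (C.isPGroup'.map _).comap_subtype
  obtain ⟨Q, hQ⟩ := h1.exists_le_sylow
  obtain ⟨k, hk⟩ := exists_smul_eq K (C.subtype hCK) Q
  refine ⟨k, k.2, fun c hc => ?_⟩
  have h2 : g⁻¹ * c * g ∈ K := by
    have := hK.conj_mem c (hCK hc) g⁻¹
    rwa [inv_inv] at this
  have h3 : (⟨g⁻¹ * c * g, h2⟩ : K) ∈ Q := by
    refine hQ ?_
    rw [Subgroup.mem_comap]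
    refine ⟨c, hc, ?_⟩
    simp
  rw [← hk] at h3
  have h4 : (⟨g⁻¹ * c * g, h2⟩ : K) ∈ MulAut.conj k • ((C.subtype hCK : Sylow p K) : Subgroup K) := h3
  rw [Subgroup.mem_pointwise_smul_iff_inv_smul_mem] at h4
  have h5 : (MulAut.conj k)⁻¹ • (⟨g⁻¹ * c * g, h2⟩ : K) = k⁻¹ * (⟨g⁻¹ * c * g, h2⟩ : K) * k := by
    rw [← map_inv, MulAut.smul_def, MulAut.conj_apply, inv_inv]
  rw [h5, Sylow.coe_subtype, Subgroup.mem_subgroupOf] at h4
  exact h4

private theorem sra_main {G : Type} [Group G] [Finite G] {p : ℕ} [Fact p.Prime] (C : Sylow p G) :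
    ∀ (N : ℕ) (X : Type) [Finite X] [MulAction G X], Nat.card X = N → MulAction.IsPretransitive G X →
      (∃ n, ∀ g ∈ derivedSeries G n, ∀ x : X, g • x = x) → (∃ c ∈ C, ∃ x : X, c • x ≠ x) →
      2 * Nat.card {x : X // ∀ c ∈ C, c • x = x} ≤ Nat.card X := by
  intro N
  induction N using Nat.strong_induction_on with
  | _ N ih =>
  intro X _ _ hN ht hd hC
  classical
  have : Fintype X := Fintype.ofFinite X
  -- the abelian normal subgroup
  obtain ⟨A, hA, hcom, a0, ha0, x0, hx0⟩ : ∃ A : Subgroup G, A.Normal ∧
      (∀ a ∈ A, ∀ b ∈ A, ∀ x : X, a • b • x = b • a • x) ∧ ∃ a ∈ A, ∃ x : X, a • x ≠ x := by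
    have hn0 : Nat.find hd ≠ 0 := by
      intro h0
      have h1 := Nat.find_spec hd
      rw [h0] at h1
      obtain ⟨c, hc, x, hx⟩ := hC
      exact hx (h1 c (by rw [derivedSeries_zero]; exact Subgroup.mem_top c) x)
    obtain ⟨m, hm⟩ : ∃ m, Nat.find hd = m + 1 := ⟨Nat.find hd - 1, by omega⟩
    refine ⟨derivedSeries G m, derivedSeries_normal G m, ?_, ?_⟩
    · intro a ha b hb x
      have h1 := Nat.find_spec hd
      rw [hm, derivedSeries_succ] at h1
      have h2 := h1 _ (Subgroup.commutator_mem_commutator ha hb) (b • a • x)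
      rw [commutatorElement_def, smul_smul, smul_smul] at h2
      rw [← h2, smul_smul]
      congr 1
      group
    · by_contra hcon
      push Not at hcon
      exact Nat.find_min hd (m := m) (by omega) hcon
  let _ : MulAction G (orbitRel.Quotient A X) := sraAct A hA
  have hfin : Finite (orbitRel.Quotient A X) := Quotient.finite _
  have : Fintype (orbitRel.Quotient A X) := Fintype.ofFinite _
  let π : X → orbitRel.Quotient A X := Quotient.mk _
  have hπs : Function.Surjective π := Quotient.mk_surjective
  have hπ : ∀ (g : G) (x : X), g • π x = π (g • x) := fun g x => rfl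
  have hπA : ∀ a ∈ A, ∀ x : X, π (a • x) = π x := fun a ha x =>
    Quotient.sound ⟨⟨a, ha⟩, rfl⟩
  have hπA' : ∀ x y : X, π x = π y → ∃ a ∈ A, a • y = x := by
    intro x y h
    obtain ⟨a, ha⟩ := Quotient.exact h
    exact ⟨a, a.2, ha⟩
  set F : Finset X := Finset.univ.filter fun x => ∀ c ∈ C, c • x = x with hF
  have hFc : Nat.card {x : X // ∀ c ∈ C, c • x = x} = F.card := by
    rw [Nat.card_eq_fintype_card, Fintype.card_subtype]
  have hXc : Nat.card X = ∑ b : orbitRel.Quotient A X, (Finset.univ.filter fun x => π x = b).card := by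
    rw [Nat.card_eq_fintype_card, ← Finset.card_univ]
    exact Finset.card_eq_sum_card_fiberwise fun x _ => Finset.mem_coe.mpr (Finset.mem_univ _)
  rw [hFc]
  by_cases hcase : ∃ c ∈ C, ∃ b : orbitRel.Quotient A X, c • b ≠ b
  · -- case (1)
    have hlt : Nat.card (orbitRel.Quotient A X) < N := by
      rw [← hN, Nat.card_eq_fintype_card, Nat.card_eq_fintype_card]
      refine Fintype.card_lt_of_surjective_not_injective π hπs fun hinj => hx0 (hinj (hπA a0 ha0 x0))
    have ht' : MulAction.IsPretransitive G (orbitRel.Quotient A X) := by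
      refine ⟨fun b b' => ?_⟩
      obtain ⟨x, rfl⟩ := hπs b
      obtain ⟨y, rfl⟩ := hπs b'
      obtain ⟨g, hg⟩ := ht.exists_smul_eq x y
      exact ⟨g, by rw [hπ, hg]⟩
    have hd' : ∃ n, ∀ g ∈ derivedSeries G n, ∀ b : orbitRel.Quotient A X, g • b = b := by
      obtain ⟨n, hn⟩ := hd
      refine ⟨n, fun g hg b => ?_⟩
      obtain ⟨x, rfl⟩ := hπs b
      rw [hπ, hn g hg]
    have h1 := ih _ hlt (orbitRel.Quotient A X) rfl ht' hd' hcase
    set F' : Finset (orbitRel.Quotient A X) := Finset.univ.filter fun b => ∀ c ∈ C, c • b = b with hF'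
    have hFc' : Nat.card {b : orbitRel.Quotient A X // ∀ c ∈ C, c • b = b} = F'.card := by
      rw [Nat.card_eq_fintype_card, Fintype.card_subtype]
    rw [hFc'] at h1
    have hle : ∀ b b' : orbitRel.Quotient A X, (Finset.univ.filter fun x => π x = b).card ≤
        (Finset.univ.filter fun x => π x = b').card := by
      intro b b'
      obtain ⟨g, hg⟩ := ht'.exists_smul_eq b b'
      refine Finset.card_le_card_of_injOn (fun x => g • x) ?_ ?_
      · intro x hx
        have hx' : π x = b := (Finset.mem_filter.mp (Finset.mem_coe.mp hx)).2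
        refine Finset.mem_coe.mpr (Finset.mem_filter.mpr ⟨Finset.mem_univ _, ?_⟩)
        rw [← hπ, hx', hg]
      · intro x _ y _ hxy
        exact smul_left_cancel g hxy
    set q : ℕ := (Finset.univ.filter fun x => π x = π x0).card with hq
    have hq' : ∀ b : orbitRel.Quotient A X, (Finset.univ.filter fun x => π x = b).card = q := fun b =>
      le_antisymm (hle _ _) (hle _ _)
    have h2 : Nat.card X = Nat.card (orbitRel.Quotient A X) * q := by
      rw [hXc, Finset.sum_congr rfl fun b _ => hq' b, Finset.sum_const, smul_eq_mul, Finset.card_univ,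
        Nat.card_eq_fintype_card]
    have h3 : F.card ≤ F'.card * q := by
      have h4 : F.card = ∑ b ∈ F', (F.filter fun x => π x = b).card := by
        refine Finset.card_eq_sum_card_fiberwise fun x hx => ?_
        have hx' := (Finset.mem_filter.mp (Finset.mem_coe.mp hx)).2
        refine Finset.mem_coe.mpr (Finset.mem_filter.mpr ⟨Finset.mem_univ _, fun c hc => ?_⟩)
        rw [hπ, hx' c hc]
      rw [h4]
      calc ∑ b ∈ F', (F.filter fun x => π x = b).card ≤ ∑ b ∈ F', q := by
            refine Finset.sum_le_sum fun b _ => ?_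
            rw [← hq' b]
            exact Finset.card_le_card (Finset.filter_subset_filter _ (Finset.subset_univ _))
        _ = F'.card * q := by rw [Finset.sum_const, smul_eq_mul]
    rw [h2]
    calc 2 * F.card ≤ 2 * (F'.card * q) := Nat.mul_le_mul_left _ h3
      _ = (2 * F'.card) * q := by ring
      _ ≤ _ := Nat.mul_le_mul_right _ h1
  · -- case (2)
    push Not at hcase
    have hkey : ∀ b : orbitRel.Quotient A X, 2 * (F.filter fun x => π x = b).card ≤
        (Finset.univ.filter fun x => π x = b).card := by
      intro b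
      rcases Finset.eq_empty_or_nonempty (F.filter fun x => π x = b) with h0 | ⟨x, hx⟩
      · rw [h0]
        simp
      · obtain ⟨hxF, hxb⟩ := Finset.mem_filter.mp hx
        have hxC := (Finset.mem_filter.mp hxF).2
        -- a point of the block which is not fixed
        have hne : ∃ a ∈ A, ¬ ∀ c ∈ C, c • a • x = a • x := by
          by_contra hcon
          push Not at hcon
          obtain ⟨c, hc, y, hy⟩ := hC
          obtain ⟨g, hg⟩ := ht.exists_smul_eq x y
          let K : Subgroup G := (MulAction.toPermHom G (orbitRel.Quotient A X)).ker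
          have hK : K.Normal := inferInstance
          have hKm : ∀ k ∈ K, ∀ b : orbitRel.Quotient A X, k • b = b := by
            intro k hk b
            have h1 : MulAction.toPermHom G (orbitRel.Quotient A X) k = 1 := hk
            have h2 := congrArg (fun σ => σ b) h1
            exact h2
          have hCK : (C : Subgroup G) ≤ K := by
            intro k hk
            show MulAction.toPermHom G (orbitRel.Quotient A X) k = 1
            ext b
            exact hcase k hk b
          obtain ⟨k, hk, hkC⟩ := sra_conj C hK hCK g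
          have h1 : π (k⁻¹ • x) = π x := by
            rw [← hπ]
            exact hKm _ (K.inv_mem hk) _
          obtain ⟨a, ha, hax⟩ := hπA' _ _ h1
          have h2 := hcon a ha _ (hkC c hc)
          rw [hax, smul_smul, mul_assoc, mul_inv_cancel, mul_one] at h2
          have h3 : (k⁻¹ * (g⁻¹ * c * g)) • x = k⁻¹ • ((g⁻¹ * c * g) • x) := mul_smul _ _ _
          rw [h3] at h2
          have h4 := smul_left_cancel _ h2
          rw [mul_assoc, mul_smul, inv_smul_eq_iff, mul_smul, hg] at h4
          exact hy h4
        obtain ⟨a, ha, hna⟩ := hne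
        have h5 : (F.filter fun x => π x = b).card ≤
            ((Finset.univ.filter fun x => π x = b).filter fun x => ¬ ∀ c ∈ C, c • x = x).card := by
          refine Finset.card_le_card_of_injOn (fun y => a • y) ?_ ?_
          · intro y hy
            obtain ⟨hyF, hyb⟩ := Finset.mem_filter.mp (Finset.mem_coe.mp hy)
            have hyC := (Finset.mem_filter.mp hyF).2
            obtain ⟨d, hd1, hd2⟩ := hπA' y x (hyb.trans hxb.symm)
            refine Finset.mem_coe.mpr (Finset.mem_filter.mpr ⟨Finset.mem_filter.mpr ⟨Finset.mem_univ _, ?_⟩, ?_⟩)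
            · rw [hπA a ha, hyb]
            · rw [← hd2]
              exact sra_block hA hcom (C : Subgroup G) hxC ha hna hd1 (by rw [hd2]; exact hyC)
          · intro y _ z _ hyz
            exact smul_left_cancel a hyz
        have h6 := Finset.card_filter_add_card_filter_not (s := Finset.univ.filter fun x => π x = b)
          (fun x => ∀ c ∈ C, c • x = x)
        have h7 : (F.filter fun x => π x = b) =
            (Finset.univ.filter fun x => π x = b).filter fun x => ∀ c ∈ C, c • x = x := by
          rw [hF, Finset.filter_filter, Finset.filter_filter]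
          refine Finset.filter_congr fun x _ => and_comm
        rw [← h7] at h6
        omega
    have h4 : F.card = ∑ b : orbitRel.Quotient A X, (F.filter fun x => π x = b).card :=
      Finset.card_eq_sum_card_fiberwise fun x _ => Finset.mem_coe.mpr (Finset.mem_univ _)
    rw [hXc, h4, Finset.mul_sum]
    exact Finset.sum_le_sum fun b _ => hkey b

theorem sol_rat (G : Type) [Group G] [Finite G] (X : Type) [Finite X] [MulAction G X] (ht : MulAction.IsPretransitive G X)
    (hs : Group.IsSolvable (MulAction.toPermHom G X).range) (p : ℕ) (hp : p.Prime) (C : Sylow p G)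
    (hC : ∃ c ∈ C, ∃ x : X, c • x ≠ x) : 2 * Nat.card {x : X // ∀ c ∈ C, c • x = x} ≤ Nat.card X := by
  have : Fact p.Prime := ⟨hp⟩
  refine sra_main C _ X rfl ht ?_ hC
  obtain ⟨n, hn⟩ := hs
  refine ⟨n, fun g hg x => ?_⟩
  have h1 := map_derivedSeries_le_derivedSeries (MulAction.toPermHom G X).rangeRestrict n
  have h2 : (MulAction.toPermHom G X).rangeRestrict g ∈ derivedSeries (MulAction.toPermHom G X).range n :=
    h1 (Subgroup.mem_map_of_mem _ hg)
  rw [hn, Subgroup.mem_bot] at h2
  have h3 : MulAction.toPermHom G X g = 1 := congrArg Subtype.val h2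
  exact congrArg (fun σ => σ x) h3

end Pool.Agent.GcS
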