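import Pool.Agent.GcS.ExOdd

/-!
MP_7fa120_al, class `Gc`. The pair `(Q, D)` when `oddGen H` has only one nontrivial orbit.

Proof. `R = oddGen H` is normal in `H` and `H / R` is a 2-group (every element of odd prime power order is in `R`). `Δ = mv R` is an orbit of `R` with more than
one point. The image of `R` in the permutations of `Δ` does not have order a power of two, otherwise the elements of odd order of `R` would be
trivial on `Δ`, and `R` moves only points of `Δ`. `exists_odd` gives `p`; let `Q` be a Sylow `p`-subgroup of `R` (a `p`-group, so solvable of odd order). It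
moves at least half of the points of `Δ`. By the Frattini argument `H = R N`, `N` the normaliser of `Q` in `H`; let `D` be a Sylow 2-subgroup of `N`; as
`N / (N ⊓ R)` is a 2-group, `N = (N ⊓ R) D`, so `R D = H` (compare `BdO/Frat.lean`, `SvS/HallP.lean`).
-/

set_option autoImplicit false

namespace Pool.Agent.GcS

open Equiv Pool.Agent.NilS Pool.Agent.BdO Pool.Agent.SvS

private theorem so_two_or {m : ℕ} (hm : m ≠ 0) (h : ∀ p : ℕ, p.Prime → p ∣ m → p = 2) :
    ∃ k : ℕ, m = 2 ^ k :=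
  ⟨_, Nat.eq_prime_pow_of_unique_prime_dvd hm fun {d} hd hdm => h d hd hdm⟩

private theorem so_opp {G : Type} [Group G] {g : G} {r j : ℕ} (hr : r.Prime) (hr2 : r ≠ 2)
    (h : orderOf g = r ^ j) : Opp g := ⟨r, j, hr, hr2, h⟩

private theorem so_quot {G : Type} [Group G] [Finite G] (N : Subgroup G) [N.Normal]
    (hN : ∀ g : G, Opp g → g ∈ N) : ∃ k : ℕ, Nat.card (G ⧸ N) = 2 ^ k := by
  refine so_two_or Nat.card_pos.ne' fun p hp hdvd => ?_
  by_contra hp2
  have : Fact p.Prime := ⟨hp⟩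
  obtain ⟨x, hx⟩ := exists_prime_orderOf_dvd_card' p hdvd
  obtain ⟨g, rfl⟩ := QuotientGroup.mk_surjective x
  obtain ⟨a, m, hm, hgm⟩ := Nat.exists_eq_pow_mul_and_not_dvd (isOfFinOrder_of_finite g).orderOf_pos.ne' p
    hp.ne_one
  have hm0 : m ≠ 0 := by
    rintro rfl
    exact hm (dvd_zero p)
  have h1 : orderOf (g ^ m) = p ^ a := by
    rw [orderOf_pow_of_dvd hm0 (by rw [hgm]; exact dvd_mul_left m _), hgm,
      Nat.mul_div_cancel _ (Nat.pos_of_ne_zero hm0)]
  have h2 : g ^ m ∈ N := hN _ (so_opp hp hp2 h1)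
  have h3 : ((g : G ⧸ N)) ^ m = 1 := by
    rw [← QuotientGroup.mk_pow]
    exact (QuotientGroup.eq_one_iff _).mpr h2
  rw [← orderOf_dvd_iff_pow_eq_one, hx] at h3
  exact hm h3

/-- the Frattini argument for a Sylow subgroup of `oddGen` -/
private theorem so_frat (G : Type) [Group G] [Finite G] (p : ℕ) [Fact p.Prime]
    (N : Subgroup G) (hNdef : N = oddGen (⊤ : Subgroup G)) (P : Sylow p N) :
    ∃ D : Subgroup G, (∃ k : ℕ, Nat.card D = 2 ^ k) ∧
      Nz D ((P : Subgroup N).map N.subtype) ∧ N ⊔ D = ⊤ := by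
  have hN : ∀ g : G, Opp g → g ∈ N := fun g hg => by
    rw [hNdef]
    exact Subgroup.subset_closure ⟨Subgroup.mem_top g, hg⟩
  have hnorm : N.Normal := by
    constructor
    intro n hn g
    have h1 : N ≤ N.comap (MulAut.conj g).toMonoidHom := by
      rw [hNdef]
      unfold oddGen
      rw [Subgroup.closure_le]
      rintro x ⟨-, r, j, hr, hr2, hx⟩
      rw [SetLike.mem_coe, Subgroup.mem_comap]
      refine Subgroup.subset_closure ⟨Subgroup.mem_top _, r, j, hr, hr2, ?_⟩
      rw [← hx]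
      exact MulEquiv.orderOf_eq (MulAut.conj g) x
    have h2 := h1 hn
    rw [Subgroup.mem_comap] at h2
    exact h2
  set C := (P : Subgroup N).map N.subtype with hC
  have hfrat : Subgroup.normalizer (C : Set G) ⊔ N = ⊤ := Sylow.normalizer_sup_eq_top P
  set M := Subgroup.normalizer (C : Set G) with hM
  obtain ⟨D0⟩ : Nonempty (Sylow 2 M) := inferInstance
  refine ⟨(D0 : Subgroup M).map M.subtype, ?_, ?_, ?_⟩
  · rw [Subgroup.card_map_of_injective (Subgroup.subtype_injective M)]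
    exact IsPGroup.exists_card_eq D0.isPGroup'
  · rintro l hl o ho
    obtain ⟨l', -, rfl⟩ := Subgroup.mem_map.mp hl
    exact (Subgroup.mem_normalizer_iff.mp l'.2 o).mp ho
  · obtain ⟨k, hk⟩ := so_quot N hN
    have hQ : IsPGroup 2 (G ⧸ N) := IsPGroup.of_card hk
    set f : M →* G ⧸ N := (QuotientGroup.mk' N).comp M.subtype with hf
    have hsurj : Function.Surjective f := by
      rw [← MonoidHom.range_eq_top, hf, MonoidHom.range_comp, Subgroup.range_subtype]
      have h1 := congrArg (Subgroup.map (QuotientGroup.mk' N)) hfrat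
      rw [Subgroup.map_sup, QuotientGroup.map_mk'_self, sup_bot_eq] at h1
      rw [h1, ← MonoidHom.range_eq_map, MonoidHom.range_eq_top]
      exact QuotientGroup.mk'_surjective N
    have h2 : (D0 : Subgroup M).map f = ⊤ := by
      have h3 := (D0.mapSurjective hsurj).is_maximal' (hQ.to_subgroup ⊤) le_top
      rw [h3]
      rfl
    rw [← Subgroup.map_map] at h2
    rw [eq_top_iff]
    intro g _
    have h3 : (QuotientGroup.mk' N g) ∈ ((D0 : Subgroup M).map M.subtype).map (QuotientGroup.mk' N) := by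
      rw [h2]
      exact Subgroup.mem_top _
    obtain ⟨d, hd, hdg⟩ := Subgroup.mem_map.mp h3
    have h4 : d⁻¹ * g ∈ N := QuotientGroup.eq.mp hdg
    have h5 : g = d * (d⁻¹ * g) := by group
    rw [h5]
    exact mul_mem (Subgroup.mem_sup_right hd) (Subgroup.mem_sup_left h4)

private theorem so_gen {n : ℕ} (H : Subgroup (Perm (Fin n))) :
    oddGen H = (oddGen (⊤ : Subgroup H)).map H.subtype := by
  unfold oddGen
  rw [MonoidHom.map_closure]
  congr 1
  ext g
  constructor
  · rintro ⟨hg, r, j, hr, hr2, ho⟩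
    exact ⟨⟨g, hg⟩, ⟨Subgroup.mem_top _, r, j, hr, hr2, by rw [Subgroup.orderOf_mk]; exact ho⟩, rfl⟩
  · rintro ⟨g', ⟨-, r, j, hr, hr2, ho⟩, rfl⟩
    exact ⟨g'.2, r, j, hr, hr2, by rw [← ho]; exact Subgroup.orderOf_coe g'⟩

theorem sup_one {n : ℕ} (H : Subgroup (Perm (Fin n))) (h : Orb (oddGen H) (mv (oddGen H))) :
    ∃ Q D : Subgroup (Perm (Fin n)), Q ≤ oddGen H ∧ Odd (Nat.card Q) ∧ Group.IsSolvable Q ∧ Two D ∧ Nz D Q ∧
      oddGen H ⊔ D = H ∧ (mv (oddGen H)).card ≤ 2 * (mv Q).card := by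
  classical
  have hgen := so_gen H
  set N : Subgroup H := oddGen (⊤ : Subgroup H) with hN
  have hmem : ∀ g : N, ((g : H) : Perm (Fin n)) ∈ oddGen H := by
    intro g
    rw [hgen]
    exact ⟨g.1, g.2, rfl⟩
  let Δ := mv (oddGen H)
  let act : MulAction N Δ :=
    { smul := fun g x => ⟨((g : H) : Perm (Fin n)) x.1, h.1 _ (hmem g) x.1 x.2⟩
      one_smul := fun x => Subtype.ext rfl
      mul_smul := fun g k x => Subtype.ext rfl }
  have hsm : ∀ (g : N) (x : Δ), ((g • x : Δ) : Fin n) = ((g : H) : Perm (Fin n)) x.1 :=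
    fun g x => rfl
  have ht : MulAction.IsPretransitive N Δ := by
    constructor
    intro x y
    obtain ⟨k, hk, hkx⟩ := h.2.2 x.1 x.2 y.1 y.2
    rw [hgen] at hk
    obtain ⟨g, hg, rfl⟩ := hk
    exact ⟨⟨g, hg⟩, Subtype.ext hkx⟩
  have h2 : ¬ ∃ k : ℕ, Nat.card (MulAction.toPermHom N Δ).range = 2 ^ k := by
    rintro ⟨k, hk⟩
    have htriv : ∀ g ∈ {g | g ∈ H ∧ Opp g}, g = (1 : Perm (Fin n)) := by
      rintro g ⟨hgH, r, j, hr, hr2, ho⟩
      have hgR : g ∈ oddGen H := Subgroup.subset_closure ⟨hgH, r, j, hr, hr2, ho⟩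
      have hgN : (⟨g, hgH⟩ : H) ∈ N := Subgroup.subset_closure
        ⟨Subgroup.mem_top _, r, j, hr, hr2, by rw [Subgroup.orderOf_mk]; exact ho⟩
      let g' : N := ⟨⟨g, hgH⟩, hgN⟩
      have hog : orderOf g' = r ^ j := by
        rw [Subgroup.orderOf_mk, Subgroup.orderOf_mk]
        exact ho
      have e1 : orderOf (MulAction.toPermHom N Δ g') ∣ r ^ j := by
        rw [← hog]
        exact orderOf_map_dvd _ _
      have e2 : orderOf (MulAction.toPermHom N Δ g') ∣ 2 ^ k := by
        rw [← hk]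
        have e3 : MulAction.toPermHom N Δ g' ∈ (MulAction.toPermHom N Δ).range := ⟨g', rfl⟩
        have e4 := orderOf_dvd_natCard
          (⟨MulAction.toPermHom N Δ g', e3⟩ : (MulAction.toPermHom N Δ).range)
        rwa [Subgroup.orderOf_mk] at e4
      have hcop : Nat.Coprime (r ^ j) (2 ^ k) :=
        Nat.Coprime.pow _ _ ((Nat.coprime_primes hr Nat.prime_two).2 hr2)
      have e5 : orderOf (MulAction.toPermHom N Δ g') = 1 :=
        Nat.eq_one_of_dvd_coprimes hcop e1 e2
      rw [orderOf_eq_one_iff] at e5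
      ext x
      by_cases hx : x ∈ Δ
      · have e6 := congrArg (fun σ : Perm Δ => ((σ ⟨x, hx⟩ : Δ) : Fin n)) e5
        simp only [MulAction.toPermHom_apply, MulAction.toPerm_apply, Perm.coe_one, id_eq] at e6
        rw [hsm] at e6
        rw [Perm.coe_one, id_eq]
        exact congrArg _ e6
      · have e7 : g x = x := by
          by_contra hne
          exact hx (mem_mv.mpr ⟨g, hgR, hne⟩)
        rw [e7, Perm.coe_one, id_eq]
    have hbot : oddGen H = ⊥ := by
      unfold oddGen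
      rw [Subgroup.closure_eq_bot_iff]
      intro g hg
      exact htriv g hg
    obtain ⟨x, hx⟩ := h.2.1
    obtain ⟨q, hq, hqx⟩ := mem_mv.mp hx
    rw [hbot, Subgroup.mem_bot] at hq
    rw [hq] at hqx
    exact hqx rfl
  obtain ⟨p, hp, hp2, hC⟩ := exists_odd N Δ ht h2
  have : Fact p.Prime := ⟨hp⟩
  obtain ⟨P⟩ : Nonempty (Sylow p N) := inferInstance
  have hfix := hC P
  obtain ⟨D, hD2, hDN, hDs⟩ := so_frat H p N hN P
  have hinjH := Subgroup.subtype_injective H
  have hinjN := Subgroup.subtype_injective N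
  set Q0 : Subgroup H := (P : Subgroup N).map N.subtype with hQ0
  have hQN : Q0 ≤ N := Subgroup.map_subtype_le _
  have cQ : Nat.card (Q0.map H.subtype) = Nat.card P := by
    rw [Subgroup.card_map_of_injective hinjH, hQ0, Subgroup.card_map_of_injective hinjN]
  obtain ⟨k, hk⟩ := IsPGroup.exists_card_eq P.isPGroup'
  have hQR : Q0.map H.subtype ≤ oddGen H := by
    rw [hgen]
    exact Subgroup.map_mono hQN
  refine ⟨Q0.map H.subtype, D.map H.subtype, hQR, ?_, ?_, ?_, ?_, ?_, ?_⟩
  · rw [cQ, hk]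
    exact (hp.odd_of_ne_two hp2).pow
  · have h3 : IsPGroup p (Q0.map H.subtype) := IsPGroup.of_card (by rw [cQ]; exact hk)
    have h4 : Group.IsNilpotent (Q0.map H.subtype) := h3.isNilpotent
    exact inferInstance
  · unfold Two
    rw [Subgroup.card_map_of_injective hinjH]
    exact hD2
  · rintro l hl o ho
    obtain ⟨l', hl', rfl⟩ := Subgroup.mem_map.mp hl
    obtain ⟨o', ho', rfl⟩ := Subgroup.mem_map.mp ho
    exact ⟨l' * o' * l'⁻¹, hDN l' hl' o' ho', by simp⟩
  · rw [hgen, ← Subgroup.map_sup, hDs, ← MonoidHom.range_eq_map, Subgroup.range_subtype]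
  · -- the support
    set Q := Q0.map H.subtype with hQ
    have hsub : mv Q ⊆ Δ := by
      intro x hx
      obtain ⟨q, hq, hqx⟩ := mem_mv.mp hx
      exact mem_mv.mpr ⟨q, hQR hq, hqx⟩
    have hle : (Δ \ mv Q).card ≤ Nat.card {x : Δ // ∀ c ∈ P, c • x = x} := by
      have h7 : (Δ \ mv Q).card = Nat.card {x // x ∈ Δ \ mv Q} := by
        rw [Nat.card_eq_fintype_card, Fintype.card_coe]
      rw [h7]
      have hfx : ∀ x ∈ Δ \ mv Q, ∀ c ∈ P, ((c : H) : Perm (Fin n)) x = x := by
        intro x hx c hc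
        by_contra hne
        exact (Finset.mem_sdiff.mp hx).2 (mem_mv.mpr ⟨_, ⟨c.1, ⟨c, hc, rfl⟩, rfl⟩, hne⟩)
      refine Nat.card_le_card_of_injective (fun x : {x // x ∈ Δ \ mv Q} =>
        (⟨⟨x.1, (Finset.mem_sdiff.mp x.2).1⟩, fun c hc => Subtype.ext (hfx x.1 x.2 c hc)⟩ :
          {x : Δ // ∀ c ∈ P, c • x = x})) ?_
      intro x y hxy
      have h8 := congrArg (fun z : {x : Δ // ∀ c ∈ P, c • x = x} => ((z : Δ) : Fin n)) hxy
      exact Subtype.ext h8
    have hΔ : Nat.card Δ = Δ.card := by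
      rw [Nat.card_eq_fintype_card, Fintype.card_coe]
    have h5 := Finset.card_sdiff_add_card_eq_card hsub
    have h6 : 2 * Nat.card {x : Δ // ∀ c ∈ P, c • x = x} ≤ Δ.card := by
      rw [← hΔ]
      exact hfix
    change Δ.card ≤ 2 * (mv Q).card
    omega

end Pool.Agent.GcS
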